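import Pool.Agent.W_MP_2972c3_al.Closure

set_option autoImplicit false
set_option linter.unusedVariables false

/-! ### From elementary equivalence of the clone lattices to third-order equivalence -/

namespace Pool.Agent.W_MP_2972c3_al

universe u

open Clone

namespace Def

variable {Γ : Type}

/-- quantification over a finite block of variables -/
theorem alls {β : Type} [Finite β] {R : ∀ (L : Type u) [LE L], (Γ → L) → (β → L) → Prop}
    (h : Def (Γ ⊕ β) (fun L _ v => R L (fun g => v (.inl g)) (fun b => v (.inr b)))) :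
    Def Γ (fun L _ v => ∀ x : β → L, R L v x) := by
  obtain ⟨φ, hφ⟩ := h
  refine ⟨FirstOrder.Language.Formula.iAlls β φ, fun L _ v => ?_⟩
  let _ := FirstOrder.Language.orderStructure L
  unfold Rz
  rw [FirstOrder.Language.Formula.realize_iAlls]
  refine forall_congr' fun i => ?_
  exact hφ L (fun a => Sum.elim v i a)

theorem exs {β : Type} [Finite β] {R : ∀ (L : Type u) [LE L], (Γ → L) → (β → L) → Prop}
    (h : Def (Γ ⊕ β) (fun L _ v => R L (fun g => v (.inl g)) (fun b => v (.inr b)))) :
    Def Γ (fun L _ v => ∃ x : β → L, R L v x) :=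
  (Def.alls (R := fun L _ v x => ¬ R L v x) h.not).not.congr fun L _ v => by
    push Not
    rfl

theorem tru : Def.{u} Γ (fun _ _ _ => True) := Def.fls.not.congr fun L _ v => by simp

theorem finset {ι : Type} (s : Finset ι) {R : ι → ∀ (L : Type u) [LE L], (Γ → L) → Prop}
    (h : ∀ i, Def Γ (R i)) : Def Γ (fun L _ v => ∀ i ∈ s, R i L v) := by
  classical
  induction s using Finset.induction with
  | empty => exact Def.tru.congr fun L _ v => by simp
  | insert a s ha ih =>
    exact ((h a).and ih).congr fun L _ v => by simp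

theorem finite {ι : Type} [Fintype ι] {R : ι → ∀ (L : Type u) [LE L], (Γ → L) → Prop}
    (h : ∀ i, Def Γ (R i)) : Def Γ (fun L _ v => ∀ i, R i L v) :=
  (Def.finset Finset.univ h).congr fun L _ v => by simp

/-- There are `m` distinct elements with a definable property. -/
theorem card {P : ∀ (L : Type u) [LE L], L → Prop} (hP : ∀ {Γ : Type} (a : Γ), Def Γ (fun L _ v => P L (v a)))
    (m : ℕ) : Def Empty (fun L _ _ => ∃ x : Fin m → L, (∀ i, P L (x i)) ∧
      ∀ i j, i ≠ j → ¬ x i ≤ x j) := by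
  refine Def.exs (R := fun L _ v x => (∀ i, P L (x i)) ∧ ∀ i j, i ≠ j → ¬ x i ≤ x j) ?_
  refine (Def.finite fun i => hP _).and (Def.finite fun i => Def.finite fun j => ?_)
  by_cases hij : i = j
  · exact Def.tru.congr fun L _ v => by simp [hij]
  · exact (Def.le (Sum.inr i) (Sum.inr j)).not.congr fun L _ v => by simp [hij]

end Def

section Cards

theorem exists_Sys (A : Type u) [Infinite A] : Nonempty (Sys A) := by
  have hs : Nonempty (A ≃ A ⊕ A) := by
    rw [← Cardinal.eq]
    simp [Cardinal.mk_sum]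
  have hp : Nonempty (A ≃ A × A) := by
    rw [← Cardinal.eq]
    simp [Cardinal.mk_prod]
  obtain ⟨g⟩ := hs
  obtain ⟨p⟩ := hp
  let a0 : A := Classical.arbitrary A
  let F : (A → A ⊕ A) → (A → A ⊕ A) → A → A := fun l r x => g.symm (Sum.elim l r (g x))
  have hF : ∀ l r x, F l r x = x ↔ Sum.elim l r (g x) = g x := by
    intro l r x
    show g.symm _ = x ↔ _
    rw [Equiv.symm_apply_eq]
  have hFl : ∀ l r a, F l r (g.symm (Sum.inl a)) = g.symm (l a) := by
    intro l r a
    show g.symm (Sum.elim l r (g (g.symm (Sum.inl a)))) = _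
    rw [Equiv.apply_symm_apply]; rfl
  have hFr : ∀ l r a, F l r (g.symm (Sum.inr a)) = g.symm (r a) := by
    intro l r a
    show g.symm (Sum.elim l r (g (g.symm (Sum.inr a)))) = _
    rw [Equiv.apply_symm_apply]; rfl
  have hcases : ∀ x : A, (∃ a, x = g.symm (Sum.inl a)) ∨ ∃ a, x = g.symm (Sum.inr a) := by
    intro x
    rcases h : g x with a | a
    · left; exact ⟨a, by rw [← h, Equiv.symm_apply_apply]⟩
    · right; exact ⟨a, by rw [← h, Equiv.symm_apply_apply]⟩
  have key : ∀ q : A → A, ∀ x, F Sum.inl (fun a => Sum.inl (q a)) x = x ↔ ∃ a, x = g.symm (Sum.inl a) := by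
    intro q x
    rcases hcases x with ⟨a, rfl⟩ | ⟨a, rfl⟩
    · rw [hFl]; simp
    · rw [hFr]; simp
  let e1 : A → A := F Sum.inl (fun a => Sum.inl (p a).1)
  let e2 : A → A := F Sum.inl (fun a => Sum.inl (p a).2)
  let e3 : A → A := F Sum.inr Sum.inr
  have k1 : ∀ x, e1 x = x ↔ ∃ a, x = g.symm (Sum.inl a) := key _
  have k2 : ∀ x, e2 x = x ↔ ∃ a, x = g.symm (Sum.inl a) := key _
  have k1' : ∀ x, ¬ e1 x = x ↔ ∃ a, x = g.symm (Sum.inr a) := by
    intro x
    rw [k1]
    rcases hcases x with ⟨a, rfl⟩ | ⟨a, rfl⟩ <;> simp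
  have l1 : ∀ a, e1 (g.symm (Sum.inl a)) = g.symm (Sum.inl a) := fun a => hFl _ _ a
  have l2 : ∀ a, e2 (g.symm (Sum.inl a)) = g.symm (Sum.inl a) := fun a => hFl _ _ a
  have l3 : ∀ a, e3 (g.symm (Sum.inl a)) = g.symm (Sum.inr a) := fun a => hFl _ _ a
  have r1 : ∀ a, e1 (g.symm (Sum.inr a)) = g.symm (Sum.inl (p a).1) := fun a => hFr _ _ a
  have r2 : ∀ a, e2 (g.symm (Sum.inr a)) = g.symm (Sum.inl (p a).2) := fun a => hFr _ _ a
  have r3 : ∀ a, e3 (g.symm (Sum.inr a)) = g.symm (Sum.inr a) := fun a => hFr _ _ a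
  refine ⟨⟨e1, e2, e3, g.symm (Sum.inl a0), ?_, ?_, ?_, ?_, ?_, ?_, l1 a0, ?_, ?_, ?_, ?_, ?_, ?_⟩⟩
  · intro h
    have := congrFun h (g.symm (Sum.inr a0))
    rw [r1] at this
    simp at this
  · intro h
    have := congrFun h (g.symm (Sum.inr a0))
    rw [r2] at this
    simp at this
  · intro h
    have := congrFun h (g.symm (Sum.inl a0))
    rw [l3] at this
    simp at this
  · intro x
    rcases hcases x with ⟨a, rfl⟩ | ⟨a, rfl⟩
    · rw [l1, l1]
    · rw [r1, l1]
  · intro x
    rcases hcases x with ⟨a, rfl⟩ | ⟨a, rfl⟩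
    · rw [l2, l2]
    · rw [r2, l2]
  · intro x
    rcases hcases x with ⟨a, rfl⟩ | ⟨a, rfl⟩
    · rw [l3, r3]
    · rw [r3, r3]
  · intro x
    rw [k1, k2]
  · intro x
    rw [k1']
    rcases hcases x with ⟨a, rfl⟩ | ⟨a, rfl⟩
    · rw [l3]; simp
    · rw [r3]; simp
  · intro c hc
    obtain ⟨a, rfl⟩ := (k1' c).mp hc
    exact ⟨g.symm (Sum.inl a), l1 a, l3 a⟩
  · intro b b' hb hb' h
    obtain ⟨a, rfl⟩ := (k1 b).mp hb
    obtain ⟨a', rfl⟩ := (k1 b').mp hb'
    rw [l3, l3] at h
    simp at h
    rw [h]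
  · intro b b' hb hb'
    obtain ⟨a, rfl⟩ := (k1 b).mp hb
    obtain ⟨a', rfl⟩ := (k1 b').mp hb'
    refine ⟨g.symm (Sum.inr (p.symm (a, a'))), (k1' _).mpr ⟨_, rfl⟩, ?_, ?_⟩
    · rw [r1]; simp
    · rw [r2]; simp
  · intro c c' hc hc' h h'
    obtain ⟨a, rfl⟩ := (k1' c).mp hc
    obtain ⟨a', rfl⟩ := (k1' c').mp hc'
    rw [r1, r1] at h
    rw [r2, r2] at h'
    simp at h h'
    have : p a = p a' := Prod.ext h h'
    rw [p.injective this]

theorem Sys.equiv {A : Type u} [Infinite A] (σ : Sys A) : Nonempty (A ≃ σ.B) := by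
  have e : A ≃ σ.B ⊕ σ.B := by
    refine (Equiv.ofBijective (fun x : σ.B ⊕ σ.B => Sum.elim (fun b => b.1) (fun b => σ.e3 b.1) x)
      ⟨?_, ?_⟩).symm
    · rintro (b | b) (b' | b') h
      · exact congrArg Sum.inl (Subtype.ext h)
      · exact absurd h (σ.ne_e3 b b')
      · exact absurd (Eq.symm h) (σ.ne_e3 b' b)
      · exact congrArg Sum.inr (Subtype.ext (σ.inj _ _ b.2 b'.2 h))
    · intro x
      rcases σ.rep_spec x with h | h
      · exact ⟨Sum.inl (σ.rep x), h.symm⟩
      · exact ⟨Sum.inr (σ.rep x), h.symm⟩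
  have hB : Infinite σ.B := by
    by_contra h
    rw [not_infinite_iff_finite] at h
    have : Finite A := Finite.of_equiv _ e.symm
    exact not_finite A
  rw [← Cardinal.eq, Cardinal.mk_congr e]
  simp [Cardinal.mk_sum]

end Cards

/-- the point variable values of the final sentence -/
def vof {L : Type u} (e1 e2 e3 d : L) : Vr → L
  | .e1 => e1
  | .e2 => e2
  | .e3 => e3
  | .d => d
  | .pt _ => d
  | .rel _ _ => d
  | .fam _ _ => d

/-- the final sentence for the formula `φ` -/
def Sen (φ : Fml) (L : Type u) [LE L] : Prop :=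
  ∀ e1 e2 e3 d : L, SysO e1 e2 e3 d → Tr φ L (vof e1 e2 e3 d)

theorem Def_Sen (φ : Fml) : Def.{u} Empty (fun L _ _ => Sen φ L) := by
  refine Def.all (R := fun L _ v e1 => ∀ e2 e3 d : L, SysO e1 e2 e3 d → Tr φ L (vof e1 e2 e3 d)) ?_
  refine Def.all (R := fun L _ (v : Option Empty → L) e2 =>
    ∀ e3 d : L, SysO (v none) e2 e3 d → Tr φ L (vof (v none) e2 e3 d)) ?_
  refine Def.all (R := fun L _ (v : Option (Option Empty) → L) e3 =>
    ∀ d : L, SysO (v (some none)) (v none) e3 d → Tr φ L (vof (v (some none)) (v none) e3 d)) ?_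
  refine Def.all (R := fun L _ (v : Option (Option (Option Empty)) → L) d =>
    SysO (v (some (some none))) (v (some none)) (v none) d →
      Tr φ L (vof (v (some (some none))) (v (some none)) (v none) d)) ?_
  refine (Def.sysO _ _ _ _).imp ?_
  refine ((Def_Tr φ).relabel (Δ := Option (Option (Option (Option Empty))))
    (vof (some (some (some none))) (some (some none)) (some none) none)).congr fun L _ v => ?_
  have : (fun g => v (vof (some (some (some none))) (some (some none)) (some none) none g)) =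
      vof (v (some (some (some none)))) (v (some (some none))) (v (some none)) (v none) := by
    funext g
    cases g <;> rfl
  rw [this]

/-- the truth of the final sentence in the lattice of clones -/
theorem Sen_iff {A : Type u} [Infinite A] (h3 : ∀ a b : A, ∃ c, c ≠ a ∧ c ≠ b)
    (h2 : ∃ a b : A, a ≠ b) {φ φ' : Fml} (hφ : ∀ (A : Type u) (s : Assignment A),
      Sat φ' s ↔ ∀ t : Assignment A, Sat φ t) :
    Sen φ' (Clone A) ↔ ∀ s : Assignment A, Sat φ s := by
  have key : ∀ σ : Sys A, Tr φ' (Clone A) (vof (gen σ.e1) (gen σ.e2) (gen σ.e3) (cst σ.d)) ↔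
      ∀ s : Assignment A, Sat φ s := by
    intro σ
    let s : Assignment σ.B :=
      { pt := fun _ => σ.dB
        rel := fun n k => {t | cst (σ.tau n t).1 ≤ cst σ.d}
        fam := fun n k => {X | gen (σ.rho (σ.tau n '' X)) ≤ cst σ.d} }
    have hc : σ.Codes (vof (gen σ.e1) (gen σ.e2) (gen σ.e3) (cst σ.d)) s :=
      ⟨rfl, rfl, rfl, rfl, fun _ => rfl, fun _ _ _ => Iff.rfl, fun _ _ _ => Iff.rfl⟩
    rw [σ.Tr_iff h3 h2 φ' _ s hc, hφ]
    obtain ⟨g⟩ := σ.equiv
    exact (ThirdOrderEquiv.of_equiv g φ).symm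
  constructor
  · intro h
    obtain ⟨σ⟩ := exists_Sys A
    exact (key σ).mp (h _ _ _ _ (σ.SysO_of h3 h2))
  · intro h e1 e2 e3 d hs
    obtain ⟨σ, rfl, rfl, rfl, rfl⟩ := Sys.exists_of_SysO h3 h2 hs
    exact (key σ).mpr h

theorem h3_of_infinite (A : Type u) [Infinite A] : ∀ a b : A, ∃ c, c ≠ a ∧ c ≠ b := by
  classical
  intro a b
  obtain ⟨c, hc⟩ := Infinite.exists_notMem_finset ({a, b} : Finset A)
  simp at hc
  exact ⟨c, hc.1, hc.2⟩

theorem h2_of_infinite (A : Type u) [Infinite A] : ∃ a b : A, a ≠ b := exists_pair_ne A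

theorem OEquiv.symm {M N : Type u} [LE M] [LE N] (h : OEquiv M N) : OEquiv N M := by
  let _ := FirstOrder.Language.orderStructure M
  let _ := FirstOrder.Language.orderStructure N
  exact FirstOrder.Language.ElementarilyEquivalent.symm h

/-- the infinite case -/
theorem forward_infinite {A B : Type u} [Infinite A] [Infinite B]
    (h : OEquiv (Clone A) (Clone B)) : ThirdOrderEquiv A B := by
  intro φ
  obtain ⟨φ', hφ⟩ := exists_closure.{u} φ
  rw [← Sen_iff (h3_of_infinite A) (h2_of_infinite A) hφ,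
    ← Sen_iff (h3_of_infinite B) (h2_of_infinite B) hφ]
  exact ⟨fun hA => (Def_Sen φ').transfer h hA, fun hB => (Def_Sen φ').transfer h.symm hB⟩

/-! ### Small sets -/

theorem clone_le_of_subsingleton {A : Type u} [Subsingleton A] (C D : Clone A) : C ≤ D := by
  intro n f _
  have : f = fun x => x 0 := by
    funext x
    exact Subsingleton.elim _ _
  rw [this]
  exact D.proj_mem n 0

theorem not_top_le_bot {A : Type u} {a b : A} (h : a ≠ b) : ¬ top A ≤ bot A := by
  intro hle
  obtain ⟨i, hi⟩ := hle 0 (show (fun _ : Fin 1 → A => a) ∈ (top A).ops 0 from trivial)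
  exact h (congrFun hi (fun _ => b))

theorem subsingleton_transfer {A B : Type u} (h : OEquiv (Clone A) (Clone B)) [Subsingleton A] :
    Subsingleton B := by
  have hD : Def.{u} Empty (fun L _ _ => ∀ x y : L, x ≤ y) := by
    refine Def.all (R := fun L _ v x => ∀ y : L, x ≤ y) ?_
    exact Def.all (R := fun L _ (v : Option Empty → L) y => v none ≤ y) (Def.le _ _)
  have := hD.transfer h (fun x y => clone_le_of_subsingleton x y)
  refine ⟨fun a b => ?_⟩
  by_contra hab
  exact not_top_le_bot hab (this _ _)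

/-- the number of points -/
theorem points_iff {A : Type u} (h3 : ∀ a b : A, ∃ c, c ≠ a ∧ c ≠ b) (h2 : ∃ a b : A, a ≠ b)
    (m : ℕ) : (∃ x : Fin m → Clone A, (∀ i, Con (x i)) ∧ ∀ i j, i ≠ j → ¬ x i ≤ x j) ↔
      Nonempty (Fin m ↪ A) := by
  constructor
  · rintro ⟨x, hx, hne⟩
    choose a ha using fun i => (Con_iff h3 h2 (x i)).mp (hx i)
    refine ⟨⟨a, fun i j hij => ?_⟩⟩
    by_contra hne'
    apply hne i j hne'
    rw [ha i, ha j, hij]
    exact le_rfl'
  · rintro ⟨f⟩
    refine ⟨fun i => cst (f i), fun i => Con_cst h3 h2 _, fun i j hij hle => ?_⟩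
    exact hij (f.injective (cst_inj h3 hle))

theorem four_of_h3 {A : Type u} (h3 : ∀ a b : A, ∃ c, c ≠ a ∧ c ≠ b) (h2 : ∃ a b : A, a ≠ b) :
    ∃ x : Fin 4 → Clone A, (∀ i, Wd (x i)) ∧ ∀ i j, i ≠ j → ¬ x i ≤ x j := by
  obtain ⟨a, b, hab⟩ := h2
  obtain ⟨c, hca, hcb⟩ := h3 a b
  have hE : ∀ r, ¬ gen (E a b) ≤ cst r := by
    intro r hle
    obtain ⟨k, hk⟩ := un_gen_iff.mp (gen_le.mp hle)
    cases k with
    | zero => exact E_ne_id h3 a b hk
    | succ k =>
      rw [Function.iterate_succ'] at hk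
      have h1 : E a b a = r := congrFun hk a
      have h4 : E a b c = r := congrFun hk c
      rw [E_self] at h1
      rw [E_of_ne hca] at h4
      exact hab (h1.trans h4.symm)
  have hE' : ∀ r, ¬ cst r ≤ gen (E a b) := by
    intro r hle
    rcases (un_gen_idem (E_idem a b)).mp (gen_le.mp hle) with h | h
    · exact const_ne_id h3 r h
    · have h1 : r = E a b a := congrFun h a
      have h4 : r = E a b c := congrFun h c
      rw [E_self] at h1
      rw [E_of_ne hca] at h4
      exact hab (h1.symm.trans h4)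
  have hc : ∀ p q : A, p ≠ q → ¬ cst p ≤ cst q := fun p q hpq hle => hpq (cst_inj h3 hle)
  refine ⟨![cst a, cst b, cst c, gen (E a b)], ?_, ?_⟩
  · intro i
    fin_cases i
    · exact Wd_cst h3 a
    · exact Wd_cst h3 b
    · exact Wd_cst h3 c
    · exact Wd_E h3 hab
  · intro i j hij
    fin_cases i <;> fin_cases j
    · exact absurd rfl hij
    · exact hc a b hab
    · exact hc a c hca.symm
    · exact hE' a
    · exact hc b a hab.symm
    · exact absurd rfl hij
    · exact hc b c hcb.symm
    · exact hE' b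
    · exact hc c a hca
    · exact hc c b hcb
    · exact absurd rfl hij
    · exact hE' c
    · exact hE a
    · exact hE b
    · exact hE c
    · exact absurd rfl hij

theorem not_four_of_two {A : Type u} {a b : A} (hab : a ≠ b) (h : ∀ c, c = a ∨ c = b) :
    ¬ ∃ x : Fin 4 → Clone A, (∀ i, Wd (x i)) ∧ ∀ i j, i ≠ j → ¬ x i ≤ x j := by
  rintro ⟨x, hx, hne⟩
  choose γ hγ1 hγ2 using fun i => exists_of_Wd ⟨a, b, hab⟩ (hx i)
  have hinj : Function.Injective γ := by
    intro i j hij
    by_contra hne'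
    apply hne i j hne'
    rw [hγ2 i, hγ2 j, hij]
    exact le_rfl'
  classical
  -- the functions are determined by the values at `a` and `b`
  have hdet : Function.Injective (fun i : Fin 4 => ((decide (γ i a = a) : Bool), (decide (γ i b = b) : Bool))) := by
    intro i j hij
    apply hinj
    simp only [Prod.mk.injEq, decide_eq_decide] at hij
    funext c
    have aux : ∀ p q r : A, (p = r ↔ q = r) → (r = a ∨ r = b) → p = q := by
      intro p q r h1 h4
      rcases h p with rfl | rfl <;> rcases h q with rfl | rfl <;> rcases h4 with rfl | rfl <;> simp_all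
    rcases h c with rfl | rfl
    · exact aux _ _ _ hij.1 (Or.inl rfl)
    · exact aux _ _ _ hij.2 (Or.inr rfl)
  have hsurj := (Fintype.bijective_iff_injective_and_card _).mpr ⟨hdet, by simp⟩
  obtain ⟨i, hi⟩ := hsurj.2 (true, true)
  simp only [Prod.mk.injEq, decide_eq_true_eq] at hi
  apply hγ1 i
  funext c
  rcases h c with rfl | rfl
  · exact hi.1
  · exact hi.2

theorem equiv_of_embeddings {A B : Type u} [Finite A]
    (h : ∀ m, Nonempty (Fin m ↪ A) ↔ Nonempty (Fin m ↪ B)) : Nonempty (A ≃ B) := by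
  have := Fintype.ofFinite A
  have hA : ¬ Nonempty (Fin (Fintype.card A + 1) ↪ A) := by
    rintro ⟨f⟩
    have := Fintype.card_le_of_embedding f
    simp at this
  have hB : ¬ Infinite B := by
    intro hB
    apply hA
    rw [h]
    exact ⟨(Fin.valEmbedding).trans (Infinite.natEmbedding B)⟩
  rw [not_infinite_iff_finite] at hB
  have := Fintype.ofFinite B
  have h1 : Fintype.card A ≤ Fintype.card B := by
    obtain ⟨f⟩ := (h (Fintype.card A)).mp ⟨(Fintype.equivFin A).symm.toEmbedding⟩
    simpa using Fintype.card_le_of_embedding f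
  have h2 : Fintype.card B ≤ Fintype.card A := by
    obtain ⟨f⟩ := (h (Fintype.card B)).mpr ⟨(Fintype.equivFin B).symm.toEmbedding⟩
    simpa using Fintype.card_le_of_embedding f
  exact ⟨Fintype.equivOfCardEq (le_antisymm h1 h2)⟩

/-- the forward direction -/
theorem forward {A B : Type u} (h : OEquiv (Clone A) (Clone B)) :
    (Subsingleton A ∧ Subsingleton B) ∨ ThirdOrderEquiv A B := by
  by_cases hA : Subsingleton A
  · exact Or.inl ⟨hA, subsingleton_transfer h⟩
  by_cases hB : Subsingleton B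
  · exact absurd (subsingleton_transfer h.symm) hA
  right
  have h2A : ∃ a b : A, a ≠ b := by
    rw [not_subsingleton_iff_nontrivial] at hA
    exact exists_pair_ne A
  have h2B : ∃ a b : B, a ≠ b := by
    rw [not_subsingleton_iff_nontrivial] at hB
    exact exists_pair_ne B
  have hfour := Def.card (P := fun L _ x => Wd x) (fun a => Def.wd a) 4
  have two : ∀ {A : Type u}, (∃ a b : A, a ≠ b) → (¬ ∀ a b : A, ∃ c, c ≠ a ∧ c ≠ b) →
      ∃ a b : A, a ≠ b ∧ ∀ c, c = a ∨ c = b := by
    intro A h2 h3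
    push Not at h3
    obtain ⟨a, b, hab⟩ := h3
    by_cases h : a = b
    · subst h
      obtain ⟨p, q, hpq⟩ := h2
      exfalso
      have h1 : ∀ c, c = a := by
        intro c
        by_contra hc
        exact hc (hab c hc)
      exact hpq ((h1 p).trans (h1 q).symm)
    · refine ⟨a, b, h, fun c => ?_⟩
      by_cases hc : c = a
      · exact Or.inl hc
      · exact Or.inr (hab c hc)
  by_cases h3A : ∀ a b : A, ∃ c, c ≠ a ∧ c ≠ b
  · by_cases h3B : ∀ a b : B, ∃ c, c ≠ a ∧ c ≠ b
    · have hcard : ∀ m, Nonempty (Fin m ↪ A) ↔ Nonempty (Fin m ↪ B) := by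
        intro m
        have hD := Def.card (P := fun L _ x => Con x) (fun a => Def.con a) m
        rw [← points_iff h3A h2A, ← points_iff h3B h2B]
        exact ⟨fun hh => hD.transfer h hh, fun hh => hD.transfer h.symm hh⟩
      rcases finite_or_infinite A with hfA | hiA
      · obtain ⟨g⟩ := equiv_of_embeddings hcard
        exact ThirdOrderEquiv.of_equiv g
      · rcases finite_or_infinite B with hfB | hiB
        · obtain ⟨g⟩ := equiv_of_embeddings (fun m => (hcard m).symm)
          exact ThirdOrderEquiv.of_equiv g.symm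
        · exact forward_infinite h
    · obtain ⟨a, b, hab, hall⟩ := two h2B h3B
      exact absurd (hfour.transfer h (four_of_h3 h3A h2A)) (not_four_of_two hab hall)
  · obtain ⟨a, b, hab, hall⟩ := two h2A h3A
    by_cases h3B : ∀ a b : B, ∃ c, c ≠ a ∧ c ≠ b
    · exact absurd (hfour.transfer h.symm (four_of_h3 h3B h2B)) (not_four_of_two hab hall)
    · obtain ⟨a', b', hab', hall'⟩ := two h2B h3B
      classical
      let f : A → B := fun x => if x = a then a' else b'
      have hf : Function.Bijective f := by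
        constructor
        · intro x y hxy
          rcases hall x with rfl | rfl <;> rcases hall y with rfl | rfl
          · rfl
          · simp only [f, if_pos rfl, if_neg hab.symm] at hxy
            exact absurd hxy hab'
          · simp only [f, if_pos rfl, if_neg hab.symm] at hxy
            exact absurd hxy.symm hab'
          · rfl
        · intro y
          rcases hall' y with rfl | rfl
          · exact ⟨a, if_pos rfl⟩
          · exact ⟨b, if_neg hab.symm⟩
      exact ThirdOrderEquiv.of_equiv (Equiv.ofBijective f hf)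

end Pool.Agent.W_MP_2972c3_al
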