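import Pool.Agent.W_MP_2972c3_al.Lists
import Pool.Agent.W_MP_2972c3_al.Forward

set_option autoImplicit false
set_option linter.unusedVariables false

/-! ### From third-order equivalence to elementary equivalence of the clone lattices -/

namespace Pool.Agent.W_MP_2972c3_al

universe u

open FirstOrder FirstOrder.Language

theorem order_term {n : ℕ} (t : Language.order.Term (Empty ⊕ Fin n)) :
    ∃ i, t = Term.var (Sum.inr i) := by
  cases t with
  | var x =>
    cases x with
    | inl x => exact x.elim
    | inr i => exact ⟨i, rfl⟩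
  | func f ts => exact (isEmptyElim f)

/-- Realization of a bounded formula of the language of orders. -/
def Rb {L : Type u} [LE L] {n : ℕ} (ψ : Language.order.BoundedFormula Empty n) (v : Fin n → L) : Prop :=
  @BoundedFormula.Realize Language.order L (Language.orderStructure L) Empty n ψ Empty.elim v

theorem Rb_all {L : Type u} [LE L] {n : ℕ} (ψ : Language.order.BoundedFormula Empty (n + 1))
    (v : Fin n → L) : Rb ψ.all v ↔ ∀ a : L, Rb ψ (Fin.snoc v a) := Iff.rfl

theorem Rb_imp {L : Type u} [LE L] {n : ℕ} (ψ θ : Language.order.BoundedFormula Empty n)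
    (v : Fin n → L) : Rb (ψ.imp θ) v ↔ (Rb ψ v → Rb θ v) := Iff.rfl

theorem Rb_eq {L : Type u} [LE L] {n : ℕ} (i j : Fin n) (v : Fin n → L) :
    Rb (.equal (Term.var (Sum.inr i)) (Term.var (Sum.inr j))) v ↔ v i = v j := Iff.rfl

theorem Rb_le {L : Type u} [LE L] {n : ℕ} (i j : Fin n) (v : Fin n → L)
    (ts : Fin 2 → Language.order.Term (Empty ⊕ Fin n)) (h0 : ts 0 = Term.var (Sum.inr i))
    (h1 : ts 1 = Term.var (Sum.inr j)) : Rb (.rel orderRel.le ts) v ↔ v i ≤ v j := by
  let _ := Language.orderStructure L
  show (ts 0).realize (Sum.elim Empty.elim v) ≤ (ts 1).realize (Sum.elim Empty.elim v) ↔ _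
  rw [h0, h1]
  exact Iff.rfl

/-- translation of formulas of the language of orders -/
theorem translate_order {n : ℕ} (ψ : Language.order.BoundedFormula Empty n) :
    ∃ R : Pred.{u} Unit Bool (Fin n), TDef Unit Bool (Fin n) R ∧
      ∀ (A : Type u) (c : List A ≃ A) (H Tl : A → A → Prop) (e : A), Good H Tl e c →
        ∀ C : Fin n → Clone A,
        (R A (fun _ => e) (fun b => cond b H Tl) (fun i => Fam c (C i)) ↔ Rb ψ C) := by
  induction ψ with
  | falsum => exact ⟨_, TDef.fls, fun A c H Tl e g C => Iff.rfl⟩
  | @equal n t₁ t₂ =>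
    obtain ⟨i, rfl⟩ := order_term t₁
    obtain ⟨j, rfl⟩ := order_term t₂
    refine ⟨fun A v r f => (∀ X, f i X → f j X) ∧ (∀ X, f j X → f i X), ?_, ?_⟩
    · repeat
        first
        | exact TDef.eq _ _
        | exact TDef.rel _ _ _
        | exact TDef.mem _ _
        | exact TDef.fls
        | apply TDef.not
        | apply TDef.and
        | apply TDef.or
        | apply TDef.iff
        | apply TDef.imp
        | apply TDef.allP
        | apply TDef.exP
        | apply TDef.allQ
        | apply TDef.exQ
        | apply TDef.allF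
        | apply TDef.exF
    · intro A c H Tl e g C
      rw [Rb_eq]
      show ((∀ X, Fam c (C i) X → Fam c (C j) X) ∧ (∀ X, Fam c (C j) X → Fam c (C i) X)) ↔ _
      rw [← le_iff_Fam, ← le_iff_Fam]
      exact Sys.le_le_iff
  | @rel n l R ts =>
    cases R
    obtain ⟨i, hi⟩ := order_term (ts 0)
    obtain ⟨j, hj⟩ := order_term (ts 1)
    refine ⟨fun A v r f => (∀ X, f i X → f j X), ?_, ?_⟩
    · repeat
        first
        | exact TDef.eq _ _
        | exact TDef.rel _ _ _
        | exact TDef.mem _ _
        | exact TDef.fls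
        | apply TDef.not
        | apply TDef.and
        | apply TDef.or
        | apply TDef.iff
        | apply TDef.imp
        | apply TDef.allP
        | apply TDef.exP
        | apply TDef.allQ
        | apply TDef.exQ
        | apply TDef.allF
        | apply TDef.exF
    · intro A c H Tl e g C
      refine Iff.trans ?_ (Rb_le i j C ts hi hj).symm
      exact (le_iff_Fam c _ _).symm
  | imp ψ θ ih ih' =>
    obtain ⟨R, hR, hR'⟩ := ih
    obtain ⟨S, hS, hS'⟩ := ih'
    refine ⟨_, hR.imp hS, fun A c H Tl e g C => ?_⟩
    rw [Rb_imp]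
    exact imp_congr (hR' A c H Tl e g C) (hS' A c H Tl e g C)
  | @all n ψ ih =>
    obtain ⟨R, hR, hR'⟩ := ih
    refine ⟨fun A v r f => ∀ 𝒳, IsClone (r true) (r false) (v ()) 𝒳 →
      R A v r (Fin.snoc (α := fun _ => (A → A → Prop) → Prop) f 𝒳), ?_, ?_⟩
    · apply TDef.allF
      refine (TDef.isClone _ _ _ _).imp ?_
      refine (hR.relabel (P' := Unit) (Q' := Bool) (F' := Option (Fin n)) id id
        (Fin.snoc (α := fun _ => Option (Fin n)) (fun i => some i) none)).congr fun A v r f => ?_
      have : (fun i => f (Fin.snoc (α := fun _ => Option (Fin n)) (fun i => some i) none i)) =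
          Fin.snoc (α := fun _ => (A → A → Prop) → Prop) (fun i => f (some i)) (f none) := by
        funext i
        refine Fin.lastCases ?_ (fun i => ?_) i <;> simp
      rw [this]
      exact Iff.rfl
    · intro A c H Tl e g C
      rw [Rb_all]
      have key : ∀ D : Clone A, Fin.snoc (α := fun _ => (A → A → Prop) → Prop)
          (fun i => Fam c (C i)) (Fam c D) = fun i => Fam c (Fin.snoc (α := fun _ => Clone A) C D i) := by
        intro D
        funext i
        refine Fin.lastCases ?_ (fun i => ?_) i <;> simp
      constructor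
      · intro h D
        have := h (Fam c D) (isClone_Fam g D)
        rw [key, hR' A c H Tl e g] at this
        exact this
      · intro h 𝒳 h𝒳
        obtain ⟨D, rfl⟩ := exists_of_isClone g h𝒳
        rw [key, hR' A c H Tl e g]
        exact h D

/-- The infinite case. -/
theorem backward_infinite {A B : Type u} [Infinite A] [Infinite B] (h : ThirdOrderEquiv A B) :
    OEquiv (Clone A) (Clone B) := by
  refine (@elementarilyEquivalent_iff Language.order (Clone A) (Clone B)
    (Language.orderStructure (Clone A)) (Language.orderStructure (Clone B))).mpr ?_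
  intro ψ
  obtain ⟨R, hR, hR'⟩ := translate_order.{u} ψ
  let S : Pred.{u} Empty Empty Empty := fun A _ _ _ => ∀ H Tl : A → A → Prop, ∀ e : A,
    Valid H Tl e → R A (fun _ => e) (fun b => cond b H Tl) Fin.elim0
  have hS : TDef Empty Empty Empty S := by
    refine TDef.allQ (R := fun A _ _ _ H => ∀ Tl : A → A → Prop, ∀ e : A,
      Valid H Tl e → R A (fun _ => e) (fun b => cond b H Tl) Fin.elim0) ?_
    refine TDef.allQ (R := fun A _ (r : Option Empty → A → A → Prop) _ Tl => ∀ e : A,
      Valid (r none) Tl e → R A (fun _ => e) (fun b => cond b (r none) Tl) Fin.elim0) ?_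
    refine TDef.allP (R := fun A _ (r : Option (Option Empty) → A → A → Prop) _ e =>
      Valid (r (some none)) (r none) e →
        R A (fun _ => e) (fun b => cond b (r (some none)) (r none)) Fin.elim0) ?_
    refine (TDef.valid _ _ _).imp ?_
    refine (hR.relabel (P' := Option Empty) (Q' := Option (Option Empty)) (F' := Empty)
      (fun _ => none) (fun b => cond b (some none) none) Fin.elim0).congr fun A v r f => ?_
    have h1 : (fun i : Bool => r (cond i (some none) none)) =
        fun b => cond b (r (some none)) (r none) := by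
      funext b; cases b <;> rfl
    have h2 : (fun i : Fin 0 => f (Fin.elim0 i)) = Fin.elim0 := by
      funext i; exact i.elim0
    rw [h1, h2]
  have key : ∀ (A : Type u) [Infinite A], S A Empty.elim Empty.elim Empty.elim ↔
      @Sentence.Realize Language.order (Clone A) (Language.orderStructure (Clone A)) ψ := by
    intro A _
    have hrb : @Sentence.Realize Language.order (Clone A) (Language.orderStructure (Clone A)) ψ ↔
        Rb (L := Clone A) ψ Fin.elim0 := by
      unfold Sentence.Realize Formula.Realize Rb
      have e1 : (default : Empty → Clone A) = Empty.elim := Subsingleton.elim _ _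
      have e2 : (default : Fin 0 → Clone A) = Fin.elim0 := Subsingleton.elim _ _
      rw [e1, e2]
    rw [hrb]
    have e3 : ∀ c : List A ≃ A, (fun i : Fin 0 => Fam c (Fin.elim0 i)) = Fin.elim0 := by
      intro c; funext i; exact i.elim0
    constructor
    · intro hA
      have hc : Nonempty (List A ≃ A) := by
        rw [← Cardinal.eq]
        simp
      obtain ⟨c⟩ := hc
      obtain ⟨H, Tl, e, g⟩ := exists_Good c
      have := hA H Tl e g.valid
      rw [← hR' A c H Tl e g, e3]
      exact this
    · intro hA H Tl e hv
      obtain ⟨c, g⟩ := hv.exists_good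
      rw [← hR' A c H Tl e g, e3] at hA
      exact hA
  have hba : ThirdOrderEquiv B A := fun φ => (h φ).symm
  constructor
  · intro hA
    exact (key B).mp (hS.transfer h ((key A).mpr hA))
  · intro hB
    exact (key A).mp (hS.transfer hba ((key B).mpr hB))

/-! ### Isomorphic structures -/

theorem OEquiv.of_equiv {M N : Type u} [LE M] [LE N] (g : M ≃ N) (hg : ∀ x y, x ≤ y ↔ g x ≤ g y) :
    OEquiv M N := by
  let _ := Language.orderStructure M
  let _ := Language.orderStructure N
  let e : M ≃[Language.order] N :=
    { g with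
      map_fun' := fun f => isEmptyElim f
      map_rel' := by
        intro n r x
        cases r
        exact (hg (x 0) (x 1)).symm }
  exact StrongHomClass.elementarilyEquivalent e

/-- transport of a clone along a bijection -/
def cmap {A B : Type u} (g : A ≃ B) (C : Clone A) : Clone B where
  ops n := {f | (fun x => g.symm (f (fun i => g (x i)))) ∈ C.ops n}
  proj_mem n i := by
    show (fun x : Fin (n + 1) → A => g.symm (g (x i))) ∈ C.ops n
    simp only [Equiv.symm_apply_apply]
    exact C.proj_mem n i
  comp_mem m n f δ hf hδ := by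
    have := C.comp_mem m n _ (fun i x => g.symm (δ i (fun j => g (x j)))) hf hδ
    simpa using this

theorem cmap_le {A B : Type u} (g : A ≃ B) {C D : Clone A} (h : C ≤ D) : cmap g C ≤ cmap g D :=
  fun n f hf => h n hf

theorem cmap_cmap {A B : Type u} (g : A ≃ B) (C : Clone A) : cmap g.symm (cmap g C) = C := by
  refine Clone.ext' fun n => ?_
  ext f
  show (fun x => g.symm (g.symm.symm (f fun i => g.symm (g (x i))))) ∈ C.ops n ↔ f ∈ C.ops n
  simp only [Equiv.symm_apply_apply, Equiv.symm_symm]

theorem OEquiv_of_equiv {A B : Type u} (g : A ≃ B) : OEquiv (Clone A) (Clone B) := by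
  refine OEquiv.of_equiv ⟨cmap g, cmap g.symm, fun C => cmap_cmap g C, fun D => ?_⟩ ?_
  · have := cmap_cmap g.symm D
    rwa [Equiv.symm_symm] at this
  · intro C D
    constructor
    · intro h; exact cmap_le g h
    · intro h
      have := cmap_le g.symm h
      change cmap g.symm (cmap g C) ≤ cmap g.symm (cmap g D) at this
      rwa [cmap_cmap, cmap_cmap] at this

theorem OEquiv_of_subsingleton (A B : Type u) [Subsingleton A] [Subsingleton B] :
    OEquiv (Clone A) (Clone B) := by
  refine OEquiv.of_equiv ⟨fun _ => Clone.bot B, fun _ => Clone.bot A, fun C => ?_, fun D => ?_⟩ ?_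
  · exact Clone.le_antisymm' (clone_le_of_subsingleton _ _) (clone_le_of_subsingleton _ _)
  · exact Clone.le_antisymm' (clone_le_of_subsingleton _ _) (clone_le_of_subsingleton _ _)
  · intro C D
    exact ⟨fun _ => clone_le_of_subsingleton _ _, fun _ => clone_le_of_subsingleton _ _⟩

/-! ### Finite sets in third-order logic -/

/-- there are at least `m` points outside `r` -/
def NP : ℕ → ∀ (A : Type u), (A → A → Prop) → Prop
  | 0, _, _ => True
  | (m + 1), A, r => ∃ x : A, ¬ r x x ∧ ∃ r' : A → A → Prop,
      (∀ y, r' y y ↔ (r y y ∨ y = x)) ∧ NP m A r'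

theorem TDef.tru {P Q F : Type} : TDef.{u} P Q F (fun A v r f => True) :=
  TDef.fls.not.congr fun A v r f => by simp

theorem TDef.np (m : ℕ) : ∀ {P Q F : Type} [Finite P] [Finite Q] [Finite F] (k : Q),
    TDef.{u} P Q F (fun A v r f => NP m A (r k)) := by
  induction m with
  | zero => intro P Q F _ _ _ k; exact TDef.tru
  | succ m ih =>
    intro P Q F _ _ _ k
    refine TDef.exP (R := fun A v r f x => ¬ r k x x ∧ ∃ r' : A → A → Prop,
      (∀ y, r' y y ↔ (r k y y ∨ y = x)) ∧ NP m A r') ?_
    refine (TDef.rel _ _ _).not.and (TDef.exQ (TDef.and ?_ (ih _)))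
    repeat
      first
      | exact TDef.eq _ _
      | exact TDef.rel _ _ _
      | exact TDef.mem _ _
      | exact TDef.fls
      | apply TDef.not
      | apply TDef.and
      | apply TDef.or
      | apply TDef.iff
      | apply TDef.imp
      | apply TDef.allP
      | apply TDef.exP
      | apply TDef.allQ
      | apply TDef.exQ
      | apply TDef.allF
      | apply TDef.exF

theorem NP_iff (m : ℕ) (A : Type u) (r : A → A → Prop) :
    NP m A r ↔ ∃ s : Finset A, s.card = m ∧ ∀ y ∈ s, ¬ r y y := by
  classical
  induction m generalizing r with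
  | zero =>
    constructor
    · intro _; exact ⟨∅, by simp⟩
    · intro _; trivial
  | succ m ih =>
    constructor
    · rintro ⟨x, hx, r', hr', h⟩
      obtain ⟨s, hs, hs'⟩ := (ih r').mp h
      have hxs : x ∉ s := fun hxs => hs' x hxs ((hr' x).mpr (Or.inr rfl))
      refine ⟨insert x s, by simp [hxs, hs], fun y hy => ?_⟩
      rw [Finset.mem_insert] at hy
      rcases hy with rfl | hy
      · exact hx
      · exact fun h1 => hs' y hy ((hr' y).mpr (Or.inl h1))
    · rintro ⟨s, hs, hs'⟩
      have hne : s.Nonempty := by
        rw [← Finset.card_pos, hs]; omega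
      obtain ⟨x, hx⟩ := hne
      refine ⟨x, hs' x hx, fun y y' => r y y' ∨ y = x, fun y => Iff.rfl, (ih _).mpr
        ⟨s.erase x, by rw [Finset.card_erase_of_mem hx, hs]; rfl, fun y hy => ?_⟩⟩
      rw [Finset.mem_erase] at hy
      rintro (h1 | h1)
      · exact hs' y hy.2 h1
      · exact hy.1 h1

theorem embeddings_of_thirdOrder {A B : Type u} [Nonempty A] [Nonempty B] (h : ThirdOrderEquiv A B)
    (m : ℕ) (hA : Nonempty (Fin m ↪ A)) : Nonempty (Fin m ↪ B) := by
  have hT : TDef.{u} Empty Empty Empty (fun A _ _ _ => ∃ r : A → A → Prop, (∀ y, ¬ r y y) ∧ NP m A r) := by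
    refine TDef.exQ (R := fun A _ _ _ r => (∀ y, ¬ r y y) ∧ NP m A r) (TDef.and ?_ (TDef.np m _))
    repeat
      first
      | exact TDef.eq _ _
      | exact TDef.rel _ _ _
      | exact TDef.mem _ _
      | exact TDef.fls
      | apply TDef.not
      | apply TDef.and
      | apply TDef.or
      | apply TDef.iff
      | apply TDef.imp
      | apply TDef.allP
      | apply TDef.exP
      | apply TDef.allQ
      | apply TDef.exQ
      | apply TDef.allF
      | apply TDef.exF
  obtain ⟨g⟩ := hA
  have h1 : ∃ r : A → A → Prop, (∀ y, ¬ r y y) ∧ NP m A r := by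
    refine ⟨fun _ _ => False, fun _ h => h, (NP_iff m A _).mpr
      ⟨Finset.univ.map g, by simp, fun _ _ h => h⟩⟩
  obtain ⟨r, -, hr⟩ := hT.transfer h h1
  obtain ⟨s, hs, -⟩ := (NP_iff m B r).mp hr
  have e : Fin m ≃ s := (finCongr hs.symm).trans s.equivFin.symm
  exact ⟨e.toEmbedding.trans (Function.Embedding.subtype _)⟩

theorem equiv_of_thirdOrder {A B : Type u} [Finite A] (h : ThirdOrderEquiv A B) :
    Nonempty (A ≃ B) := by
  have hba : ThirdOrderEquiv B A := fun φ => (h φ).symm
  have empty : ∀ {A B : Type u} [IsEmpty A], ThirdOrderEquiv A B → IsEmpty B := by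
    intro A B _ h
    by_contra hB
    rw [not_isEmpty_iff] at hB
    obtain ⟨b⟩ := hB
    have := (h .falsum).mp (fun s => (isEmptyElim (s.pt 0) : False))
    exact this ⟨fun _ => b, fun _ _ => ∅, fun _ _ => ∅⟩
  rcases isEmpty_or_nonempty A with hA | hA
  · have := empty h
    exact ⟨Equiv.equivOfIsEmpty A B⟩
  · rcases isEmpty_or_nonempty B with hB | hB
    · have := empty hba
      exact ⟨Equiv.equivOfIsEmpty A B⟩
    · exact equiv_of_embeddings fun m => ⟨embeddings_of_thirdOrder h m, embeddings_of_thirdOrder hba m⟩

theorem backward {A B : Type u} (h : (Subsingleton A ∧ Subsingleton B) ∨ ThirdOrderEquiv A B) :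
    OEquiv (Clone A) (Clone B) := by
  rcases h with ⟨_, _⟩ | h
  · exact OEquiv_of_subsingleton A B
  · have hba : ThirdOrderEquiv B A := fun φ => (h φ).symm
    rcases finite_or_infinite A with _ | _
    · obtain ⟨g⟩ := equiv_of_thirdOrder h
      exact OEquiv_of_equiv g
    · rcases finite_or_infinite B with _ | _
      · obtain ⟨g⟩ := equiv_of_thirdOrder hba
        exact OEquiv_of_equiv g.symm
      · exact backward_infinite h

theorem main (A B : Type u) : OEquiv (Clone A) (Clone B) ↔
    (Subsingleton A ∧ Subsingleton B) ∨ ThirdOrderEquiv A B := ⟨forward, backward⟩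

end Pool.Agent.W_MP_2972c3_al
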