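import Pool.Agent.W_MP_2972c3_al.Defs

set_option autoImplicit false

namespace Pool.Agent.W_MP_2972c3_al

universe u

/-! ### Predicates on ordered sets -/

section Order

variable {L : Type u} [LE L]

/-- least element -/
def Bt (x : L) : Prop := ∀ y : L, x ≤ y

/-- disjoint -/
def Dj (x y : L) : Prop := ∀ w : L, w ≤ x → w ≤ y → Bt w

/-- nonzero with a pseudocomplement -/
def PCd (u : L) : Prop := ¬ Bt u ∧ ∃ z : L, ∀ y : L, (Dj y u ↔ y ≤ z)

/-- atom -/
def At (x : L) : Prop := ¬ Bt x ∧ ∀ y : L, y ≤ x → (Bt y ∨ x ≤ y)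

/-- atoms below all elements satisfying `PCd` -/
def Wd (x : L) : Prop := At x ∧ ∀ u : L, PCd u → x ≤ u

/-- `v ≤ x ∨ y` -/
def UB (v x y : L) : Prop := ∀ w : L, x ≤ w → y ≤ w → v ≤ w

/-- the interval `[0, x ∨ y]` is atomistic -/
def Atomistic (x y : L) : Prop :=
  ∀ v : L, UB v x y → ∀ v' : L, (∀ t : L, At t → t ≤ v → t ≤ v') → v ≤ v'

/-- the predicate that will define the clones of the constants -/
def Con (x : L) : Prop := Wd x ∧ ∀ y : L, Wd y → Atomistic x y

end Order

namespace Clone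

variable {A : Type u}

theorem le_def {C D : Clone A} : C ≤ D ↔ ∀ n, C.ops n ⊆ D.ops n := Iff.rfl

theorem le_rfl' {C : Clone A} : C ≤ C := fun _ _ h => h

theorem le_trans' {C D E : Clone A} (h : C ≤ D) (h' : D ≤ E) : C ≤ E := fun n _ hx => h' n (h n hx)

theorem ext' {C D : Clone A} (h : ∀ n, C.ops n = D.ops n) : C = D := by
  cases C; cases D
  congr
  funext n
  exact h n

theorem le_antisymm' {C D : Clone A} (h : C ≤ D) (h' : D ≤ C) : C = D :=
  ext' fun n => Set.Subset.antisymm (h n) (h' n)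

/-- The unary function `γ` belongs to the clone `C`. -/
def un (C : Clone A) (γ : A → A) : Prop := (fun x : Fin 1 → A => γ (x 0)) ∈ C.ops 0

theorem un_mono {C D : Clone A} (h : C ≤ D) {γ : A → A} (hγ : C.un γ) : D.un γ := h 0 hγ

theorem un_lift {C : Clone A} {γ : A → A} (h : C.un γ) {n : ℕ} {f : (Fin (n + 1) → A) → A}
    (hf : f ∈ C.ops n) : (fun x => γ (f x)) ∈ C.ops n :=
  C.comp_mem 0 n _ (fun _ => f) h (fun _ => hf)

theorem un_proj {C : Clone A} {γ : A → A} (h : C.un γ) {n : ℕ} (i : Fin (n + 1)) :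
    (fun x => γ (x i)) ∈ C.ops n := un_lift h (C.proj_mem n i)

theorem un_id (C : Clone A) : C.un id := C.proj_mem 0 0

theorem un_comp {C : Clone A} {γ δ : A → A} (h : C.un γ) (h' : C.un δ) : C.un (fun a => γ (δ a)) :=
  un_lift h h'

theorem un_iter {C : Clone A} {γ : A → A} (h : C.un γ) (k : ℕ) : C.un (γ^[k]) := by
  induction k with
  | zero => exact un_id C
  | succ k ih =>
    rw [Function.iterate_succ']
    exact (un_comp h ih : C.un (fun a => γ (γ^[k] a)))

/-- the diagonal of an operation -/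
theorem un_diag {C : Clone A} {n : ℕ} {f : (Fin (n + 1) → A) → A} (hf : f ∈ C.ops n) :
    C.un (fun a => f (fun _ => a)) :=
  C.comp_mem n 0 f (fun _ x => x 0) hf (fun _ => C.proj_mem 0 0)

/-! ### Special clones -/

/-- the clone of all operations -/
def top (A : Type u) : Clone A where
  ops _ := Set.univ
  proj_mem _ _ := trivial
  comp_mem _ _ _ _ _ _ := trivial

theorem le_top' (C : Clone A) : C ≤ top A := fun _ _ _ => trivial

/-- the clone of the projections -/
def bot (A : Type u) : Clone A where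
  ops n := {f | ∃ i, f = fun x => x i}
  proj_mem _ i := ⟨i, rfl⟩
  comp_mem m n f g := by
    rintro ⟨i, rfl⟩ hg
    exact hg i

theorem bot_le' (C : Clone A) : bot A ≤ C := by
  rintro n f ⟨i, rfl⟩
  exact C.proj_mem n i

theorem Bt_iff {C : Clone A} : Bt C ↔ C ≤ bot A := ⟨fun h => h _, fun h D => le_trans' h (bot_le' D)⟩

theorem Bt_bot : Bt (bot A) := fun D => bot_le' D

/-- the clone of the idempotent operations -/
def idem (A : Type u) : Clone A where
  ops n := {f | ∀ a, f (fun _ => a) = a}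
  proj_mem _ _ _ := rfl
  comp_mem m n f g hf hg a := by
    have h1 : (fun i => g i (fun _ => a)) = fun _ : Fin (m + 1) => a := by
      funext i
      exact hg i a
    show f (fun i => g i (fun _ => a)) = a
    rw [h1]
    exact hf a

/-- the clone of the essentially unary operations -/
def unary (A : Type u) : Clone A where
  ops n := {f | ∃ (i : Fin (n + 1)) (γ : A → A), f = fun x => γ (x i)}
  proj_mem n i := ⟨i, id, rfl⟩
  comp_mem m n f g := by
    rintro ⟨i, γ, rfl⟩ hg
    obtain ⟨j, δ, hj⟩ := hg i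
    refine ⟨j, fun a => γ (δ a), ?_⟩
    funext x
    show γ (g i x) = _
    rw [hj]

/-- the clone of the operations preserving the set `S` -/
def pol (S : Set A) : Clone A where
  ops _ := {f | ∀ x, (∀ i, x i ∈ S) → f x ∈ S}
  proj_mem _ i _ hx := hx i
  comp_mem _ _ _ _ hf hg x hx := hf _ fun i => hg i x hx

/-- the clone generated by the unary function `γ` -/
def gen (γ : A → A) : Clone A where
  ops n := {f | ∃ (i : Fin (n + 1)) (k : ℕ), f = fun x => γ^[k] (x i)}
  proj_mem n i := ⟨i, 0, rfl⟩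
  comp_mem m n f g := by
    rintro ⟨i, k, rfl⟩ hg
    obtain ⟨j, l, hj⟩ := hg i
    refine ⟨j, k + l, ?_⟩
    funext x
    show γ^[k] (g i x) = _
    rw [hj, Function.iterate_add_apply]

theorem gen_le {γ : A → A} {C : Clone A} : gen γ ≤ C ↔ C.un γ := by
  constructor
  · intro h
    exact h 0 ⟨0, 1, rfl⟩
  · rintro h n f ⟨i, k, rfl⟩
    exact un_proj (un_iter h k) i

theorem un_gen (γ : A → A) : (gen γ).un γ := ⟨0, 1, rfl⟩

theorem un_gen_iff {γ δ : A → A} : (gen γ).un δ ↔ ∃ k, δ = γ^[k] := by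
  constructor
  · rintro ⟨i, k, h⟩
    refine ⟨k, ?_⟩
    funext a
    have := congrFun h (fun _ => a)
    exact this
  · rintro ⟨k, rfl⟩
    exact un_iter (un_gen γ) k

theorem gen_mono {γ δ : A → A} (h : (gen γ).un δ) : gen δ ≤ gen γ := gen_le.mpr h

/-- the clone of a constant -/
abbrev cst (a : A) : Clone A := gen (fun _ => a)

theorem not_Bt_of_un {C : Clone A} {γ : A → A} (h : C.un γ) (hγ : γ ≠ id) : ¬ Bt C := by
  intro hb
  obtain ⟨i, hi⟩ := (Bt_iff.mp hb) 0 h
  apply hγ
  funext a
  have h1 := congrFun hi (fun _ => a)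
  exact h1

/-- If every non-identity iterate generates `γ`, then `gen γ` is an atom. -/
theorem At_gen {γ : A → A} (hγ : γ ≠ id) (h : ∀ k, γ^[k] ≠ id → ∃ j, (γ^[k])^[j] = γ) :
    At (gen γ) := by
  refine ⟨not_Bt_of_un (un_gen γ) hγ, fun y hy => ?_⟩
  by_cases hk : ∃ k, γ^[k] ≠ id ∧ y.un (γ^[k])
  · obtain ⟨k, hk1, hk2⟩ := hk
    right
    obtain ⟨j, hj⟩ := h k hk1
    rw [gen_le, ← hj]
    exact un_iter hk2 j
  · left
    push Not at hk
    rw [Bt_iff]
    intro n f hf
    obtain ⟨i, k, rfl⟩ := hy n hf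
    by_cases hid : γ^[k] = id
    · exact ⟨i, by rw [hid]; rfl⟩
    · exfalso
      exact hk k hid (un_diag hf)

theorem At_gen_idem {γ : A → A} (hγ : γ ≠ id) (h : ∀ a, γ (γ a) = γ a) : At (gen γ) := by
  have hit : ∀ k, γ^[k + 1] = γ := by
    intro k
    induction k with
    | zero => rfl
    | succ k ih =>
      rw [Function.iterate_succ', ih]
      funext a
      exact h a
  refine At_gen hγ fun k hk => ?_
  cases k with
  | zero => exact absurd rfl hk
  | succ k => exact ⟨1, by rw [hit]; rfl⟩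

theorem At_gen_invol {γ : A → A} (hγ : γ ≠ id) (h : ∀ a, γ (γ a) = a) : At (gen γ) := by
  have hit : ∀ k, γ^[k] = id ∨ γ^[k] = γ := by
    intro k
    induction k with
    | zero => exact Or.inl rfl
    | succ k ih =>
      rw [Function.iterate_succ']
      rcases ih with ih | ih
      · right; rw [ih]; rfl
      · left; rw [ih]; funext a; exact h a
  refine At_gen hγ fun k hk => ?_
  rcases hit k with h1 | h1
  · exact absurd h1 hk
  · exact ⟨1, by rw [h1]; rfl⟩

/-- An atom containing a non-identity unary function is generated by it. -/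
theorem eq_gen_of_At {C : Clone A} (hC : At C) {γ : A → A} (h : C.un γ) (hγ : γ ≠ id) :
    C = gen γ := by
  rcases hC.2 (gen γ) (gen_le.mpr h) with hb | hle
  · exact absurd hb (not_Bt_of_un (un_gen γ) hγ)
  · exact le_antisymm' hle (gen_le.mpr h)

end Clone

end Pool.Agent.W_MP_2972c3_al
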