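import Pool.Agent.W_MP_2972c3_al.Translate

set_option autoImplicit false
set_option linter.unusedVariables false

/-! ### Universal closure of third-order formulas; invariance under bijections -/

namespace Pool.Agent.W_MP_2972c3_al

universe u

/-- the variables -/
inductive V3 : Type
  | pt (i : ℕ) : V3
  | rel (n k : ℕ) : V3
  | fam (n k : ℕ) : V3
  deriving DecidableEq

namespace Assignment

variable {A : Type u}

theorem ext' {s t : Assignment A} (h1 : ∀ i, s.pt i = t.pt i) (h2 : ∀ n k, s.rel n k = t.rel n k)
    (h3 : ∀ n k, s.fam n k = t.fam n k) : s = t := by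
  cases s
  cases t
  congr
  · funext i; exact h1 i
  · funext n k; exact h2 n k
  · funext n k; exact h3 n k

/-- the two assignments agree at the variable -/
def EqAt (s t : Assignment A) : V3 → Prop
  | .pt i => s.pt i = t.pt i
  | .rel n k => s.rel n k = t.rel n k
  | .fam n k => s.fam n k = t.fam n k

theorem EqAt.symm {s t : Assignment A} {x : V3} (h : s.EqAt t x) : t.EqAt s x := by
  cases x <;> exact Eq.symm h

theorem EqAt.trans {s t r : Assignment A} {x : V3} (h : s.EqAt t x) (h' : t.EqAt r x) :
    s.EqAt r x := by
  cases x <;> exact Eq.trans h h'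

theorem EqAt.refl (s : Assignment A) (x : V3) : s.EqAt s x := by
  cases x <;> rfl

theorem setPt_eqAt (s : Assignment A) (i : ℕ) (a : A) {y : V3} (hy : y ≠ .pt i) :
    s.EqAt (s.setPt i a) y := by
  cases y with
  | pt j =>
    have : j ≠ i := fun h => hy (by rw [h])
    exact (s.setPt_pt_ne a this).symm
  | rel n k => rfl
  | fam n k => rfl

theorem setRel_eqAt (s : Assignment A) (n k : ℕ) (X : Set (Fin n → A)) {y : V3}
    (hy : y ≠ .rel n k) : s.EqAt (s.setRel n k X) y := by
  cases y with
  | pt j => rfl
  | rel n' k' =>
    refine (s.setRel_rel_ne X ?_).symm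
    rintro ⟨rfl, rfl⟩
    exact hy rfl
  | fam n k => rfl

theorem setFam_eqAt (s : Assignment A) (n k : ℕ) (X : Set (Set (Fin n → A))) {y : V3}
    (hy : y ≠ .fam n k) : s.EqAt (s.setFam n k X) y := by
  cases y with
  | pt j => rfl
  | rel n k => rfl
  | fam n' k' =>
    refine (s.setFam_fam_ne X ?_).symm
    rintro ⟨rfl, rfl⟩
    exact hy rfl

/-- simultaneous updates preserve agreement -/
theorem EqAt.setPt {s t : Assignment A} {y : V3} {i : ℕ} (h : y ≠ .pt i → s.EqAt t y) (a : A) :
    (s.setPt i a).EqAt (t.setPt i a) y := by
  by_cases hy : y = .pt i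
  · subst hy
    show (s.setPt i a).pt i = (t.setPt i a).pt i
    rw [setPt_pt, setPt_pt]
  · exact (s.setPt_eqAt i a hy).symm.trans ((h hy).trans (t.setPt_eqAt i a hy))

theorem EqAt.setRel {s t : Assignment A} {y : V3} {n k : ℕ} (h : y ≠ .rel n k → s.EqAt t y)
    (X : Set (Fin n → A)) : (s.setRel n k X).EqAt (t.setRel n k X) y := by
  by_cases hy : y = .rel n k
  · subst hy
    show (s.setRel n k X).rel n k = (t.setRel n k X).rel n k
    rw [setRel_rel, setRel_rel]
  · exact (s.setRel_eqAt n k X hy).symm.trans ((h hy).trans (t.setRel_eqAt n k X hy))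

theorem EqAt.setFam {s t : Assignment A} {y : V3} {n k : ℕ} (h : y ≠ .fam n k → s.EqAt t y)
    (X : Set (Set (Fin n → A))) : (s.setFam n k X).EqAt (t.setFam n k X) y := by
  by_cases hy : y = .fam n k
  · subst hy
    show (s.setFam n k X).fam n k = (t.setFam n k X).fam n k
    rw [setFam_fam, setFam_fam]
  · exact (s.setFam_eqAt n k X hy).symm.trans ((h hy).trans (t.setFam_eqAt n k X hy))

end Assignment

/-- the variables in a formula -/
def Fml.vars : Fml → List V3
  | .falsum => []
  | .eq i j => [.pt i, .pt j]
  | .rel n k t => .rel n k :: List.ofFn fun i => .pt (t i)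
  | .mem n k l => [.rel n k, .fam n l]
  | .imp φ ψ => φ.vars ++ ψ.vars
  | .all₁ _ φ => φ.vars
  | .all₂ _ _ φ => φ.vars
  | .all₃ _ _ φ => φ.vars

theorem Sat_congr {A : Type u} (φ : Fml) : ∀ (s t : Assignment A),
    (∀ x ∈ φ.vars, s.EqAt t x) → (Sat φ s ↔ Sat φ t) := by
  induction φ with
  | falsum => intro s t _; exact Iff.rfl
  | eq i j =>
    intro s t h
    have h1 : s.pt i = t.pt i := h (.pt i) (by simp [Fml.vars])
    have h2 : s.pt j = t.pt j := h (.pt j) (by simp [Fml.vars])
    show s.pt i = s.pt j ↔ t.pt i = t.pt j
    rw [h1, h2]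
  | rel n k r =>
    intro s t h
    have h1 : s.rel n k = t.rel n k := h (.rel n k) (by simp [Fml.vars])
    have h2 : (fun m : Fin n => s.pt (r m)) = fun m => t.pt (r m) := by
      funext m
      refine h (.pt (r m)) ?_
      simp only [Fml.vars, List.mem_cons, List.mem_ofFn]
      exact Or.inr ⟨m, rfl⟩
    show (fun m : Fin n => s.pt (r m)) ∈ s.rel n k ↔ (fun m : Fin n => t.pt (r m)) ∈ t.rel n k
    rw [h1, h2]
  | mem n k l =>
    intro s t h
    have h1 : s.rel n k = t.rel n k := h (.rel n k) (by simp [Fml.vars])
    have h2 : s.fam n l = t.fam n l := h (.fam n l) (by simp [Fml.vars])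
    show s.rel n k ∈ s.fam n l ↔ t.rel n k ∈ t.fam n l
    rw [h1, h2]
  | imp φ ψ ih ih' =>
    intro s t h
    exact imp_congr (ih s t fun x hx => h x (by simp [Fml.vars, hx]))
      (ih' s t fun x hx => h x (by simp [Fml.vars, hx]))
  | all₁ i φ ih =>
    intro s t h
    exact forall_congr' fun a => ih _ _ fun x hx => Assignment.EqAt.setPt (fun _ => h x hx) a
  | all₂ n k φ ih =>
    intro s t h
    exact forall_congr' fun a => ih _ _ fun x hx => Assignment.EqAt.setRel (fun _ => h x hx) a
  | all₃ n k φ ih =>
    intro s t h
    exact forall_congr' fun a => ih _ _ fun x hx => Assignment.EqAt.setFam (fun _ => h x hx) a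

/-- quantification over a variable -/
def V3.all : V3 → Fml → Fml
  | .pt i, φ => .all₁ i φ
  | .rel n k, φ => .all₂ n k φ
  | .fam n k, φ => .all₃ n k φ

theorem V3.sat_all {A : Type u} (x : V3) (φ : Fml) (s : Assignment A) :
    Sat (x.all φ) s ↔ ∀ t : Assignment A, (∀ y, y ≠ x → s.EqAt t y) → Sat φ t := by
  cases x with
  | pt i =>
    constructor
    · intro h t ht
      have : t = s.setPt i (t.pt i) := by
        refine Assignment.ext' (fun j => ?_) (fun n k => (ht (.rel n k) (by simp)).symm)
          (fun n k => (ht (.fam n k) (by simp)).symm)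
        by_cases hj : j = i
        · subst hj; rw [Assignment.setPt_pt]
        · rw [Assignment.setPt_pt_ne _ _ hj]
          exact (ht (.pt j) (by simpa using hj)).symm
      rw [this]
      exact h _
    · intro h a
      exact h _ fun y hy => s.setPt_eqAt i a hy
  | rel n k =>
    constructor
    · intro h t ht
      have : t = s.setRel n k (t.rel n k) := by
        refine Assignment.ext' (fun j => (ht (.pt j) (by simp)).symm) (fun n' k' => ?_)
          (fun n k => (ht (.fam n k) (by simp)).symm)
        by_cases hj : n' = n ∧ k' = k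
        · obtain ⟨rfl, rfl⟩ := hj
          rw [Assignment.setRel_rel]
        · rw [Assignment.setRel_rel_ne _ _ hj]
          exact (ht (.rel n' k') (by simpa using hj)).symm
      rw [this]
      exact h _
    · intro h a
      exact h _ fun y hy => s.setRel_eqAt n k a hy
  | fam n k =>
    constructor
    · intro h t ht
      have : t = s.setFam n k (t.fam n k) := by
        refine Assignment.ext' (fun j => (ht (.pt j) (by simp)).symm)
          (fun n k => (ht (.rel n k) (by simp)).symm) (fun n' k' => ?_)
        by_cases hj : n' = n ∧ k' = k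
        · obtain ⟨rfl, rfl⟩ := hj
          rw [Assignment.setFam_fam]
        · rw [Assignment.setFam_fam_ne _ _ hj]
          exact (ht (.fam n' k') (by simpa using hj)).symm
      rw [this]
      exact h _
    · intro h a
      exact h _ fun y hy => s.setFam_eqAt n k a hy

theorem sat_foldr {A : Type u} (l : List V3) (φ : Fml) (s : Assignment A) :
    Sat (l.foldr V3.all φ) s ↔ ∀ t : Assignment A, (∀ y, y ∉ l → s.EqAt t y) → Sat φ t := by
  induction l generalizing s with
  | nil =>
    constructor
    · intro h t ht
      have : s = t := Assignment.ext' (fun j => ht (.pt j) (by simp)) (fun n k => ht (.rel n k) (by simp))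
        (fun n k => ht (.fam n k) (by simp))
      rw [← this]; exact h
    · intro h
      exact h s fun y _ => Assignment.EqAt.refl s y
  | cons x l ih =>
    rw [List.foldr_cons, V3.sat_all]
    constructor
    · intro h t ht
      -- intermediate assignment: equal to `t` at `x`, to `s` elsewhere
      let r : Assignment A :=
        { pt := fun i => if V3.pt i = x then t.pt i else s.pt i
          rel := fun n k => if V3.rel n k = x then t.rel n k else s.rel n k
          fam := fun n k => if V3.fam n k = x then t.fam n k else s.fam n k }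
      have hr1 : r.EqAt t x := by
        cases x with
        | pt i => exact if_pos rfl
        | rel n k => exact if_pos rfl
        | fam n k => exact if_pos rfl
      have hr2 : ∀ y, y ≠ x → s.EqAt r y := by
        intro y hy
        cases y with
        | pt i => exact (if_neg hy).symm
        | rel n k => exact (if_neg hy).symm
        | fam n k => exact (if_neg hy).symm
      refine (ih r).mp (h r hr2) t fun y hy => ?_
      by_cases hyx : y = x
      · rw [hyx]; exact hr1
      · exact (hr2 y hyx).symm.trans (ht y (by simp [hyx, hy]))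
    · intro h r hr
      rw [ih]
      intro t ht
      refine h t fun y hy => ?_
      simp only [List.mem_cons, not_or] at hy
      exact (hr y hy.1).trans (ht y hy.2)

/-- the universal closure -/
theorem exists_closure (φ : Fml) : ∃ φ' : Fml, ∀ (A : Type u) (s : Assignment A),
    Sat φ' s ↔ ∀ t : Assignment A, Sat φ t := by
  refine ⟨φ.vars.foldr V3.all φ, fun A s => ?_⟩
  rw [sat_foldr]
  constructor
  · intro h t
    let r : Assignment A :=
      { pt := fun i => if V3.pt i ∈ φ.vars then t.pt i else s.pt i
        rel := fun n k => if V3.rel n k ∈ φ.vars then t.rel n k else s.rel n k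
        fam := fun n k => if V3.fam n k ∈ φ.vars then t.fam n k else s.fam n k }
    have hr1 : ∀ y ∈ φ.vars, r.EqAt t y := by
      intro y hy
      cases y with
      | pt i => exact if_pos hy
      | rel n k => exact if_pos hy
      | fam n k => exact if_pos hy
    have hr2 : ∀ y, y ∉ φ.vars → s.EqAt r y := by
      intro y hy
      cases y with
      | pt i => exact (if_neg hy).symm
      | rel n k => exact (if_neg hy).symm
      | fam n k => exact (if_neg hy).symm
    exact (Sat_congr φ r t hr1).mp (h r hr2)
  · intro h t _
    exact h t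

/-! ### Invariance -/

/-- transport of an assignment along a bijection -/
def Assignment.map {A B : Type u} (g : A ≃ B) (s : Assignment A) : Assignment B where
  pt i := g (s.pt i)
  rel n k := {t | (fun i => g.symm (t i)) ∈ s.rel n k}
  fam n k := {X | {t | (fun i => g (t i)) ∈ X} ∈ s.fam n k}

theorem Sat_map {A B : Type u} (g : A ≃ B) (φ : Fml) :
    ∀ s : Assignment A, Sat φ (s.map g) ↔ Sat φ s := by
  induction φ with
  | falsum => intro s; exact Iff.rfl
  | eq i j =>
    intro s
    exact g.injective.eq_iff
  | rel n k t =>
    intro s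
    show (fun i => g.symm (g (s.pt (t i)))) ∈ s.rel n k ↔ (fun i => s.pt (t i)) ∈ s.rel n k
    simp
  | mem n k l =>
    intro s
    show {t : Fin n → A | (fun i => g.symm (g (t i))) ∈ s.rel n k} ∈ s.fam n l ↔
      s.rel n k ∈ s.fam n l
    simp only [Equiv.symm_apply_apply]
    exact Iff.rfl
  | imp φ ψ ih ih' =>
    intro s
    exact imp_congr (ih s) (ih' s)
  | all₁ i φ ih =>
    intro s
    have key : ∀ a : A, (s.setPt i a).map g = (s.map g).setPt i (g a) := by
      intro a
      refine Assignment.ext' (fun j => ?_) (fun _ _ => rfl) (fun _ _ => rfl)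
      by_cases hj : j = i
      · subst hj
        rw [Assignment.setPt_pt]
        show g ((s.setPt j a).pt j) = _
        rw [Assignment.setPt_pt]
      · rw [Assignment.setPt_pt_ne _ _ hj]
        show g ((s.setPt i a).pt j) = g (s.pt j)
        rw [Assignment.setPt_pt_ne _ _ hj]
    constructor
    · intro h a
      rw [← ih, key]
      exact h _
    · intro h b
      have := h (g.symm b)
      rw [← ih, key, Equiv.apply_symm_apply] at this
      exact this
  | all₂ n k φ ih =>
    intro s
    have key : ∀ X : Set (Fin n → A), (s.setRel n k X).map g =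
        (s.map g).setRel n k {t | (fun i => g.symm (t i)) ∈ X} := by
      intro X
      refine Assignment.ext' (fun j => rfl) (fun n' k' => ?_) (fun _ _ => rfl)
      by_cases hj : n' = n ∧ k' = k
      · obtain ⟨rfl, rfl⟩ := hj
        rw [Assignment.setRel_rel]
        show {t : Fin n' → B | (fun i => g.symm (t i)) ∈ (s.setRel n' k' X).rel n' k'} = _
        rw [Assignment.setRel_rel]
      · rw [Assignment.setRel_rel_ne _ _ hj]
        show {t : Fin n' → B | (fun i => g.symm (t i)) ∈ (s.setRel n k X).rel n' k'} =
          {t | (fun i => g.symm (t i)) ∈ s.rel n' k'}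
        rw [Assignment.setRel_rel_ne _ _ hj]
    constructor
    · intro h a
      rw [← ih, key]
      exact h _
    · intro h X
      have := h {t | (fun i => g (t i)) ∈ X}
      rw [← ih, key] at this
      have e : {t : Fin n → B | (fun i => g.symm (t i)) ∈ {t : Fin n → A | (fun i => g (t i)) ∈ X}} = X := by
        ext t
        simp
      rw [e] at this
      exact this
  | all₃ n k φ ih =>
    intro s
    have key : ∀ Y : Set (Set (Fin n → A)), (s.setFam n k Y).map g =
        (s.map g).setFam n k {X | {t | (fun i => g (t i)) ∈ X} ∈ Y} := by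
      intro X
      refine Assignment.ext' (fun j => rfl) (fun _ _ => rfl) (fun n' k' => ?_)
      by_cases hj : n' = n ∧ k' = k
      · obtain ⟨rfl, rfl⟩ := hj
        rw [Assignment.setFam_fam]
        show {Y | {t | (fun i => g (t i)) ∈ Y} ∈ (s.setFam n' k' X).fam n' k'} = _
        rw [Assignment.setFam_fam]
      · rw [Assignment.setFam_fam_ne _ _ hj]
        show {Y | {t | (fun i => g (t i)) ∈ Y} ∈ (s.setFam n k X).fam n' k'} =
          {Y | {t | (fun i => g (t i)) ∈ Y} ∈ s.fam n' k'}
        rw [Assignment.setFam_fam_ne _ _ hj]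
    constructor
    · intro h a
      rw [← ih, key]
      exact h _
    · intro h Y
      have := h {X | {t | (fun i => g.symm (t i)) ∈ X} ∈ Y}
      rw [← ih, key] at this
      have e : {X : Set (Fin n → B) | {t : Fin n → A | (fun i => g (t i)) ∈ X} ∈
          {X : Set (Fin n → A) | {t : Fin n → B | (fun i => g.symm (t i)) ∈ X} ∈ Y}} = Y := by
        ext X
        have e' : {t : Fin n → B | (fun i => g.symm (t i)) ∈
            {t : Fin n → A | (fun i => g (t i)) ∈ X}} = X := by
          ext t
          simp
        show {t : Fin n → B | (fun i => g.symm (t i)) ∈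
            {t : Fin n → A | (fun i => g (t i)) ∈ X}} ∈ Y ↔ X ∈ Y
        rw [e']
      rw [e] at this
      exact this

theorem Assignment.map_symm {A B : Type u} (g : A ≃ B) (s : Assignment B) :
    (s.map g.symm).map g = s := by
  refine Assignment.ext' (fun j => ?_) (fun n k => ?_) (fun n k => ?_)
  · show g (g.symm (s.pt j)) = _
    simp
  · show {t : Fin n → B | (fun i => g (g.symm (t i))) ∈ s.rel n k} = _
    ext t
    simp
  · ext X
    have e' : {t : Fin n → B | (fun i => g.symm (t i)) ∈
        {t : Fin n → A | (fun i => g (t i)) ∈ X}} = X := by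
      ext t
      simp
    show {t : Fin n → B | (fun i => g.symm (t i)) ∈
        {t : Fin n → A | (fun i => g (t i)) ∈ X}} ∈ s.fam n k ↔ X ∈ s.fam n k
    rw [e']

theorem ThirdOrderEquiv.of_equiv {A B : Type u} (g : A ≃ B) : ThirdOrderEquiv A B := by
  intro φ
  constructor
  · intro h s
    rw [← Assignment.map_symm g s, Sat_map]
    exact h _
  · intro h s
    rw [← Sat_map g]
    exact h _

end Pool.Agent.W_MP_2972c3_al
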