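import Pool.Agent.W_MP_2972c3_al.Retract

set_option autoImplicit false

/-! ### Coding pairs and sets by retractions -/

namespace Pool.Agent.W_MP_2972c3_al

universe u

section Order

variable {L : Type u} [LE L]

/-- the parameters `e1, e2, e3, d` form a coding system -/
def SysO (e1 e2 e3 d : L) : Prop :=
  (Retr e1 ∧ Retr e2 ∧ Retr e3) ∧ (Con d ∧ Fixd e1 d) ∧
  (∀ x : L, Con x → ((Fixd e2 x ↔ Fixd e1 x) ∧ (Fixd e3 x ↔ ¬ Fixd e1 x))) ∧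
  (∀ c : L, Con c → ¬ Fixd e1 c → ∃ b : L, Con b ∧ Fixd e1 b ∧ Val e3 b c) ∧
  (∀ b : L, Con b → ∀ b' : L, Con b' → ∀ c : L, Con c → Fixd e1 b → Fixd e1 b' →
    Val e3 b c → Val e3 b' c → b ≤ b') ∧
  (∀ b : L, Con b → ∀ b' : L, Con b' → Fixd e1 b → Fixd e1 b' →
    ∃ c : L, Con c ∧ ¬ Fixd e1 c ∧ Val e1 c b ∧ Val e2 c b') ∧
  (∀ b : L, Con b → ∀ b' : L, Con b' → ∀ c : L, Con c → ∀ c' : L, Con c' →
    ¬ Fixd e1 c → ¬ Fixd e1 c' → Val e1 c b → Val e2 c b' → Val e1 c' b → Val e2 c' b' → c ≤ c')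

/-- `w` codes the pair `(a, b)` -/
def Pr (e1 e2 e3 a b w : L) : Prop :=
  Con w ∧ Fixd e1 w ∧ ∃ c : L, Con c ∧ Val e3 w c ∧ Val e1 c a ∧ Val e2 c b

/-- `w` codes the tuple `t` -/
def TC (e1 e2 e3 d : L) : (n : ℕ) → (Fin n → L) → L → Prop
  | 0, _, w => w ≤ d ∧ d ≤ w
  | (n + 1), t, w => ∃ w' : L, Con w' ∧ Fixd e1 w' ∧ TC e1 e2 e3 d n (fun i => t i.succ) w' ∧
      Pr e1 e2 e3 (t 0) w' w

/-- `w` codes some `n`-tuple -/
def IT (e1 e2 e3 d : L) : ℕ → L → Prop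
  | 0, w => w ≤ d ∧ d ≤ w
  | (n + 1), w => ∃ a : L, Con a ∧ Fixd e1 a ∧ ∃ w' : L, Con w' ∧ Fixd e1 w' ∧ IT e1 e2 e3 d n w' ∧
      Pr e1 e2 e3 a w' w

/-- `w` is generated by a retraction parallel to `e3` -/
def Par (e1 e3 w : L) : Prop :=
  Retr w ∧ ∀ b : L, Con b → ∀ c : L, Con c → Fixd e1 b → Val e3 b c →
    ((Fixd w b ∧ Val w c b) ∨ (Val w b c ∧ Fixd w c))

/-- `w` codes the set of the `n`-tuples coded by `y` -/
def IsCode (e1 e2 e3 d : L) (n : ℕ) (y w : L) : Prop :=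
  Par e1 e3 w ∧ ∀ x : L, Con x → Fixd e1 x → (Fixd w x ↔ (x ≤ y ∧ IT e1 e2 e3 d n x))

end Order

/-- a coding system on `A` -/
structure Sys (A : Type u) where
  e1 : A → A
  e2 : A → A
  e3 : A → A
  d : A
  n1 : e1 ≠ id
  n2 : e2 ≠ id
  n3 : e3 ≠ id
  i1 : ∀ a, e1 (e1 a) = e1 a
  i2 : ∀ a, e2 (e2 a) = e2 a
  i3 : ∀ a, e3 (e3 a) = e3 a
  hd : e1 d = d
  fix2 : ∀ x, e2 x = x ↔ e1 x = x
  fix3 : ∀ x, e3 x = x ↔ ¬ e1 x = x
  surj : ∀ c, ¬ e1 c = c → ∃ b, e1 b = b ∧ e3 b = c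
  inj : ∀ b b', e1 b = b → e1 b' = b' → e3 b = e3 b' → b = b'
  pair : ∀ b b', e1 b = b → e1 b' = b' → ∃ c, ¬ e1 c = c ∧ e1 c = b ∧ e2 c = b'
  pair_inj : ∀ c c', ¬ e1 c = c → ¬ e1 c' = c' → e1 c = e1 c' → e2 c = e2 c' → c = c'

namespace Sys

variable {A : Type u} (σ : Sys A)

open Clone


theorem SysO_of (h3 : ∀ a b : A, ∃ c, c ≠ a ∧ c ≠ b) (h2 : ∃ a b : A, a ≠ b) :
    SysO (gen σ.e1) (gen σ.e2) (gen σ.e3) (cst σ.d) := by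
  have F1 := fun b => Fixd_idem h3 h2 σ.i1 b
  have F2 := fun b => Fixd_idem h3 h2 σ.i2 b
  have F3 := fun b => Fixd_idem h3 h2 σ.i3 b
  have V1 := fun a b => Val_idem h3 h2 σ.i1 a b
  have V2 := fun a b => Val_idem h3 h2 σ.i2 a b
  have V3 := fun a b => Val_idem h3 h2 σ.i3 a b
  refine ⟨⟨Retr_idem h3 h2 σ.n1 σ.i1, Retr_idem h3 h2 σ.n2 σ.i2, Retr_idem h3 h2 σ.n3 σ.i3⟩,
    ⟨Con_cst h3 h2 _, (F1 _).mpr σ.hd⟩, ?_, ?_, ?_, ?_, ?_⟩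
  · rw [forall_Con h3 h2]
    intro a
    rw [F1, F2, F3]
    exact ⟨σ.fix2 a, σ.fix3 a⟩
  · rw [forall_Con h3 h2]
    intro a
    rw [F1]
    intro ha
    obtain ⟨b, hb1, hb2⟩ := σ.surj a ha
    exact ⟨cst b, Con_cst h3 h2 _, (F1 b).mpr hb1, (V3 b a).mpr hb2⟩
  · rw [forall_Con h3 h2]
    intro b
    rw [forall_Con h3 h2]
    intro b'
    rw [forall_Con h3 h2]
    intro c
    rw [F1, F1, V3, V3]
    intro h1 h4 h5 h6
    rw [σ.inj b b' h1 h4 (h5.trans h6.symm)]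
    exact le_rfl'
  · rw [forall_Con h3 h2]
    intro b
    rw [forall_Con h3 h2]
    intro b'
    rw [F1, F1]
    intro h1 h4
    obtain ⟨c, hc1, hc2, hc3⟩ := σ.pair b b' h1 h4
    refine ⟨cst c, Con_cst h3 h2 _, ?_, (V1 c b).mpr hc2, (V2 c b').mpr hc3⟩
    rw [F1]; exact hc1
  · rw [forall_Con h3 h2]
    intro b
    rw [forall_Con h3 h2]
    intro b'
    rw [forall_Con h3 h2]
    intro c
    rw [forall_Con h3 h2]
    intro c'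
    rw [F1, F1, V1, V2, V1, V2]
    intro h1 h4 h5 h6 h7 h8
    rw [σ.pair_inj c c' h1 h4 (h5.trans h7.symm) (h6.trans h8.symm)]
    exact le_rfl'

theorem exists_of_SysO (h3 : ∀ a b : A, ∃ c, c ≠ a ∧ c ≠ b) (h2 : ∃ a b : A, a ≠ b)
    {e1 e2 e3 d : Clone A} (h : SysO e1 e2 e3 d) :
    ∃ σ : Sys A, e1 = gen σ.e1 ∧ e2 = gen σ.e2 ∧ e3 = gen σ.e3 ∧ d = cst σ.d := by
  obtain ⟨⟨r1, r2, r3⟩, ⟨hd1, hd2⟩, hf, hs, hi, hp, hpi⟩ := h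
  obtain ⟨ε1, n1, i1, rfl⟩ := (Retr_iff h3 h2 _).mp r1
  obtain ⟨ε2, n2, i2, rfl⟩ := (Retr_iff h3 h2 _).mp r2
  obtain ⟨ε3, n3, i3, rfl⟩ := (Retr_iff h3 h2 _).mp r3
  obtain ⟨δ, rfl⟩ := (Con_iff h3 h2 _).mp hd1
  have F1 := fun b => Fixd_idem h3 h2 i1 b
  have F2 := fun b => Fixd_idem h3 h2 i2 b
  have F3 := fun b => Fixd_idem h3 h2 i3 b
  have V1 := fun a b => Val_idem h3 h2 i1 a b
  have V2 := fun a b => Val_idem h3 h2 i2 a b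
  have V3 := fun a b => Val_idem h3 h2 i3 a b
  have C := fun a : A => Con_cst h3 h2 a
  refine ⟨⟨ε1, ε2, ε3, δ, n1, n2, n3, i1, i2, i3, (F1 _).mp hd2, ?_, ?_, ?_, ?_, ?_, ?_⟩, rfl, rfl, rfl, rfl⟩
  · intro x
    have := (hf _ (C x)).1
    rw [F1, F2] at this
    exact this
  · intro x
    have := (hf _ (C x)).2
    rw [F1, F3] at this
    exact this
  · intro c hc
    obtain ⟨b, hb1, hb2, hb3⟩ := hs _ (C c) (by rw [F1]; exact hc)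
    obtain ⟨β, rfl⟩ := (Con_iff h3 h2 _).mp hb1
    exact ⟨β, (F1 _).mp hb2, (V3 _ _).mp hb3⟩
  · intro b b' hb hb' hbb
    exact cst_inj h3 (hi _ (C b) _ (C b') _ (C (ε3 b)) ((F1 _).mpr hb) ((F1 _).mpr hb')
      ((V3 _ _).mpr rfl) ((V3 _ _).mpr hbb.symm))
  · intro b b' hb hb'
    obtain ⟨c, hc1, hc2, hc3, hc4⟩ := hp _ (C b) _ (C b') ((F1 _).mpr hb) ((F1 _).mpr hb')
    obtain ⟨γ, rfl⟩ := (Con_iff h3 h2 _).mp hc1
    rw [F1] at hc2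
    exact ⟨γ, hc2, (V1 _ _).mp hc3, (V2 _ _).mp hc4⟩
  · intro c c' hc hc' h4 h5
    exact cst_inj h3 (hpi _ (C (ε1 c)) _ (C (ε2 c)) _ (C c) _ (C c') (by rw [F1]; exact hc)
      (by rw [F1]; exact hc') ((V1 _ _).mpr rfl) ((V2 _ _).mpr rfl) ((V1 _ _).mpr h4.symm)
      ((V2 _ _).mpr h5.symm))

/-- the domain of the coded structure -/
def B : Type u := {b : A // σ.e1 b = b}

instance : CoeOut σ.B A := ⟨Subtype.val⟩

/-- the default point -/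
def dB : σ.B := ⟨σ.d, σ.hd⟩

theorem e3_not (b : A) : ¬ σ.e1 (σ.e3 b) = σ.e3 b := (σ.fix3 _).mp (σ.i3 b)

theorem exists_pi (a b : σ.B) :
    ∃ w : σ.B, σ.e1 (σ.e3 w.1) = a.1 ∧ σ.e2 (σ.e3 w.1) = b.1 := by
  obtain ⟨c, hc1, hc2, hc3⟩ := σ.pair a.1 b.1 a.2 b.2
  obtain ⟨w, hw1, hw2⟩ := σ.surj c hc1
  exact ⟨⟨w, hw1⟩, by rw [hw2]; exact hc2, by rw [hw2]; exact hc3⟩

/-- pairing on `B` -/
noncomputable def pi (a b : σ.B) : σ.B := Classical.choose (σ.exists_pi a b)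

theorem pi_fst (a b : σ.B) : σ.e1 (σ.e3 (σ.pi a b).1) = a.1 :=
  (Classical.choose_spec (σ.exists_pi a b)).1

theorem pi_snd (a b : σ.B) : σ.e2 (σ.e3 (σ.pi a b).1) = b.1 :=
  (Classical.choose_spec (σ.exists_pi a b)).2

theorem pi_unique {a b w : σ.B} (h1 : σ.e1 (σ.e3 w.1) = a.1) (h2 : σ.e2 (σ.e3 w.1) = b.1) :
    w = σ.pi a b := by
  have h := σ.pair_inj _ _ (σ.e3_not w.1) (σ.e3_not (σ.pi a b).1)
    (h1.trans (σ.pi_fst a b).symm) (h2.trans (σ.pi_snd a b).symm)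
  exact Subtype.ext (σ.inj _ _ w.2 (σ.pi a b).2 h)

theorem pi_inj {a b a' b' : σ.B} (h : σ.pi a b = σ.pi a' b') : a = a' ∧ b = b' := by
  constructor
  · apply Subtype.ext
    rw [← σ.pi_fst a b, h, σ.pi_fst]
  · apply Subtype.ext
    rw [← σ.pi_snd a b, h, σ.pi_snd]

/-- tuples coded by points -/
noncomputable def tau : (n : ℕ) → (Fin n → σ.B) → σ.B
  | 0, _ => σ.dB
  | (n + 1), t => σ.pi (t 0) (tau n (fun i => t i.succ))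

theorem tau_inj (n : ℕ) : Function.Injective (σ.tau n) := by
  induction n with
  | zero => intro s t _; funext i; exact i.elim0
  | succ n ih =>
    intro s t h
    obtain ⟨h1, h2⟩ := σ.pi_inj h
    have h3 := ih h2
    funext i
    refine Fin.cases h1 (fun j => ?_) i
    exact congrFun h3 j

/-- the representative in `B` of a point -/
theorem exists_rep (x : A) : ∃ b : σ.B, x = b.1 ∨ x = σ.e3 b.1 := by
  by_cases h : σ.e1 x = x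
  · exact ⟨⟨x, h⟩, Or.inl rfl⟩
  · obtain ⟨b, hb1, hb2⟩ := σ.surj x h
    exact ⟨⟨b, hb1⟩, Or.inr hb2.symm⟩

noncomputable def rep (x : A) : σ.B := Classical.choose (σ.exists_rep x)

theorem rep_spec (x : A) : x = (σ.rep x).1 ∨ x = σ.e3 (σ.rep x).1 :=
  Classical.choose_spec (σ.exists_rep x)

theorem ne_e3 (b c : σ.B) : b.1 ≠ σ.e3 c.1 := by
  intro h
  apply σ.e3_not c.1
  rw [← h]
  exact b.2

theorem rep_unique {x : A} {b : σ.B} (h : x = b.1 ∨ x = σ.e3 b.1) : σ.rep x = b := by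
  rcases σ.rep_spec x with h1 | h1 <;> rcases h with h2 | h2
  · exact Subtype.ext (h1.symm.trans h2)
  · exact absurd (h1.symm.trans h2) (σ.ne_e3 _ _)
  · exact absurd (h2.symm.trans h1) (σ.ne_e3 _ _)
  · exact Subtype.ext (σ.inj _ _ (σ.rep x).2 b.2 (h1.symm.trans h2))

theorem rep_B (b : σ.B) : σ.rep b.1 = b := σ.rep_unique (Or.inl rfl)

theorem rep_e3 (b : σ.B) : σ.rep (σ.e3 b.1) = b := σ.rep_unique (Or.inr rfl)

open Classical in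
/-- the retraction coding the set `S ⊆ B` -/
noncomputable def rho (S : Set σ.B) (x : A) : A :=
  if σ.rep x ∈ S then (σ.rep x).1 else σ.e3 (σ.rep x).1

theorem rep_rho (S : Set σ.B) (x : A) : σ.rep (σ.rho S x) = σ.rep x := by
  unfold rho
  split_ifs
  · exact σ.rep_B _
  · exact σ.rep_e3 _

theorem rho_mem {S : Set σ.B} {x : A} {b : σ.B} (hx : σ.rep x = b) (hb : b ∈ S) :
    σ.rho S x = b.1 := by
  subst hx
  exact if_pos hb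

theorem rho_not_mem {S : Set σ.B} {x : A} {b : σ.B} (hx : σ.rep x = b) (hb : b ∉ S) :
    σ.rho S x = σ.e3 b.1 := by
  subst hx
  exact if_neg hb

theorem rho_rho (S T : Set σ.B) (x : A) : σ.rho S (σ.rho T x) = σ.rho S x := by
  by_cases h : σ.rep x ∈ S
  · rw [σ.rho_mem (σ.rep_rho T x) h, σ.rho_mem rfl h]
  · rw [σ.rho_not_mem (σ.rep_rho T x) h, σ.rho_not_mem rfl h]

theorem rho_fix (S : Set σ.B) (b : σ.B) : σ.rho S b.1 = b.1 ↔ b ∈ S := by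
  unfold rho
  rw [σ.rep_B]
  split_ifs with h
  · simp [h]
  · simp only [h, iff_false]
    exact (σ.ne_e3 b b).symm

theorem rho_inj : Function.Injective σ.rho := by
  intro S T h
  ext b
  rw [← σ.rho_fix S, h, σ.rho_fix]

theorem rho_ne_id (S : Set σ.B) : σ.rho S ≠ id := by
  intro h
  have h1 : σ.rho S (σ.dB.1) = σ.rho S (σ.e3 σ.dB.1) := by
    unfold rho
    rw [σ.rep_B, σ.rep_e3]
  rw [h] at h1
  exact σ.ne_e3 _ _ h1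

/-- a retraction parallel to `e3` is some `rho S` -/
theorem eq_rho {ω : A → A} (h : ∀ b : σ.B, (ω b.1 = b.1 ∧ ω (σ.e3 b.1) = b.1) ∨
    (ω b.1 = σ.e3 b.1 ∧ ω (σ.e3 b.1) = σ.e3 b.1)) : ω = σ.rho {b | ω b.1 = b.1} := by
  funext x
  unfold rho
  rcases σ.rep_spec x with hx | hx <;> rcases h (σ.rep x) with ⟨h1, h2⟩ | ⟨h1, h2⟩
  · rw [if_pos (show σ.rep x ∈ {b : σ.B | ω b.1 = b.1} from h1), ← hx]
    rw [← hx] at h1
    exact h1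
  · rw [if_neg (show ¬ σ.rep x ∈ {b : σ.B | ω b.1 = b.1} from fun hc => σ.ne_e3 _ _ (hc.symm.trans h1))]
    rw [← hx] at h1 ⊢
    exact h1
  · rw [if_pos (show σ.rep x ∈ {b : σ.B | ω b.1 = b.1} from h1)]
    rw [← hx] at h2
    exact h2
  · rw [if_neg (show ¬ σ.rep x ∈ {b : σ.B | ω b.1 = b.1} from fun hc => σ.ne_e3 _ _ (hc.symm.trans h1))]
    rw [← hx] at h2 ⊢
    exact h2

theorem Pr_iff (h3 : ∀ a b : A, ∃ c, c ≠ a ∧ c ≠ b) (h2 : ∃ a b : A, a ≠ b) (a b : σ.B)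
    (w : Clone A) : Pr (gen σ.e1) (gen σ.e2) (gen σ.e3) (cst a.1) (cst b.1) w ↔
      w = cst (σ.pi a b).1 := by
  constructor
  · rintro ⟨hw1, hw2, c, hc1, hc2, hc3, hc4⟩
    obtain ⟨ω, rfl⟩ := (Con_iff h3 h2 _).mp hw1
    obtain ⟨γ, rfl⟩ := (Con_iff h3 h2 _).mp hc1
    rw [Fixd_idem h3 h2 σ.i1] at hw2
    rw [Val_idem h3 h2 σ.i3] at hc2
    rw [Val_idem h3 h2 σ.i1] at hc3
    rw [Val_idem h3 h2 σ.i2] at hc4
    have := σ.pi_unique (a := a) (b := b) (w := ⟨ω, hw2⟩) (by rw [hc2]; exact hc3) (by rw [hc2]; exact hc4)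
    rw [← this]
  · rintro rfl
    refine ⟨Con_cst h3 h2 _, (Fixd_idem h3 h2 σ.i1 _).mpr (σ.pi a b).2, cst (σ.e3 (σ.pi a b).1),
      Con_cst h3 h2 _, (Val_idem h3 h2 σ.i3 _ _).mpr rfl, (Val_idem h3 h2 σ.i1 _ _).mpr (σ.pi_fst a b),
      (Val_idem h3 h2 σ.i2 _ _).mpr (σ.pi_snd a b)⟩

theorem le_le_iff {x y : Clone A} : (x ≤ y ∧ y ≤ x) ↔ x = y :=
  ⟨fun h => le_antisymm' h.1 h.2, fun h => h ▸ ⟨le_rfl', le_rfl'⟩⟩

theorem TC_iff (h3 : ∀ a b : A, ∃ c, c ≠ a ∧ c ≠ b) (h2 : ∃ a b : A, a ≠ b) (n : ℕ)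
    (t : Fin n → σ.B) (w : Clone A) :
    TC (gen σ.e1) (gen σ.e2) (gen σ.e3) (cst σ.d) n (fun i => cst (t i).1) w ↔
      w = cst (σ.tau n t).1 := by
  induction n generalizing w with
  | zero => exact le_le_iff
  | succ n ih =>
    show (∃ w' : Clone A, Con w' ∧ Fixd (gen σ.e1) w' ∧
      TC (gen σ.e1) (gen σ.e2) (gen σ.e3) (cst σ.d) n (fun i => cst (t i.succ).1) w' ∧
      Pr (gen σ.e1) (gen σ.e2) (gen σ.e3) (cst (t 0).1) w' w) ↔ _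
    constructor
    · rintro ⟨w', _, _, hw', hp⟩
      rw [ih] at hw'
      subst hw'
      exact (σ.Pr_iff h3 h2 _ _ _).mp hp
    · intro hw
      refine ⟨cst (σ.tau n fun i => t i.succ).1, Con_cst h3 h2 _,
        (Fixd_idem h3 h2 σ.i1 _).mpr (σ.tau n _).2, (ih _ _).mpr rfl, (σ.Pr_iff h3 h2 _ _ _).mpr hw⟩

theorem IT_iff (h3 : ∀ a b : A, ∃ c, c ≠ a ∧ c ≠ b) (h2 : ∃ a b : A, a ≠ b) (n : ℕ)
    (w : Clone A) :
    IT (gen σ.e1) (gen σ.e2) (gen σ.e3) (cst σ.d) n w ↔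
      ∃ t : Fin n → σ.B, w = cst (σ.tau n t).1 := by
  induction n generalizing w with
  | zero =>
    constructor
    · intro h
      exact ⟨Fin.elim0, le_le_iff.mp h⟩
    · rintro ⟨t, ht⟩
      exact le_le_iff.mpr ht
  | succ n ih =>
    show (∃ a : Clone A, Con a ∧ Fixd (gen σ.e1) a ∧ ∃ w' : Clone A, Con w' ∧ Fixd (gen σ.e1) w' ∧
      IT (gen σ.e1) (gen σ.e2) (gen σ.e3) (cst σ.d) n w' ∧
      Pr (gen σ.e1) (gen σ.e2) (gen σ.e3) a w' w) ↔ _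
    constructor
    · rintro ⟨a, ha1, ha2, w', _, _, hw', hp⟩
      obtain ⟨α, rfl⟩ := (Con_iff h3 h2 _).mp ha1
      rw [Fixd_idem h3 h2 σ.i1] at ha2
      obtain ⟨t, rfl⟩ := (ih _).mp hw'
      have := (σ.Pr_iff h3 h2 ⟨α, ha2⟩ _ _).mp hp
      exact ⟨Fin.cons ⟨α, ha2⟩ t, this⟩
    · rintro ⟨t, ht⟩
      refine ⟨cst (t 0).1, Con_cst h3 h2 _, (Fixd_idem h3 h2 σ.i1 _).mpr (t 0).2,
        cst (σ.tau n fun i => t i.succ).1, Con_cst h3 h2 _,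
        (Fixd_idem h3 h2 σ.i1 _).mpr (σ.tau n _).2, (ih _).mpr ⟨_, rfl⟩, (σ.Pr_iff h3 h2 _ _ _).mpr ht⟩

theorem IsCode_iff (h3 : ∀ a b : A, ∃ c, c ≠ a ∧ c ≠ b) (h2 : ∃ a b : A, a ≠ b) (n : ℕ)
    (y w : Clone A) :
    IsCode (gen σ.e1) (gen σ.e2) (gen σ.e3) (cst σ.d) n y w ↔
      w = gen (σ.rho (σ.tau n '' {t | cst (σ.tau n t).1 ≤ y})) := by
  constructor
  · rintro ⟨⟨hw1, hw2⟩, hw3⟩
    obtain ⟨ω, hω1, hω2, rfl⟩ := (Retr_iff h3 h2 _).mp hw1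
    have h4 : ∀ b : σ.B, (ω b.1 = b.1 ∧ ω (σ.e3 b.1) = b.1) ∨
        (ω b.1 = σ.e3 b.1 ∧ ω (σ.e3 b.1) = σ.e3 b.1) := by
      intro b
      have := hw2 (cst b.1) (Con_cst h3 h2 _) (cst (σ.e3 b.1)) (Con_cst h3 h2 _)
        ((Fixd_idem h3 h2 σ.i1 _).mpr b.2) ((Val_idem h3 h2 σ.i3 _ _).mpr rfl)
      rw [Fixd_idem h3 h2 hω2, Fixd_idem h3 h2 hω2, Val_idem h3 h2 hω2, Val_idem h3 h2 hω2] at this
      exact this
    have h5 := σ.eq_rho h4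
    have h6 : {b : σ.B | ω b.1 = b.1} = σ.tau n '' {t | cst (σ.tau n t).1 ≤ y} := by
      ext b
      have := hw3 (cst b.1) (Con_cst h3 h2 _) ((Fixd_idem h3 h2 σ.i1 _).mpr b.2)
      rw [Fixd_idem h3 h2 hω2, σ.IT_iff h3 h2] at this
      show ω b.1 = b.1 ↔ _
      rw [this]
      constructor
      · rintro ⟨hb1, t, ht⟩
        have hbt : b.1 = (σ.tau n t).1 := cst_inj h3 (ht ▸ le_rfl')
        refine ⟨t, ?_, (Subtype.ext hbt).symm⟩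
        show cst (σ.tau n t).1 ≤ y
        rw [← hbt]; exact hb1
      · rintro ⟨t, ht, rfl⟩
        exact ⟨ht, t, rfl⟩
    rw [← h6, ← h5]
  · rintro rfl
    set S := σ.tau n '' {t | cst (σ.tau n t).1 ≤ y} with hS
    have hid : ∀ a, σ.rho S (σ.rho S a) = σ.rho S a := fun a => σ.rho_rho S S a
    refine ⟨⟨Retr_idem h3 h2 (σ.rho_ne_id S) hid, ?_⟩, ?_⟩
    · rw [forall_Con h3 h2]
      intro b
      rw [forall_Con h3 h2]
      intro c hb hc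
      rw [Fixd_idem h3 h2 σ.i1] at hb
      rw [Val_idem h3 h2 σ.i3] at hc
      rw [Fixd_idem h3 h2 hid, Fixd_idem h3 h2 hid, Val_idem h3 h2 hid, Val_idem h3 h2 hid]
      subst hc
      by_cases hbS : (⟨b, hb⟩ : σ.B) ∈ S
      · exact Or.inl ⟨σ.rho_mem (σ.rep_B ⟨b, hb⟩) hbS, σ.rho_mem (σ.rep_e3 ⟨b, hb⟩) hbS⟩
      · exact Or.inr ⟨σ.rho_not_mem (σ.rep_B ⟨b, hb⟩) hbS, σ.rho_not_mem (σ.rep_e3 ⟨b, hb⟩) hbS⟩
    · rw [forall_Con h3 h2]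
      intro x hx
      rw [Fixd_idem h3 h2 σ.i1] at hx
      rw [Fixd_idem h3 h2 hid, σ.IT_iff h3 h2]
      have := σ.rho_fix S ⟨x, hx⟩
      rw [show σ.rho S x = x ↔ (⟨x, hx⟩ : σ.B) ∈ S from this, hS]
      constructor
      · rintro ⟨t, ht, htx⟩
        have hv : (σ.tau n t).1 = x := congrArg Subtype.val htx
        refine ⟨?_, t, by rw [hv]⟩
        have : cst (σ.tau n t).1 ≤ y := ht
        rw [hv] at this
        exact this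
      · rintro ⟨hxy, t, ht⟩
        have hbt : x = (σ.tau n t).1 := cst_inj h3 (ht ▸ le_rfl')
        refine ⟨t, ?_, (Subtype.ext hbt).symm⟩
        show cst (σ.tau n t).1 ≤ y
        rw [← hbt]; exact hxy

end Sys

end Pool.Agent.W_MP_2972c3_al
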