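import Pool.Agent.W_MP_2972c3_al.Basic

set_option autoImplicit false

/-! ### The constants are definable in the lattice of clones -/

namespace Pool.Agent.W_MP_2972c3_al

universe u

open Classical in
/-- the retraction onto `{p, q}` sending everything but `p` to `q` -/
noncomputable def E {A : Type u} (p q : A) : A → A := fun x => if x = p then p else q

namespace Clone

variable {A : Type u}

theorem E_self (p q : A) : E p q p = p := by unfold E; simp

theorem E_of_ne {p q x : A} (h : x ≠ p) : E p q x = q := by unfold E; simp [h]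

theorem E_idem (p q a : A) : E p q (E p q a) = E p q a := by
  unfold E
  split_ifs <;> simp_all

theorem E_ne_id (h3 : ∀ a b : A, ∃ c, c ≠ a ∧ c ≠ b) (p q : A) : E p q ≠ id := by
  intro h
  obtain ⟨r, hr1, hr2⟩ := h3 p q
  have := congrFun h r
  rw [E_of_ne hr1] at this
  exact hr2 this.symm

theorem const_ne_id (h3 : ∀ a b : A, ∃ c, c ≠ a ∧ c ≠ b) (a : A) : (fun _ : A => a) ≠ id := by
  intro h
  obtain ⟨r, hr1, _⟩ := h3 a a
  exact hr1 (congrFun h r).symm

theorem At_cst (h3 : ∀ a b : A, ∃ c, c ≠ a ∧ c ≠ b) (a : A) : At (cst a) :=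
  At_gen_idem (const_ne_id h3 a) fun _ => rfl

theorem At_E (h3 : ∀ a b : A, ∃ c, c ≠ a ∧ c ≠ b) (p q : A) : At (gen (E p q)) :=
  At_gen_idem (E_ne_id h3 p q) (E_idem p q)

open Classical in
theorem At_swap {a b : A} (hab : a ≠ b) : At (gen (Equiv.swap a b : A → A)) := by
  refine At_gen_invol ?_ fun x => Equiv.swap_apply_self a b x
  intro h
  have := congrFun h a
  rw [Equiv.swap_apply_left] at this
  exact hab this.symm

/-- operations that are projections or take the value `o` at all tuples avoiding `a` -/
def Kc (a o : A) (h : o ≠ a) : Clone A where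
  ops n := {f | (∃ i, f = fun x => x i) ∨ ∀ x : Fin (n + 1) → A, (∀ i, x i ≠ a) → f x = o}
  proj_mem _ i := Or.inl ⟨i, rfl⟩
  comp_mem m n f g := by
    rintro (⟨i, rfl⟩ | hf) hg
    · exact hg i
    · right
      intro x hx
      refine hf _ fun i => ?_
      rcases hg i with ⟨j, hj⟩ | hj
      · rw [hj]; exact hx j
      · rw [hj x hx]; exact h

/-! Sides: an element `u` with pseudocomplement `z`. -/

section Sides

variable {u z : Clone A} (hz : ∀ y, (Dj y u ↔ y ≤ z))
include hz

theorem side {x : Clone A} (hx : At x) : x ≤ u ∨ x ≤ z := by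
  by_cases h : x ≤ u
  · exact Or.inl h
  · right
    rw [← hz]
    intro w hw1 hw2
    rcases hx.2 w hw1 with hb | hle
    · exact hb
    · exact absurd (le_trans' hle hw2) h

theorem not_both {y : Clone A} (h1 : y ≤ u) (h2 : y ≤ z) : Bt y :=
  ((hz z).mpr le_rfl') y h2 h1

theorem not_both_un {γ : A → A} (h1 : u.un γ) (h2 : z.un γ) : γ = id := by
  by_contra hne
  exact not_Bt_of_un (un_gen γ) hne (not_both hz (gen_le.mpr h1) (gen_le.mpr h2))

theorem side_un {γ : A → A} (hx : At (gen γ)) : u.un γ ∨ z.un γ := by
  rcases side hz hx with h | h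
  · exact Or.inl (gen_le.mp h)
  · exact Or.inr (gen_le.mp h)

open Classical in
/-- all constants are on the same side -/
theorem cst_same (h3 : ∀ a b : A, ∃ c, c ≠ a ∧ c ≠ b) {a b : A} (ha : u.un (fun _ => a)) :
    u.un (fun _ => b) := by
  by_cases hab : a = b
  · rw [← hab]; exact ha
  rcases side_un hz (At_cst h3 b) with h | h
  · exact h
  exfalso
  rcases side_un hz (At_swap hab) with hs | hs
  · have h1 : u.un (fun _ => b) := by
      have := un_comp hs ha
      simpa using this
    exact const_ne_id h3 b (not_both_un hz h1 h)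
  · have h1 : z.un (fun _ => a) := by
      have := un_comp hs h
      simpa using this
    exact const_ne_id h3 a (not_both_un hz ha h1)

omit hz in
open Classical in
theorem swap_E {p q r : A} (hr1 : r ≠ p) (hr2 : r ≠ q) (hpq : p ≠ q) (x : A) :
    Equiv.swap p r (E p q (Equiv.swap p r x)) = E r q x := by
  by_cases hx : x = r
  · subst hx
    rw [Equiv.swap_apply_right, E_self, Equiv.swap_apply_left, E_self]
  · have h1 : Equiv.swap p r x ≠ p := by
      intro h
      apply hx
      have := congrArg (Equiv.swap p r) h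
      rw [Equiv.swap_apply_self, Equiv.swap_apply_left] at this
      exact this
    rw [E_of_ne h1, E_of_ne hx, Equiv.swap_apply_of_ne_of_ne hpq.symm hr2.symm]

open Classical in
/-- the retraction `E p q` is on the side of the constants (for `z`) -/
theorem E_in_z (h3 : ∀ a b : A, ∃ c, c ≠ a ∧ c ≠ b) (hc : ∀ a, z.un (fun _ => a)) {p q : A}
    (hpq : p ≠ q) : z.un (E p q) := by
  rcases side_un hz (At_E h3 p q) with h | h
  swap
  · exact h
  exfalso
  obtain ⟨r, hr1, hr2⟩ := h3 p q
  have hE' : u.un (E r q) := by
    rcases side_un hz (At_E h3 r q) with h' | h'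
    · exact h'
    · exfalso
      rcases side_un hz (At_swap hr1.symm) with hs | hs
      · have h1 : u.un (E r q) := by
          have := un_comp hs (un_comp h hs)
          have he : (fun a => Equiv.swap p r (E p q (Equiv.swap p r a))) = E r q := by
            funext x; exact swap_E hr1 hr2 hpq x
          rw [he] at this
          exact this
        exact E_ne_id h3 _ _ (not_both_un hz h1 h')
      · have h1 : z.un (E p q) := by
          have := un_comp hs (un_comp h' hs)
          have he : (fun a => Equiv.swap p r (E r q (Equiv.swap p r a))) = E p q := by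
            funext x
            rw [Equiv.swap_comm]
            exact swap_E hr1.symm hpq hr2 x
          rw [he] at this
          exact this
        exact E_ne_id h3 _ _ (not_both_un hz h h1)
  have hcq : u.un (fun _ => q) := by
    have := un_comp hE' h
    have he : (fun a => E r q (E p q a)) = fun _ => q := by
      funext x
      apply E_of_ne
      unfold E
      split_ifs
      · exact hr1.symm
      · exact hr2.symm
    rw [he] at this
    exact this
  exact const_ne_id h3 q (not_both_un hz hcq (hc q))

open Classical in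
theorem E_in_u (h3 : ∀ a b : A, ∃ c, c ≠ a ∧ c ≠ b) (hc : ∀ a, u.un (fun _ => a)) {p q : A}
    (hpq : p ≠ q) : u.un (E p q) := by
  rcases side_un hz (At_E h3 p q) with h | h
  · exact h
  exfalso
  obtain ⟨r, hr1, hr2⟩ := h3 p q
  have hE' : z.un (E r q) := by
    rcases side_un hz (At_E h3 r q) with h' | h'
    swap
    · exact h'
    · exfalso
      rcases side_un hz (At_swap hr1.symm) with hs | hs
      · have h1 : u.un (E p q) := by
          have := un_comp hs (un_comp h' hs)
          have he : (fun a => Equiv.swap p r (E r q (Equiv.swap p r a))) = E p q := by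
            funext x
            rw [Equiv.swap_comm]
            exact swap_E hr1.symm hpq hr2 x
          rw [he] at this
          exact this
        exact E_ne_id h3 _ _ (not_both_un hz h1 h)
      · have h1 : z.un (E r q) := by
          have := un_comp hs (un_comp h hs)
          have he : (fun a => Equiv.swap p r (E p q (Equiv.swap p r a))) = E r q := by
            funext x; exact swap_E hr1 hr2 hpq x
          rw [he] at this
          exact this
        exact E_ne_id h3 _ _ (not_both_un hz h' h1)
  have hcq : z.un (fun _ => q) := by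
    have := un_comp hE' h
    have he : (fun a => E r q (E p q a)) = fun _ => q := by
      funext x
      apply E_of_ne
      unfold E
      split_ifs
      · exact hr1.symm
      · exact hr2.symm
    rw [he] at this
    exact this
  exact const_ne_id h3 q (not_both_un hz (hc q) hcq)

open Classical in
/-- If the constants are on the side of `z`, then `z` is the clone of all operations. -/
theorem case_two (h3 : ∀ a b : A, ∃ c, c ≠ a ∧ c ≠ b) (hc : ∀ a, z.un (fun _ => a)) :
    top A ≤ z := by
  intro n γ _
  -- two distinct points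
  by_cases hA : Nonempty A
  swap
  · -- empty base set: everything is a projection
    have : γ = fun x => x 0 := by
      funext x
      exact absurd ⟨x 0⟩ hA
    rw [this]
    exact z.proj_mem n 0
  obtain ⟨a⟩ := hA
  obtain ⟨o, ho, _⟩ := h3 a a
  have hK : Kc a o ho ≤ z := by
    rw [← hz]
    intro w hw1 hw2
    rw [Bt_iff]
    intro m g hg
    rcases hw1 m hg with hp | hv
    · exact hp
    exfalso
    -- the diagonal of g
    have hd : u.un (fun x => g (fun _ => x)) := un_diag (hw2 m hg)
    set h : A → A := fun x => g (fun _ => x) with hh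
    have h1 : ∀ x, x ≠ a → h x = o := fun x hx => hv _ fun _ => hx
    by_cases hva : h a = a
    · have he : h = E a o := by
        funext x
        by_cases hx : x = a
        · rw [hx, hva, E_self]
        · rw [h1 x hx, E_of_ne hx]
      rw [he] at hd
      exact E_ne_id h3 _ _ (not_both_un hz hd (E_in_z hz h3 hc ho.symm))
    · have h2 := un_comp hd hd
      have he : (fun x => h (h x)) = fun _ => o := by
        funext x
        by_cases hx : x = a
        · rw [hx]; exact h1 _ hva
        · rw [h1 x hx]; exact h1 _ ho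
      rw [he] at h2
      exact const_ne_id h3 o (not_both_un hz h2 (hc o))
  -- the operation f(y, x) = γ(x) if y = a, and o otherwise
  let f : (Fin (n + 1 + 1) → A) → A := fun x => if x 0 = a then γ (fun i => x i.succ) else o
  have hf : f ∈ z.ops (n + 1) := by
    apply hK (n + 1)
    right
    intro x hx
    show (if x 0 = a then _ else o) = o
    rw [if_neg (hx _)]
  let g : Fin (n + 1 + 1) → (Fin (n + 1) → A) → A :=
    fun i => Fin.cases (motive := fun _ => (Fin (n + 1) → A) → A) (fun _ => a) (fun j x => x j) i
  have h1 := z.comp_mem (n + 1) n f g hf (by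
    intro i
    refine Fin.cases ?_ (fun j => ?_) i
    · exact un_proj (hc a) 0
    · exact z.proj_mem n j)
  have h2 : (fun x : Fin (n + 1) → A => f (fun i => g i x)) = γ := by
    funext x
    show (if a = a then γ (fun i => x i) else o) = γ x
    rw [if_pos rfl]
  rw [h2] at h1
  exact h1

end Sides

/-- Every nonzero clone with a pseudocomplement contains all constants. -/
theorem cst_of_PCd (h3 : ∀ a b : A, ∃ c, c ≠ a ∧ c ≠ b) {u : Clone A} (hu : PCd u) (a : A) :
    u.un (fun _ => a) := by
  obtain ⟨hu0, z, hz⟩ := hu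
  rcases side_un hz (At_cst h3 a) with h | h
  · exact h
  exfalso
  have hc : ∀ b, z.un (fun _ => b) := by
    intro b
    by_contra hb
    rcases side_un hz (At_cst h3 b) with h' | h'
    · exact const_ne_id h3 a (not_both_un hz (cst_same hz h3 h') h)
    · exact hb h'
  have htop := case_two hz h3 hc
  exact hu0 (not_both hz le_rfl' (le_trans' (le_top' u) htop))

theorem E_of_PCd (h3 : ∀ a b : A, ∃ c, c ≠ a ∧ c ≠ b) {u : Clone A} (hu : PCd u) {p q : A}
    (hpq : p ≠ q) : u.un (E p q) := by
  have hc := cst_of_PCd h3 hu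
  obtain ⟨_, z, hz⟩ := hu
  exact E_in_u hz h3 hc hpq

/-- The clone of essentially unary operations has a pseudocomplement. -/
theorem PCd_unary (h2 : ∃ a b : A, a ≠ b) : PCd (unary A) := by
  obtain ⟨a, b, hab⟩ := h2
  refine ⟨?_, idem A, fun y => ⟨fun h => ?_, fun h => ?_⟩⟩
  · refine not_Bt_of_un (γ := fun _ => a) ⟨0, fun _ => a, rfl⟩ ?_
    intro h
    exact hab (congrFun h b)
  · intro n f hf x
    have h1 : y.un (fun a => f (fun _ => a)) := un_diag hf
    by_contra hne
    have h3 := h (gen (fun a => f (fun _ => a))) (gen_le.mpr h1)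
      (gen_le.mpr ⟨0, fun a => f (fun _ => a), rfl⟩)
    refine not_Bt_of_un (un_gen _) ?_ h3
    intro hid
    exact hne (congrFun hid x)
  · intro w hw1 hw2
    rw [Bt_iff]
    intro n f hf
    obtain ⟨i, γ, rfl⟩ := hw2 n hf
    refine ⟨i, ?_⟩
    funext x
    exact h n (hw1 n hf) (x i)

theorem Wd_cst (h3 : ∀ a b : A, ∃ c, c ≠ a ∧ c ≠ b) (a : A) : Wd (cst a) :=
  ⟨At_cst h3 a, fun _ hu => gen_le.mpr (cst_of_PCd h3 hu a)⟩

theorem Wd_E (h3 : ∀ a b : A, ∃ c, c ≠ a ∧ c ≠ b) {p q : A} (hpq : p ≠ q) : Wd (gen (E p q)) :=
  ⟨At_E h3 p q, fun _ hu => gen_le.mpr (E_of_PCd h3 hu hpq)⟩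

/-- Every clone satisfying `Wd` is generated by a unary function. -/
theorem exists_of_Wd (h2 : ∃ a b : A, a ≠ b) {x : Clone A} (hx : Wd x) :
    ∃ γ : A → A, γ ≠ id ∧ x = gen γ := by
  have h1 : x ≤ unary A := hx.2 _ (PCd_unary h2)
  by_cases h : ∃ γ : A → A, γ ≠ id ∧ x.un γ
  · obtain ⟨γ, hγ, hxγ⟩ := h
    exact ⟨γ, hγ, eq_gen_of_At hx.1 hxγ hγ⟩
  · exfalso
    push Not at h
    apply hx.1.1
    rw [Bt_iff]
    intro n f hf
    obtain ⟨i, γ, rfl⟩ := h1 n hf
    have h3 : γ = id := by
      by_contra hne
      exact h γ hne (un_diag hf)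
    exact ⟨i, by rw [h3]; rfl⟩

/-- iterates of `γ` and all constants -/
def Nc (γ : A → A) : Clone A where
  ops n := {f | (∃ (i : Fin (n + 1)) (k : ℕ), f = fun x => γ^[k] (x i)) ∨ ∃ a, f = fun _ => a}
  proj_mem n i := Or.inl ⟨i, 0, rfl⟩
  comp_mem m n f g := by
    rintro (⟨i, k, rfl⟩ | ⟨a, rfl⟩) hg
    · rcases hg i with ⟨j, l, hj⟩ | ⟨a, ha⟩
      · left
        refine ⟨j, k + l, ?_⟩
        funext x
        show γ^[k] (g i x) = _
        rw [hj, Function.iterate_add_apply]
      · right
        refine ⟨γ^[k] a, ?_⟩
        funext x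
        show γ^[k] (g i x) = _
        rw [ha]
    · exact Or.inr ⟨a, rfl⟩

theorem Atomistic_cst (h3 : ∀ a b : A, ∃ c, c ≠ a ∧ c ≠ b) (h2 : ∃ a b : A, a ≠ b) (a : A)
    {y : Clone A} (hy : Wd y) : Atomistic (cst a) y := by
  obtain ⟨γ, hγ, rfl⟩ := exists_of_Wd h2 hy
  intro v hv v' hv'
  have h1 : v ≤ Nc γ := hv (Nc γ) (gen_le.mpr (Or.inr ⟨a, rfl⟩)) (gen_le.mpr (Or.inl ⟨0, 1, rfl⟩))
  intro n f hf
  rcases h1 n hf with ⟨i, k, rfl⟩ | ⟨b, rfl⟩
  · by_cases hk : γ^[k] = id
    · rw [hk]; exact v'.proj_mem n i
    · have h4 : v.un (γ^[k]) := un_diag hf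
      have h5 : (gen γ).un (γ^[k]) := un_iter (un_gen γ) k
      have h6 : At (gen (γ^[k])) := by
        have := eq_gen_of_At hy.1 h5 hk
        rw [← this]
        exact hy.1
      have h7 := hv' _ h6 (gen_le.mpr h4)
      exact un_proj (gen_le.mp h7) i
  · have h4 : v.un (fun _ => b) := un_diag hf
    have h7 := hv' _ (At_cst h3 b) (gen_le.mpr h4)
    exact un_proj (gen_le.mp h7) 0

/-- Points for the non-atomistic interval. -/
theorem exists_pq (h3 : ∀ a b : A, ∃ c, c ≠ a ∧ c ≠ b) {γ : A → A} (hγ : γ ≠ id)
    (hc : ∀ a, γ ≠ fun _ => a) : ∃ p q, γ p ≠ p ∧ γ q ≠ p ∧ γ p ≠ γ q := by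
  by_contra hcon
  push Not at hcon
  -- for every moved point p, the image is contained in {p, γ p}
  obtain ⟨p, hp⟩ : ∃ p, γ p ≠ p := by
    by_contra h
    push Not at h
    exact hγ (funext h)
  have him : ∀ q, γ q = p ∨ γ q = γ p := by
    intro q
    by_cases h : γ q = p
    · exact Or.inl h
    · exact Or.inr (hcon p q hp h).symm
  obtain ⟨r, hr1, hr2⟩ := h3 p (γ p)
  have hr : γ r ≠ r := by
    rcases him r with h | h
    · rw [h]; exact hr1.symm
    · rw [h]; exact hr2.symm
  -- image of r-version
  have him2 : ∀ q, γ q = γ r := by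
    intro q
    have h1 : γ q ≠ r := by
      rcases him q with h | h
      · rw [h]; exact hr1.symm
      · rw [h]; exact hr2.symm
    exact (hcon r q hr h1).symm
  exact hc (γ r) (funext him2)

theorem Con_iff (h3 : ∀ a b : A, ∃ c, c ≠ a ∧ c ≠ b) (h2 : ∃ a b : A, a ≠ b) (x : Clone A) :
    Con x ↔ ∃ a, x = cst a := by
  constructor
  · rintro ⟨hx, hat⟩
    obtain ⟨γ, hγ, rfl⟩ := exists_of_Wd h2 hx
    by_contra hcon
    push Not at hcon
    have hc : ∀ a, γ ≠ fun _ => a := by
      intro a ha
      exact hcon a (by rw [ha])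
    obtain ⟨p, q, h1, h4, h5⟩ := exists_pq h3 hγ hc
    have hpq : p ≠ q := by
      rintro rfl
      exact h5 rfl
    have hA := hat _ (Wd_E h3 hpq)
    -- g = γ ∘ E p q
    set g : A → A := fun x => γ (E p q x) with hg
    have hgp : g p = γ p := by rw [hg]; show γ (E p q p) = _; rw [E_self]
    have hgo : ∀ x, x ≠ p → g x = γ q := by
      intro x hx
      rw [hg]; show γ (E p q x) = _; rw [E_of_ne hx]
    have hg2 : ∀ x, g (g x) = γ q := by
      intro x
      by_cases hx : x = p
      · rw [hx, hgp]; exact hgo _ h1
      · rw [hgo x hx]; exact hgo _ h4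
    have hit : ∀ k, g^[k + 2] = fun _ => γ q := by
      intro k
      induction k with
      | zero => funext x; exact hg2 x
      | succ k ih =>
        rw [Function.iterate_succ']
        funext x
        show g (g^[k + 2] x) = _
        rw [ih]
        exact hgo _ h4
    have hUB : UB (gen g) (gen γ) (gen (E p q)) := by
      intro w hw1 hw2
      exact gen_le.mpr (un_comp (gen_le.mp hw1) (gen_le.mp hw2))
    have hle := hA (gen g) hUB (cst (γ q)) (by
      intro t ht htg
      -- t is an atom below gen g
      by_cases hex : ∃ k, g^[k] ≠ id ∧ t.un (g^[k])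
      · obtain ⟨k, hk1, hk2⟩ := hex
        have hteq := eq_gen_of_At ht hk2 hk1
        match k, hk1, hk2, hteq with
        | 0, hk1, _, _ => exact absurd rfl hk1
        | 1, _, hk2, hteq =>
          -- then the constant is in t, and t = cst, so g is constant, contradiction
          exfalso
          have hk2' : t.un g := hk2
          have h6 : t.un (fun _ => γ q) := by
            have := un_comp hk2' hk2'
            have he : (fun a => g (g a)) = fun _ => γ q := funext hg2
            rw [he] at this
            exact this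
          have h7 := eq_gen_of_At ht h6 (const_ne_id h3 _)
          rw [h7] at hk2'
          obtain ⟨j, hj⟩ := un_gen_iff.mp hk2'
          cases j with
          | zero =>
            have : g q = q := congrFun hj q
            rw [hgo q hpq.symm] at this
            have h8 : g p = p := congrFun hj p
            rw [hgp] at h8
            exact h1 h8
          | succ j =>
            rw [Function.iterate_succ'] at hj
            have h8 : g p = γ q := congrFun hj p
            rw [hgp] at h8
            exact h5 h8
        | k + 2, _, _, hteq =>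
          rw [hteq, hit k]
          exact le_rfl'
      · exfalso
        push Not at hex
        apply ht.1
        rw [Bt_iff]
        intro n f hf
        obtain ⟨i, k, rfl⟩ := htg n hf
        by_cases hid : g^[k] = id
        · exact ⟨i, by rw [hid]; rfl⟩
        · exact absurd (un_diag hf) (hex k hid))
    have h6 : (cst (γ q)).un g := gen_le.mp hle
    obtain ⟨j, hj⟩ := un_gen_iff.mp h6
    cases j with
    | zero =>
      have h8 : g p = p := congrFun hj p
      rw [hgp] at h8
      exact h1 h8
    | succ j =>
      rw [Function.iterate_succ'] at hj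
      have h8 : g p = γ q := congrFun hj p
      rw [hgp] at h8
      exact h5 h8
  · rintro ⟨a, rfl⟩
    exact ⟨Wd_cst h3 a, fun y hy => Atomistic_cst h3 h2 a hy⟩

theorem cst_inj {a b : A} (h3 : ∀ a b : A, ∃ c, c ≠ a ∧ c ≠ b) (h : cst a ≤ cst b) : a = b := by
  obtain ⟨j, hj⟩ := un_gen_iff.mp (gen_le.mp h)
  cases j with
  | zero => exact absurd hj (const_ne_id h3 a)
  | succ j =>
    rw [Function.iterate_succ'] at hj
    exact congrFun hj a

/-- The closure relation: `cst b ≤ y ∨ cst a` iff some unary function in `y` maps `a` to `b`. -/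
theorem UB_cst_iff {a b : A} {y : Clone A} :
    UB (cst b) y (cst a) ↔ ∃ γ, y.un γ ∧ γ a = b := by
  constructor
  · intro h
    let S : Set A := {c | ∃ γ, y.un γ ∧ γ a = c}
    have h1 : y ≤ pol S := by
      intro n f hf x hx
      choose δ hδ1 hδ2 using hx
      refine ⟨fun c => f (fun i => δ i c), ?_, ?_⟩
      · have := y.comp_mem n 0 f (fun i x => δ i (x 0)) hf (fun i => hδ1 i)
        exact this
      · show f (fun i => δ i a) = f x
        congr 1
        funext i
        exact hδ2 i
    have h2 : cst a ≤ pol S := by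
      rw [gen_le]
      intro x _
      exact ⟨id, un_id y, rfl⟩
    have h3 := h (pol S) h1 h2
    rw [gen_le] at h3
    exact h3 (fun _ => a) (fun _ => ⟨id, un_id y, rfl⟩)
  · rintro ⟨γ, hγ, rfl⟩ w hw1 hw2
    rw [gen_le] at hw2 ⊢
    exact un_comp (un_mono hw1 hγ) hw2

end Clone

end Pool.Agent.W_MP_2972c3_al
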