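import Pool.Agent.W_MP_2972c3_al.OrderDef
import Pool.Agent.W_MP_2972c3_al.Coding

set_option autoImplicit false
set_option linter.unusedVariables false

/-! ### Definability of the order predicates -/

namespace Pool.Agent.W_MP_2972c3_al

universe u

namespace Def

variable {Γ : Type}

theorem bt (a : Γ) : Def.{u} Γ (fun L _ v => Bt (v a)) :=
  Def.all (R := fun L _ v y => v a ≤ y) (Def.le _ _)

theorem dj (a b : Γ) : Def.{u} Γ (fun L _ v => Dj (v a) (v b)) :=
  Def.all (R := fun L _ v w => w ≤ v a → w ≤ v b → Bt w)
    ((Def.le _ _).imp ((Def.le _ _).imp (Def.bt _)))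

end Def

namespace Def

variable {Γ : Type}

theorem pcd (a : Γ) : Def.{u} Γ (fun L _ v => PCd (v a)) := by
  unfold PCd
  repeat
    first
    | exact Def.le _ _
    | exact Def.fls
    | exact Def.bt _
    | exact Def.dj _ _
    | apply Def.not
    | apply Def.and
    | apply Def.or
    | apply Def.iff
    | apply Def.imp
    | apply Def.all
    | apply Def.ex

theorem at' (a : Γ) : Def.{u} Γ (fun L _ v => At (v a)) := by
  unfold At
  repeat
    first
    | exact Def.le _ _
    | exact Def.fls
    | exact Def.bt _
    | exact Def.dj _ _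
    | apply Def.not
    | apply Def.and
    | apply Def.or
    | apply Def.iff
    | apply Def.imp
    | apply Def.all
    | apply Def.ex

theorem ub (a b c : Γ) : Def.{u} Γ (fun L _ v => UB (v a) (v b) (v c)) := by
  unfold UB
  repeat
    first
    | exact Def.le _ _
    | exact Def.fls
    | exact Def.bt _
    | exact Def.dj _ _
    | apply Def.not
    | apply Def.and
    | apply Def.or
    | apply Def.iff
    | apply Def.imp
    | apply Def.all
    | apply Def.ex

end Def

namespace Def

variable {Γ : Type}

theorem wd (a : Γ) : Def.{u} Γ (fun L _ v => Wd (v a)) := by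
  unfold Wd
  repeat
    first
    | exact Def.pcd _
    | exact Def.at' _
    | exact Def.ub _ _ _
    | exact Def.le _ _
    | exact Def.fls
    | exact Def.bt _
    | exact Def.dj _ _
    | apply Def.not
    | apply Def.and
    | apply Def.or
    | apply Def.iff
    | apply Def.imp
    | apply Def.all
    | apply Def.ex

theorem atomistic (a b : Γ) : Def.{u} Γ (fun L _ v => Atomistic (v a) (v b)) := by
  unfold Atomistic
  repeat
    first
    | exact Def.pcd _
    | exact Def.at' _
    | exact Def.ub _ _ _
    | exact Def.le _ _
    | exact Def.fls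
    | exact Def.bt _
    | exact Def.dj _ _
    | apply Def.not
    | apply Def.and
    | apply Def.or
    | apply Def.iff
    | apply Def.imp
    | apply Def.all
    | apply Def.ex

theorem con (a : Γ) : Def.{u} Γ (fun L _ v => Con (v a)) := by
  unfold Con
  repeat
    first
    | exact Def.wd _
    | exact Def.atomistic _ _
    | exact Def.pcd _
    | exact Def.at' _
    | exact Def.ub _ _ _
    | exact Def.le _ _
    | exact Def.fls
    | exact Def.bt _
    | exact Def.dj _ _
    | apply Def.not
    | apply Def.and
    | apply Def.or
    | apply Def.iff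
    | apply Def.imp
    | apply Def.all
    | apply Def.ex

theorem fixd (a b : Γ) : Def.{u} Γ (fun L _ v => Fixd (v a) (v b)) := by
  unfold Fixd
  repeat
    first
    | exact Def.con _
    | exact Def.pcd _
    | exact Def.at' _
    | exact Def.ub _ _ _
    | exact Def.le _ _
    | exact Def.fls
    | exact Def.bt _
    | exact Def.dj _ _
    | apply Def.not
    | apply Def.and
    | apply Def.or
    | apply Def.iff
    | apply Def.imp
    | apply Def.all
    | apply Def.ex

theorem val (a b c : Γ) : Def.{u} Γ (fun L _ v => Val (v a) (v b) (v c)) := by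
  unfold Val
  repeat
    first
    | exact Def.fixd _ _
    | exact Def.pcd _
    | exact Def.at' _
    | exact Def.ub _ _ _
    | exact Def.le _ _
    | exact Def.fls
    | exact Def.bt _
    | exact Def.dj _ _
    | apply Def.not
    | apply Def.and
    | apply Def.or
    | apply Def.iff
    | apply Def.imp
    | apply Def.all
    | apply Def.ex

theorem retr (a : Γ) : Def.{u} Γ (fun L _ v => Retr (v a)) := by
  unfold Retr
  repeat
    first
    | exact Def.con _
    | exact Def.fixd _ _
    | exact Def.pcd _
    | exact Def.at' _
    | exact Def.ub _ _ _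
    | exact Def.le _ _
    | exact Def.fls
    | exact Def.bt _
    | exact Def.dj _ _
    | apply Def.not
    | apply Def.and
    | apply Def.or
    | apply Def.iff
    | apply Def.imp
    | apply Def.all
    | apply Def.ex

end Def

namespace Def

variable {Γ : Type}

theorem sysO (e1 e2 e3 d : Γ) : Def.{u} Γ (fun L _ v => SysO (v e1) (v e2) (v e3) (v d)) := by
  unfold SysO
  repeat
    first
    | exact Def.con _
    | exact Def.fixd _ _
    | exact Def.val _ _ _
    | exact Def.retr _
    | exact Def.pcd _
    | exact Def.at' _
    | exact Def.ub _ _ _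
    | exact Def.le _ _
    | exact Def.fls
    | exact Def.bt _
    | exact Def.dj _ _
    | apply Def.not
    | apply Def.and
    | apply Def.or
    | apply Def.iff
    | apply Def.imp
    | apply Def.all
    | apply Def.ex

theorem pr (e1 e2 e3 a b w : Γ) :
    Def.{u} Γ (fun L _ v => Pr (v e1) (v e2) (v e3) (v a) (v b) (v w)) := by
  unfold Pr
  repeat
    first
    | exact Def.con _
    | exact Def.fixd _ _
    | exact Def.val _ _ _
    | exact Def.retr _
    | exact Def.pcd _
    | exact Def.at' _
    | exact Def.ub _ _ _
    | exact Def.le _ _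
    | exact Def.fls
    | exact Def.bt _
    | exact Def.dj _ _
    | apply Def.not
    | apply Def.and
    | apply Def.or
    | apply Def.iff
    | apply Def.imp
    | apply Def.all
    | apply Def.ex

theorem tc (n : ℕ) : ∀ {Γ : Type} (e1 e2 e3 d : Γ) (t : Fin n → Γ) (w : Γ),
    Def.{u} Γ (fun L _ v => TC (v e1) (v e2) (v e3) (v d) n (fun i => v (t i)) (v w)) := by
  induction n with
  | zero =>
    intro Γ e1 e2 e3 d t w
    exact (Def.le _ _).and (Def.le _ _)
  | succ n ih =>
    intro Γ e1 e2 e3 d t w
    refine Def.ex (R := fun L _ v w' => Con w' ∧ Fixd (v e1) w' ∧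
      TC (v e1) (v e2) (v e3) (v d) n (fun i => v (t i.succ)) w' ∧
      Pr (v e1) (v e2) (v e3) (v (t 0)) w' (v w)) ?_
    refine (Def.con _).and ((Def.fixd _ _).and (Def.and ?_ (Def.pr _ _ _ _ _ _)))
    exact ih (some e1) (some e2) (some e3) (some d) (fun i => some (t i.succ)) none

theorem it (n : ℕ) : ∀ {Γ : Type} (e1 e2 e3 d : Γ) (w : Γ),
    Def.{u} Γ (fun L _ v => IT (v e1) (v e2) (v e3) (v d) n (v w)) := by
  induction n with
  | zero =>
    intro Γ e1 e2 e3 d w
    exact (Def.le _ _).and (Def.le _ _)
  | succ n ih =>
    intro Γ e1 e2 e3 d w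
    refine Def.ex (R := fun L _ v a => Con a ∧ Fixd (v e1) a ∧ ∃ w' : L, Con w' ∧ Fixd (v e1) w' ∧
      IT (v e1) (v e2) (v e3) (v d) n w' ∧ Pr (v e1) (v e2) (v e3) a w' (v w)) ?_
    refine (Def.con _).and ((Def.fixd _ _).and (Def.ex ((Def.con _).and ((Def.fixd _ _).and
      (Def.and (ih _ _ _ _ _) (Def.pr _ _ _ _ _ _))))))

theorem par (e1 e3 w : Γ) : Def.{u} Γ (fun L _ v => Par (v e1) (v e3) (v w)) := by
  unfold Par
  repeat
    first
    | exact Def.con _
    | exact Def.fixd _ _
    | exact Def.val _ _ _
    | exact Def.retr _
    | exact Def.pcd _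
    | exact Def.at' _
    | exact Def.ub _ _ _
    | exact Def.le _ _
    | exact Def.fls
    | exact Def.bt _
    | exact Def.dj _ _
    | apply Def.not
    | apply Def.and
    | apply Def.or
    | apply Def.iff
    | apply Def.imp
    | apply Def.all
    | apply Def.ex

theorem isCode (n : ℕ) (e1 e2 e3 d y w : Γ) :
    Def.{u} Γ (fun L _ v => IsCode (v e1) (v e2) (v e3) (v d) n (v y) (v w)) := by
  unfold IsCode
  repeat
    first
    | exact Def.it _ _ _ _ _ _
    | exact Def.par _ _ _
    | exact Def.con _
    | exact Def.fixd _ _
    | exact Def.val _ _ _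
    | exact Def.retr _
    | exact Def.pcd _
    | exact Def.at' _
    | exact Def.ub _ _ _
    | exact Def.le _ _
    | exact Def.fls
    | exact Def.bt _
    | exact Def.dj _ _
    | apply Def.not
    | apply Def.and
    | apply Def.or
    | apply Def.iff
    | apply Def.imp
    | apply Def.all
    | apply Def.ex

/-- quantification over a named variable -/
theorem allv [DecidableEq Γ] {R : ∀ (L : Type u) [LE L], (Γ → L) → Prop} (x : Γ) (h : Def Γ R) :
    Def Γ (fun L _ v => ∀ a, R L (Function.update v x a)) := by
  refine Def.all (R := fun L _ v a => R L (Function.update v x a)) ?_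
  refine (Def.relabel h (fun g => if g = x then none else some g)).congr fun L _ v => ?_
  have : (fun g => v (if g = x then none else some g)) =
      Function.update (fun g => v (some g)) x (v none) := by
    funext g
    by_cases hg : g = x
    · subst hg; simp
    · simp [hg]
  rw [this]

end Def

end Pool.Agent.W_MP_2972c3_al
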