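import Mathlib

set_option autoImplicit false

namespace Pool.Agent.W_MP_2972c3_al

universe u

/-- A (functional) clone on the set `A`: for each `n`, `ops n` is the set of the operations of
arity `n + 1` in the clone; all projections belong to the clone, and it is closed under
composition. -/
structure Clone (A : Type u) where
  /-- the operations of arity `n + 1` -/
  ops : ∀ n : ℕ, Set ((Fin (n + 1) → A) → A)
  proj_mem : ∀ (n : ℕ) (i : Fin (n + 1)), (fun x => x i) ∈ ops n
  comp_mem : ∀ (m n : ℕ) (f : (Fin (m + 1) → A) → A) (g : Fin (m + 1) → (Fin (n + 1) → A) → A),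
    f ∈ ops m → (∀ i, g i ∈ ops n) → (fun x => f (fun i => g i x)) ∈ ops n

/-- Clones are ordered by inclusion. -/
instance (A : Type u) : LE (Clone A) := ⟨fun C D => ∀ n, C.ops n ⊆ D.ops n⟩

/-- The formulas of pure third-order logic. There are three sorts of variables: individual
variables `x i`, second-order variables `X n k` for `n`-ary relations, and third-order variables
`𝒳 n k` for sets of `n`-ary relations (`i`, `n`, `k` are natural numbers). -/
inductive Fml : Type
  /-- the false formula -/
  | falsum : Fml
  /-- `x i = x j` -/
  | eq (i j : ℕ) : Fml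
  /-- `X n k (x (t 0), …, x (t (n - 1)))` -/
  | rel (n k : ℕ) (t : Fin n → ℕ) : Fml
  /-- `X n k ∈ 𝒳 n l` -/
  | mem (n k l : ℕ) : Fml
  /-- implication -/
  | imp (φ ψ : Fml) : Fml
  /-- `∀ x i, φ` -/
  | all₁ (i : ℕ) (φ : Fml) : Fml
  /-- `∀ X n k, φ` -/
  | all₂ (n k : ℕ) (φ : Fml) : Fml
  /-- `∀ 𝒳 n k, φ` -/
  | all₃ (n k : ℕ) (φ : Fml) : Fml

/-- Values in the set `A` for all variables. -/
structure Assignment (A : Type u) where
  /-- values of the individual variables -/
  pt : ℕ → A
  /-- values of the second-order variables -/
  rel : (n : ℕ) → ℕ → Set (Fin n → A)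
  /-- values of the third-order variables -/
  fam : (n : ℕ) → ℕ → Set (Set (Fin n → A))

namespace Assignment

variable {A : Type u}

/-- give the value `a` to the variable `x i` -/
def setPt (s : Assignment A) (i : ℕ) (a : A) : Assignment A :=
  { s with pt := Function.update s.pt i a }

/-- give the value `X` to the variable `X n k` -/
def setRel (s : Assignment A) (n k : ℕ) (X : Set (Fin n → A)) : Assignment A :=
  { s with rel := Function.update s.rel n (Function.update (s.rel n) k X) }

/-- give the value `Y` to the variable `𝒳 n k` -/
def setFam (s : Assignment A) (n k : ℕ) (Y : Set (Set (Fin n → A))) : Assignment A :=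
  { s with fam := Function.update s.fam n (Function.update (s.fam n) k Y) }

end Assignment

/-- Truth of a formula under an assignment; the quantifiers range over all elements of `A`, all
`n`-ary relations on `A`, and all sets of `n`-ary relations on `A`. -/
def Sat {A : Type u} : Fml → Assignment A → Prop
  | .falsum, _ => False
  | .eq i j, s => s.pt i = s.pt j
  | .rel n k t, s => (fun m : Fin n => s.pt (t m)) ∈ s.rel n k
  | .mem n k l, s => s.rel n k ∈ s.fam n l
  | .imp φ ψ, s => Sat φ s → Sat ψ s
  | .all₁ i φ, s => ∀ a : A, Sat φ (s.setPt i a)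
  | .all₂ n k φ, s => ∀ X : Set (Fin n → A), Sat φ (s.setRel n k X)
  | .all₃ n k φ, s => ∀ Y : Set (Set (Fin n → A)), Sat φ (s.setFam n k Y)

/-- The sets `A` and `B` are third-order equivalent: every formula of pure third-order logic (with
its free variables universally quantified) is true in `A` if and only if it is true in `B`. -/
def ThirdOrderEquiv (A B : Type u) : Prop :=
  ∀ φ : Fml, (∀ s : Assignment A, Sat φ s) ↔ (∀ s : Assignment B, Sat φ s)

end Pool.Agent.W_MP_2972c3_al
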