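import Pool.Agent.W_MP_2972c3_al.TDef

set_option autoImplicit false
set_option linter.unusedVariables false

/-! ### Coding finite sequences by points in third-order logic, and clones by families of binary
relations -/

namespace Pool.Agent.W_MP_2972c3_al

universe u

section Preds

variable {A : Type u} (H Tl : A → A → Prop) (e : A)

/-- `e` is the code of the empty list, `H` is the head relation, and `Tl` is the tail relation of a
coding of all lists by points -/
def Valid : Prop :=
  (∀ x y, ∃ z, H z x ∧ Tl z y) ∧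
  (∀ z z' x y, H z x → Tl z y → H z' x → Tl z' y → z = z') ∧
  (∀ z x x', H z x → H z x' → x = x') ∧
  (∀ z y y', Tl z y → Tl z y' → y = y') ∧
  (∀ x, ¬ H e x) ∧
  (∀ z y, Tl z y → ∃ x, H z x) ∧
  (∀ r : A → A → Prop, r e e → (∀ z y, Tl z y → r y y → r z z) → ∀ z, r z z)

/-- the coded lists have the same length -/
def SameLen (s t : A) : Prop :=
  ∀ r : A → A → Prop, r e e → (∀ s t s' t', Tl s s' → Tl t t' → r s' t' → r s t) → r s t

/-- `T` is the relation of having a given `k`-th entry, for some `k` -/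
def Entry (T : A → A → Prop) : Prop :=
  ∀ Y : (A → A → Prop) → Prop, Y H →
    (∀ U Z, Y U → (∀ s b, Z s b ↔ ∃ s', Tl s s' ∧ U s' b) → Y Z) → Y T

/-- `X` codes an operation -/
def IsOp (X : A → A → Prop) : Prop :=
  ∃ y, y ≠ e ∧ (∀ s b, X s b → SameLen Tl e s y) ∧ (∀ s, SameLen Tl e s y → ∃ b, X s b) ∧
    ∀ s b b', X s b → X s b' → b = b'

/-- `𝒳` codes a clone -/
def IsClone (𝒳 : (A → A → Prop) → Prop) : Prop :=
  (∀ X, 𝒳 X → IsOp Tl e X) ∧
  (∀ T, Entry H Tl T → ∀ y, (∃ b, T y b) → ∀ X, (∀ s b, X s b ↔ (SameLen Tl e s y ∧ T s b)) → 𝒳 X) ∧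
  (∀ F, 𝒳 F → ∀ t₀, (∃ b, F t₀ b) → ∀ G : A → A → Prop, (∀ s t, G s t → SameLen Tl e t t₀) →
    (∀ T, Entry H Tl T → (∃ b, T t₀ b) → ∀ Y, (∀ s b, Y s b ↔ ∃ t, G s t ∧ T t b) → 𝒳 Y) →
    ∀ Z, (∀ s b, Z s b ↔ ∃ t, G s t ∧ F t b) → 𝒳 Z)

end Preds

namespace TDef

variable {P Q F : Type}

theorem valid [Finite P] [Finite Q] (H Tl : Q) (e : P) :
    TDef.{u} P Q F (fun A v r f => Valid (r H) (r Tl) (v e)) := by
  unfold Valid
  repeat
    first
    | exact TDef.eq _ _
    | exact TDef.rel _ _ _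
    | exact TDef.mem _ _
    | exact TDef.fls
    | apply TDef.not
    | apply TDef.and
    | apply TDef.or
    | apply TDef.iff
    | apply TDef.imp
    | apply TDef.allP
    | apply TDef.exP
    | apply TDef.allQ
    | apply TDef.exQ
    | apply TDef.allF
    | apply TDef.exF

theorem sameLen [Finite P] [Finite Q] (Tl : Q) (e s t : P) :
    TDef.{u} P Q F (fun A v r f => SameLen (r Tl) (v e) (v s) (v t)) := by
  unfold SameLen
  repeat
    first
    | exact TDef.eq _ _
    | exact TDef.rel _ _ _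
    | exact TDef.mem _ _
    | exact TDef.fls
    | apply TDef.not
    | apply TDef.and
    | apply TDef.or
    | apply TDef.iff
    | apply TDef.imp
    | apply TDef.allP
    | apply TDef.exP
    | apply TDef.allQ
    | apply TDef.exQ
    | apply TDef.allF
    | apply TDef.exF

theorem entry [Finite P] [Finite Q] [Finite F] (H Tl T : Q) :
    TDef.{u} P Q F (fun A v r f => Entry (r H) (r Tl) (r T)) := by
  unfold Entry
  repeat
    first
    | exact TDef.eq _ _
    | exact TDef.rel _ _ _
    | exact TDef.mem _ _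
    | exact TDef.fls
    | apply TDef.not
    | apply TDef.and
    | apply TDef.or
    | apply TDef.iff
    | apply TDef.imp
    | apply TDef.allP
    | apply TDef.exP
    | apply TDef.allQ
    | apply TDef.exQ
    | apply TDef.allF
    | apply TDef.exF

theorem isOp [Finite P] [Finite Q] (Tl X : Q) (e : P) :
    TDef.{u} P Q F (fun A v r f => IsOp (r Tl) (v e) (r X)) := by
  unfold IsOp
  repeat
    first
    | exact TDef.sameLen _ _ _ _
    | exact TDef.eq _ _
    | exact TDef.rel _ _ _
    | exact TDef.mem _ _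
    | exact TDef.fls
    | apply TDef.not
    | apply TDef.and
    | apply TDef.or
    | apply TDef.iff
    | apply TDef.imp
    | apply TDef.allP
    | apply TDef.exP
    | apply TDef.allQ
    | apply TDef.exQ
    | apply TDef.allF
    | apply TDef.exF

theorem isClone [Finite P] [Finite Q] [Finite F] (H Tl : Q) (e : P) (𝒳 : F) :
    TDef.{u} P Q F (fun A v r f => IsClone (r H) (r Tl) (v e) (f 𝒳)) := by
  unfold IsClone
  repeat
    first
    | exact TDef.sameLen _ _ _ _
    | exact TDef.entry _ _ _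
    | exact TDef.isOp _ _ _
    | exact TDef.eq _ _
    | exact TDef.rel _ _ _
    | exact TDef.mem _ _
    | exact TDef.fls
    | apply TDef.not
    | apply TDef.and
    | apply TDef.or
    | apply TDef.iff
    | apply TDef.imp
    | apply TDef.allP
    | apply TDef.exP
    | apply TDef.allQ
    | apply TDef.exQ
    | apply TDef.allF
    | apply TDef.exF

end TDef

/-! ### Semantics -/

section Sem

variable {A : Type u} {H Tl : A → A → Prop} {e : A}

/-- `c` is the coding of lists described by `H`, `Tl`, `e` -/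
structure Good (H Tl : A → A → Prop) (e : A) (c : List A ≃ A) : Prop where
  nil : e = c []
  hd : ∀ l x, H (c l) x ↔ ∃ l', l = x :: l'
  tl : ∀ l l', Tl (c l) (c l') ↔ ∃ x, l = x :: l'

theorem Valid.exists_good (h : Valid H Tl e) : ∃ c : List A ≃ A, Good H Tl e c := by
  obtain ⟨v1, v2, v3, v4, v5, v6, v7⟩ := h
  choose cons hcH hcT using v1
  let c : List A → A := List.foldr cons e
  have hnil : c [] = e := rfl
  have hcons : ∀ x l, c (x :: l) = cons x (c l) := fun x l => rfl
  have hinj : ∀ l l', c l = c l' → l = l' := by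
    intro l
    induction l with
    | nil =>
      intro l' h
      cases l' with
      | nil => rfl
      | cons x l' =>
        exfalso
        apply v5 x
        rw [← hnil, h, hcons]
        exact hcH _ _
    | cons x l ih =>
      intro l' h
      cases l' with
      | nil =>
        exfalso
        apply v5 x
        rw [← hnil, ← h, hcons]
        exact hcH _ _
      | cons x' l' =>
        rw [hcons, hcons] at h
        have h1 : x = x' := v3 _ _ _ (hcH x (c l)) (by rw [h]; exact hcH _ _)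
        have h2 : c l = c l' := v4 _ _ _ (hcT x (c l)) (by rw [h]; exact hcT _ _)
        rw [h1, ih l' h2]
  have hsurj : Function.Surjective c := by
    refine v7 (fun z _ => ∃ l, c l = z) ⟨[], rfl⟩ ?_
    rintro z y hzy ⟨l, rfl⟩
    obtain ⟨x, hx⟩ := v6 z _ hzy
    exact ⟨x :: l, v2 _ _ _ _ (hcH x (c l)) (hcT x (c l)) hx hzy⟩
  refine ⟨Equiv.ofBijective c ⟨fun l l' h => hinj l l' h, hsurj⟩, rfl, ?_, ?_⟩
  · intro l x
    show H (c l) x ↔ _
    cases l with
    | nil =>
      constructor
      · intro h; exact absurd h (v5 x)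
      · rintro ⟨l', h⟩; simp at h
    | cons x' l =>
      constructor
      · intro h
        have h1 : x' = x := v3 _ _ _ (hcH x' (c l)) h
        exact ⟨l, by rw [h1]⟩
      · rintro ⟨l', h⟩
        simp only [List.cons.injEq] at h
        rw [hcons, h.1]
        exact hcH _ _
  · intro l l'
    show Tl (c l) (c l') ↔ _
    cases l with
    | nil =>
      constructor
      · intro h
        obtain ⟨x, hx⟩ := v6 _ _ h
        exact absurd hx (v5 x)
      · rintro ⟨l', h⟩; simp at h
    | cons x' l =>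
      constructor
      · intro h
        have h1 : c l = c l' := v4 _ _ _ (hcT x' (c l)) h
        exact ⟨x', by rw [hinj _ _ h1]⟩
      · rintro ⟨x, h⟩
        simp only [List.cons.injEq] at h
        rw [hcons, h.2]
        exact hcT _ _

theorem Good.valid {c : List A ≃ A} (g : Good H Tl e c) : Valid H Tl e := by
  have hex : ∀ z, ∃ l, z = c l := fun z => ⟨c.symm z, by simp⟩
  refine ⟨?_, ?_, ?_, ?_, ?_, ?_, ?_⟩
  · intro x y
    obtain ⟨l, rfl⟩ := hex y
    exact ⟨c (x :: l), (g.hd _ _).mpr ⟨l, rfl⟩, (g.tl _ _).mpr ⟨x, rfl⟩⟩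
  · intro z z' x y h1 h2 h3 h4
    obtain ⟨l, rfl⟩ := hex y
    obtain ⟨m, rfl⟩ := hex z
    obtain ⟨m', rfl⟩ := hex z'
    obtain ⟨p, rfl⟩ := (g.hd _ _).mp h1
    obtain ⟨p', rfl⟩ := (g.hd _ _).mp h3
    obtain ⟨q, hq⟩ := (g.tl _ _).mp h2
    obtain ⟨q', hq'⟩ := (g.tl _ _).mp h4
    simp only [List.cons.injEq] at hq hq'
    rw [hq.2, hq'.2]
  · intro z x x' h h'
    obtain ⟨m, rfl⟩ := hex z
    obtain ⟨p, rfl⟩ := (g.hd _ _).mp h
    obtain ⟨p', hp'⟩ := (g.hd _ _).mp h'
    simp only [List.cons.injEq] at hp'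
    exact hp'.1
  · intro z y y' h h'
    obtain ⟨m, rfl⟩ := hex z
    obtain ⟨l, rfl⟩ := hex y
    obtain ⟨l', rfl⟩ := hex y'
    obtain ⟨p, rfl⟩ := (g.tl _ _).mp h
    obtain ⟨p', hp'⟩ := (g.tl _ _).mp h'
    simp only [List.cons.injEq] at hp'
    rw [hp'.2]
  · intro x h
    rw [g.nil] at h
    obtain ⟨p, hp⟩ := (g.hd _ _).mp h
    simp at hp
  · intro z y h
    obtain ⟨m, rfl⟩ := hex z
    obtain ⟨l, rfl⟩ := hex y
    obtain ⟨p, rfl⟩ := (g.tl _ _).mp h
    exact ⟨p, (g.hd _ _).mpr ⟨l, rfl⟩⟩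
  · intro r h0 h1 z
    obtain ⟨l, rfl⟩ := hex z
    induction l with
    | nil => rw [← g.nil]; exact h0
    | cons x l ih => exact h1 _ _ ((g.tl _ _).mpr ⟨x, rfl⟩) ih

/-- the canonical relations of a bijection -/
theorem exists_Good (c : List A ≃ A) : ∃ H Tl e, Good H Tl e c := by
  refine ⟨fun z x => ∃ l', c.symm z = x :: l', fun z y => ∃ x, c.symm z = x :: c.symm y, c [], rfl,
    ?_, ?_⟩
  · intro l x
    simp
  · intro l l'
    simp

theorem sameLen_iff {c : List A ≃ A} (g : Good H Tl e c) (l l' : List A) :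
    SameLen Tl e (c l) (c l') ↔ l.length = l'.length := by
  have hex : ∀ z, ∃ l, z = c l := fun z => ⟨c.symm z, by simp⟩
  constructor
  · intro h
    have := h (fun s t => (c.symm s).length = (c.symm t).length) rfl ?_
    · simpa using this
    · intro s t s' t' hs ht hst
      obtain ⟨l, rfl⟩ := hex s
      obtain ⟨l', rfl⟩ := hex s'
      obtain ⟨m, rfl⟩ := hex t
      obtain ⟨m', rfl⟩ := hex t'
      obtain ⟨x, rfl⟩ := (g.tl _ _).mp hs
      obtain ⟨y, rfl⟩ := (g.tl _ _).mp ht
      simp at hst ⊢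
      exact hst
  · intro h r h0 h1
    induction l generalizing l' with
    | nil =>
      have : l' = [] := by
        cases l' with
        | nil => rfl
        | cons => simp at h
      rw [this, ← g.nil]
      exact h0
    | cons x l ih =>
      cases l' with
      | nil => simp at h
      | cons x' l' =>
        simp at h
        exact h1 _ _ _ _ ((g.tl _ _).mpr ⟨x, rfl⟩) ((g.tl _ _).mpr ⟨x', rfl⟩) (ih l' h)

theorem entry_iff {c : List A ≃ A} (g : Good H Tl e c) (T : A → A → Prop) :
    Entry H Tl T ↔ ∃ k : ℕ, ∀ l b, T (c l) b ↔ l[k]? = some b := by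
  have hex : ∀ z, ∃ l, z = c l := fun z => ⟨c.symm z, by simp⟩
  have hH : ∀ l b, H (c l) b ↔ l[0]? = some b := by
    intro l b
    rw [g.hd]
    cases l with
    | nil => simp
    | cons x l => simp [eq_comm]
  have hshift : ∀ (k : ℕ) (U Z : A → A → Prop), (∀ l b, U (c l) b ↔ l[k]? = some b) →
      (∀ s b, Z s b ↔ ∃ s', Tl s s' ∧ U s' b) → ∀ l b, Z (c l) b ↔ l[k + 1]? = some b := by
    intro k U Z hU hZ l b
    rw [hZ]
    constructor
    · rintro ⟨s', h1, h2⟩
      obtain ⟨l', rfl⟩ := hex s'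
      obtain ⟨x, rfl⟩ := (g.tl _ _).mp h1
      rw [hU] at h2
      simpa using h2
    · intro h
      cases l with
      | nil => simp at h
      | cons x l =>
        refine ⟨c l, (g.tl _ _).mpr ⟨x, rfl⟩, ?_⟩
        rw [hU]
        simpa using h
  constructor
  · intro h
    refine h (fun T => ∃ k : ℕ, ∀ l b, T (c l) b ↔ l[k]? = some b) ⟨0, hH⟩ ?_
    rintro U Z ⟨k, hk⟩ hZ
    exact ⟨k + 1, hshift k U Z hk hZ⟩
  · rintro ⟨k, hk⟩
    intro Y hY0 hY1
    induction k generalizing T with
    | zero =>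
      have : T = H := by
        funext s b
        obtain ⟨l, rfl⟩ := hex s
        exact propext ((hk l b).trans (hH l b).symm)
      rw [this]; exact hY0
    | succ k ih =>
      refine hY1 (fun s b => (c.symm s)[k]? = some b) T (ih _ (fun l b => by simp)) ?_
      intro s b
      obtain ⟨l, rfl⟩ := hex s
      rw [hk]
      exact (hshift k (fun s b => (c.symm s)[k]? = some b)
        (fun s b => ∃ s', Tl s s' ∧ (c.symm s')[k]? = some b) (fun l b => by simp)
        (fun s b => Iff.rfl) l b).symm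

theorem ofFn_get? {n : ℕ} (x : Fin n → A) (k : ℕ) (hk : k < n) :
    (List.ofFn x)[k]? = some (x ⟨k, hk⟩) := by
  rw [List.getElem?_ofFn, dif_pos hk]

/-- the code of an operation -/
def graph (c : List A ≃ A) (n : ℕ) (f : (Fin (n + 1) → A) → A) : A → A → Prop :=
  fun s b => ∃ x : Fin (n + 1) → A, s = c (List.ofFn x) ∧ b = f x

theorem graph_apply (c : List A ≃ A) {n : ℕ} (f : (Fin (n + 1) → A) → A) (x : Fin (n + 1) → A)
    (b : A) : graph c n f (c (List.ofFn x)) b ↔ b = f x := by
  constructor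
  · rintro ⟨y, h1, h2⟩
    have : x = y := List.ofFn_injective (c.injective h1)
    rw [this]; exact h2
  · intro h
    exact ⟨x, rfl, h⟩

theorem exists_ofFn {m : ℕ} (l : List A) (h : l.length = m) : ∃ x : Fin m → A, l = List.ofFn x := by
  subst h
  exact ⟨l.get, (List.ofFn_get l).symm⟩

theorem graph_len (c : List A ≃ A) {n m : ℕ} {f : (Fin (n + 1) → A) → A}
    {g : (Fin (m + 1) → A) → A} (h : graph c n f = graph c m g) : n = m := by
  have a : A := c []
  have h1 : graph c n f (c (List.ofFn fun _ => a)) (f fun _ => a) := (graph_apply c f _ _).mpr rfl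
  rw [h] at h1
  obtain ⟨x, hx, _⟩ := h1
  have := congrArg List.length (c.injective hx)
  simpa using this

theorem graph_inj (c : List A ≃ A) {n : ℕ} {f g : (Fin (n + 1) → A) → A}
    (h : graph c n f = graph c n g) : f = g := by
  funext x
  have h1 : graph c n f (c (List.ofFn x)) (f x) := (graph_apply c f _ _).mpr rfl
  rw [h, graph_apply] at h1
  exact h1

theorem isOp_iff {c : List A ≃ A} (g : Good H Tl e c) (X : A → A → Prop) :
    IsOp Tl e X ↔ ∃ n f, X = graph c n f := by
  have hex : ∀ z, ∃ l, z = c l := fun z => ⟨c.symm z, by simp⟩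
  constructor
  · rintro ⟨y, hy, h1, h2, h3⟩
    obtain ⟨l, rfl⟩ := hex y
    have hl : l ≠ [] := by
      rintro rfl
      exact hy g.nil.symm
    obtain ⟨n, hn⟩ : ∃ n, l.length = n + 1 := by
      cases l with
      | nil => exact absurd rfl hl
      | cons x l => exact ⟨l.length, rfl⟩
    have h4 : ∀ x : Fin (n + 1) → A, ∃ b, X (c (List.ofFn x)) b := by
      intro x
      apply h2
      rw [sameLen_iff g, hn]
      simp
    choose f hf using h4
    refine ⟨n, f, ?_⟩
    funext s b
    apply propext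
    constructor
    · intro hX
      obtain ⟨m, rfl⟩ := hex s
      have := h1 _ _ hX
      rw [sameLen_iff g, hn] at this
      obtain ⟨x, rfl⟩ := exists_ofFn m this
      exact ⟨x, rfl, h3 _ _ _ hX (hf x)⟩
    · rintro ⟨x, rfl, rfl⟩
      exact hf x
  · rintro ⟨n, f, rfl⟩
    refine ⟨c (List.ofFn fun _ : Fin (n + 1) => e), ?_, ?_, ?_, ?_⟩
    · intro h
      rw [g.nil] at h
      have := congrArg List.length (c.injective h)
      simp at this
    · rintro s b ⟨x, rfl, rfl⟩
      rw [sameLen_iff g]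
      simp
    · intro s hs
      obtain ⟨l, rfl⟩ := hex s
      rw [sameLen_iff g] at hs
      simp at hs
      obtain ⟨x, rfl⟩ := exists_ofFn l hs
      exact ⟨f x, (graph_apply c f x _).mpr rfl⟩
    · rintro s b b' ⟨x, rfl, rfl⟩ h
      exact ((graph_apply c f x _).mp h).symm

/-- the family coding a clone -/
def Fam (c : List A ≃ A) (C : Clone A) : (A → A → Prop) → Prop :=
  fun X => ∃ n, ∃ f ∈ C.ops n, X = graph c n f

theorem Fam_graph (c : List A ≃ A) (C : Clone A) {n : ℕ} (f : (Fin (n + 1) → A) → A) :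
    Fam c C (graph c n f) ↔ f ∈ C.ops n := by
  constructor
  · rintro ⟨m, f', hf', h⟩
    obtain rfl := graph_len c h
    rw [graph_inj c h]
    exact hf'
  · intro h
    exact ⟨n, f, h, rfl⟩

theorem le_iff_Fam (c : List A ≃ A) (C D : Clone A) : C ≤ D ↔ ∀ X, Fam c C X → Fam c D X := by
  constructor
  · rintro h X ⟨n, f, hf, rfl⟩
    exact ⟨n, f, h n hf, rfl⟩
  · intro h n f hf
    exact (Fam_graph c D f).mp (h _ ((Fam_graph c C f).mpr hf))

theorem isClone_Fam {c : List A ≃ A} (g : Good H Tl e c) (C : Clone A) :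
    IsClone H Tl e (Fam c C) := by
  have hex : ∀ z, ∃ l, z = c l := fun z => ⟨c.symm z, by simp⟩
  refine ⟨?_, ?_, ?_⟩
  · rintro X ⟨n, f, _, rfl⟩
    exact (isOp_iff g _).mpr ⟨n, f, rfl⟩
  · intro T hT y hy X hX
    obtain ⟨k, hk⟩ := (entry_iff g T).mp hT
    obtain ⟨l, rfl⟩ := hex y
    obtain ⟨b, hb⟩ := hy
    rw [hk] at hb
    have hkl : k < l.length := by
      by_contra hlt
      rw [List.getElem?_eq_none (by omega)] at hb
      simp at hb
    obtain ⟨n, hn⟩ : ∃ n, l.length = n + 1 := ⟨l.length - 1, by omega⟩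
    have hkn : k < n + 1 := by omega
    have : X = graph c n (fun x => x ⟨k, hkn⟩) := by
      funext s b
      obtain ⟨m, rfl⟩ := hex s
      apply propext
      rw [hX, sameLen_iff g, hk, hn]
      constructor
      · rintro ⟨h1, h2⟩
        obtain ⟨x, rfl⟩ := exists_ofFn m h1
        refine ⟨x, rfl, ?_⟩
        rw [ofFn_get? x k hkn] at h2
        exact (Option.some.inj h2).symm
      · rintro ⟨x, h1, h2⟩
        obtain rfl := c.injective h1
        refine ⟨by simp, ?_⟩
        rw [ofFn_get? x k hkn, h2]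
    rw [this, Fam_graph]
    exact C.proj_mem n _
  · intro F hF t₀ ht₀ G hG hcomp Z hZ
    obtain ⟨m, f, hf, rfl⟩ := hF
    obtain ⟨b₀, x₀, rfl, -⟩ := ht₀
    -- the components
    have hT : ∀ k : Fin (m + 1), ∃ n, ∃ g' ∈ C.ops n,
        (fun s b => ∃ t, G s t ∧ (c.symm t)[k.1]? = some b) = graph c n g' := by
      intro k
      refine hcomp (fun t b => (c.symm t)[k.1]? = some b) ((entry_iff g _).mpr ⟨k.1, fun l b => by simp⟩)
        ⟨x₀ k, by rw [Equiv.symm_apply_apply]; exact ofFn_get? x₀ k.1 k.2⟩ _ (fun s b => Iff.rfl)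
    choose N γ hγ1 hγ2 using hT
    -- the domain
    have hdom : ∀ (k : Fin (m + 1)) (s : A), (∃ b, graph c (N k) (γ k) s b) ↔ ∃ t, G s t := by
      intro k s
      rw [← hγ2]
      constructor
      · rintro ⟨b, t, ht, _⟩
        exact ⟨t, ht⟩
      · rintro ⟨t, ht⟩
        obtain ⟨l, rfl⟩ := hex t
        have hl := hG _ _ ht
        rw [sameLen_iff g, List.length_ofFn] at hl
        refine ⟨l[k.1]'(by omega), c l, ht, ?_⟩
        simp
    have hN : ∀ k, N k = N 0 := by
      intro k
      have h1 : ∃ t, G (c (List.ofFn fun _ : Fin (N k + 1) => e)) t :=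
        (hdom k _).mp ⟨_, (graph_apply c (γ k) _ _).mpr rfl⟩
      obtain ⟨b, x, hx, _⟩ := (hdom 0 _).mpr h1
      have := congrArg List.length (c.injective hx)
      simpa using this
    obtain ⟨n, hn⟩ : ∃ n, ∀ k, N k = n := ⟨N 0, hN⟩
    -- transport
    have hγ' : ∃ δ : Fin (m + 1) → (Fin (n + 1) → A) → A, (∀ k, δ k ∈ C.ops n) ∧
        ∀ k : Fin (m + 1), (fun s b => ∃ t, G s t ∧ (c.symm t)[k.1]? = some b) = graph c n (δ k) := by
      have : ∀ k : Fin (m + 1), ∃ δ ∈ C.ops n, (fun s b => ∃ t, G s t ∧ (c.symm t)[k.1]? = some b) = graph c n δ := by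
        intro k
        have := hn k
        subst this
        exact ⟨γ k, hγ1 k, hγ2 k⟩
      choose δ h1 h2 using this
      exact ⟨δ, h1, h2⟩
    obtain ⟨δ, hδ1, hδ2⟩ := hγ'
    have hG1 : ∀ s t, G s t → ∃ x : Fin (n + 1) → A, s = c (List.ofFn x) ∧
        t = c (List.ofFn fun k => δ k x) := by
      intro s t hst
      obtain ⟨l, rfl⟩ := hex t
      have hl := hG _ _ hst
      rw [sameLen_iff g, List.length_ofFn] at hl
      obtain ⟨y, rfl⟩ := exists_ofFn l hl
      have h1 : ∀ k, graph c n (δ k) s (y k) := by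
        intro k
        rw [← hδ2]
        exact ⟨_, hst, by rw [Equiv.symm_apply_apply]; exact ofFn_get? y k.1 k.2⟩
      obtain ⟨x, rfl, -⟩ := h1 0
      refine ⟨x, rfl, ?_⟩
      have : y = fun k => δ k x := by
        funext k
        exact (graph_apply c (δ k) x _).mp (h1 k)
      rw [this]
    have hG2 : ∀ x : Fin (n + 1) → A, G (c (List.ofFn x)) (c (List.ofFn fun k => δ k x)) := by
      intro x
      have h1 : graph c n (δ 0) (c (List.ofFn x)) (δ 0 x) := (graph_apply c (δ 0) x _).mpr rfl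
      rw [← hδ2] at h1
      obtain ⟨t, ht, -⟩ := h1
      obtain ⟨x', hx', ht'⟩ := hG1 _ _ ht
      have hxx : x = x' := List.ofFn_injective (c.injective hx')
      rw [ht', ← hxx] at ht
      exact ht
    have : Z = graph c n (fun x => f fun k => δ k x) := by
      funext s b
      apply propext
      rw [hZ]
      constructor
      · rintro ⟨t, h1, h2⟩
        obtain ⟨x, rfl, rfl⟩ := hG1 _ _ h1
        rw [graph_apply] at h2
        exact ⟨x, rfl, h2⟩
      · rintro ⟨x, rfl, rfl⟩
        exact ⟨_, hG2 x, (graph_apply c f _ _).mpr rfl⟩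
    rw [this, Fam_graph]
    exact C.comp_mem m n f δ hf hδ1

theorem exists_of_isClone {c : List A ≃ A} (g : Good H Tl e c) {𝒳 : (A → A → Prop) → Prop}
    (h : IsClone H Tl e 𝒳) : ∃ C : Clone A, 𝒳 = Fam c C := by
  have hex : ∀ z, ∃ l, z = c l := fun z => ⟨c.symm z, by simp⟩
  obtain ⟨h1, h2, h3⟩ := h
  refine ⟨⟨fun n => {f | 𝒳 (graph c n f)}, ?_, ?_⟩, ?_⟩
  · intro n i
    refine h2 (fun t b => (c.symm t)[i.1]? = some b) ((entry_iff g _).mpr ⟨i.1, fun l b => by simp⟩)
      (c (List.ofFn fun _ : Fin (n + 1) => e))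
      ⟨e, by rw [Equiv.symm_apply_apply]; exact ofFn_get? _ i.1 i.2⟩ _ ?_
    intro s b
    obtain ⟨m, rfl⟩ := hex s
    rw [sameLen_iff g]
    constructor
    · rintro ⟨x, h4, h5⟩
      obtain rfl := c.injective h4
      refine ⟨by simp, ?_⟩
      rw [Equiv.symm_apply_apply, h5]
      exact ofFn_get? x i.1 i.2
    · rintro ⟨h4, h5⟩
      rw [List.length_ofFn] at h4
      obtain ⟨x, rfl⟩ := exists_ofFn m h4
      refine ⟨x, rfl, ?_⟩
      rw [Equiv.symm_apply_apply, ofFn_get? x i.1 i.2] at h5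
      exact (Option.some.inj h5).symm
  · intro m n f δ hf hδ
    refine h3 (graph c m f) hf (c (List.ofFn fun _ : Fin (m + 1) => e))
      ⟨_, (graph_apply c f _ _).mpr rfl⟩
      (fun s t => ∃ x : Fin (n + 1) → A, s = c (List.ofFn x) ∧ t = c (List.ofFn fun k => δ k x)) ?_ ?_ _ ?_
    · rintro s t ⟨x, rfl, rfl⟩
      rw [sameLen_iff g]
      simp
    · intro T hT hT0 Y hY
      obtain ⟨k, hk⟩ := (entry_iff g T).mp hT
      obtain ⟨b, hb⟩ := hT0
      rw [hk] at hb
      have hkm : k < m + 1 := by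
        by_contra hlt
        rw [List.getElem?_eq_none (by simp; omega)] at hb
        simp at hb
      have : Y = graph c n (δ ⟨k, hkm⟩) := by
        funext s b
        apply propext
        rw [hY]
        constructor
        · rintro ⟨t, ⟨x, rfl, rfl⟩, h5⟩
          rw [hk, ofFn_get? _ k hkm] at h5
          exact ⟨x, rfl, (Option.some.inj h5).symm⟩
        · rintro ⟨x, rfl, rfl⟩
          refine ⟨_, ⟨x, rfl, rfl⟩, ?_⟩
          rw [hk, ofFn_get? _ k hkm]
      rw [this]
      exact hδ _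
    · intro s b
      constructor
      · rintro ⟨x, rfl, rfl⟩
        exact ⟨_, ⟨x, rfl, rfl⟩, (graph_apply c f _ _).mpr rfl⟩
      · rintro ⟨t, ⟨x, rfl, rfl⟩, h5⟩
        rw [graph_apply] at h5
        exact ⟨x, rfl, h5⟩
  · funext X
    apply propext
    constructor
    · intro hX
      obtain ⟨n, f, rfl⟩ := (isOp_iff g X).mp (h1 X hX)
      exact ⟨n, f, hX, rfl⟩
    · rintro ⟨n, f, hf, rfl⟩
      exact hf

end Sem

end Pool.Agent.W_MP_2972c3_al
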