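import Mathlib

set_option autoImplicit false

/-! A small calculus of uniformly first-order definable predicates on ordered structures. -/

namespace Pool.Agent.W_MP_2972c3_al

open FirstOrder FirstOrder.Language

universe u

/-- Realization of a formula of the language of orders in a type with `≤`. -/
def Rz {L : Type u} [LE L] {Γ : Type} (φ : Language.order.Formula Γ) (v : Γ → L) : Prop :=
  @Formula.Realize Language.order L (Language.orderStructure L) Γ φ v

/-- A family of predicates (over all types with `≤`) is definable. -/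
def Def (Γ : Type) (R : ∀ (L : Type u) [LE L], (Γ → L) → Prop) : Prop :=
  ∃ φ : Language.order.Formula Γ, ∀ (L : Type u) [LE L] (v : Γ → L), Rz φ v ↔ R L v

theorem Rz_le {L : Type u} [LE L] {Γ : Type} (a b : Γ) (v : Γ → L) :
    Rz (Term.le (Term.var (Sum.inl a)) (Term.var (Sum.inl b)) :
      Language.order.BoundedFormula Γ 0) v ↔ v a ≤ v b := by
  let _ := Language.orderStructure L
  have : Language.order.OrderedStructure L := ⟨fun x => Iff.rfl⟩
  unfold Rz Formula.Realize
  rw [Term.realize_le]
  simp

theorem Rz_imp {L : Type u} [LE L] {Γ : Type} (φ ψ : Language.order.Formula Γ) (v : Γ → L) :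
    Rz (φ.imp ψ) v ↔ (Rz φ v → Rz ψ v) := by
  let _ := Language.orderStructure L
  unfold Rz
  exact Formula.realize_imp

theorem Rz_bot {L : Type u} [LE L] {Γ : Type} (v : Γ → L) :
    Rz (⊥ : Language.order.Formula Γ) v ↔ False := by
  let _ := Language.orderStructure L
  unfold Rz Formula.Realize
  simp

theorem Rz_relabel {L : Type u} [LE L] {Γ Δ : Type} (φ : Language.order.Formula Γ) (f : Γ → Δ)
    (v : Δ → L) : Rz (φ.relabel f) v ↔ Rz φ (fun g => v (f g)) := by
  let _ := Language.orderStructure L
  unfold Rz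
  exact Formula.realize_relabel

theorem Rz_iAlls {L : Type u} [LE L] {Γ : Type} (φ : Language.order.Formula (Γ ⊕ Unit))
    (v : Γ → L) : Rz (Formula.iAlls Unit φ) v ↔ ∀ i : Unit → L, Rz φ (fun a => Sum.elim v i a) := by
  let _ := Language.orderStructure L
  unfold Rz
  exact Formula.realize_iAlls

namespace Def

variable {Γ : Type}

theorem congr {R S : ∀ (L : Type u) [LE L], (Γ → L) → Prop} (h : Def Γ R)
    (hRS : ∀ (L : Type u) [LE L] (v : Γ → L), R L v ↔ S L v) : Def Γ S := by
  obtain ⟨φ, hφ⟩ := h
  exact ⟨φ, fun L _ v => (hφ L v).trans (hRS L v)⟩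

theorem le (a b : Γ) : Def.{u} Γ (fun _ _ v => v a ≤ v b) :=
  ⟨_, fun _ _ v => Rz_le a b v⟩

theorem fls : Def.{u} Γ (fun _ _ _ => False) := ⟨⊥, fun _ _ v => Rz_bot v⟩

theorem imp {R S : ∀ (L : Type u) [LE L], (Γ → L) → Prop} (h : Def Γ R) (h' : Def Γ S) :
    Def Γ (fun L _ v => R L v → S L v) := by
  obtain ⟨φ, hφ⟩ := h
  obtain ⟨ψ, hψ⟩ := h'
  exact ⟨φ.imp ψ, fun L _ v => (Rz_imp φ ψ v).trans (imp_congr (hφ L v) (hψ L v))⟩

theorem not {R : ∀ (L : Type u) [LE L], (Γ → L) → Prop} (h : Def Γ R) :
    Def Γ (fun L _ v => ¬ R L v) := (h.imp fls)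

theorem and {R S : ∀ (L : Type u) [LE L], (Γ → L) → Prop} (h : Def Γ R) (h' : Def Γ S) :
    Def Γ (fun L _ v => R L v ∧ S L v) :=
  (h.imp h'.not).not.congr fun L _ v => by tauto

theorem or {R S : ∀ (L : Type u) [LE L], (Γ → L) → Prop} (h : Def Γ R) (h' : Def Γ S) :
    Def Γ (fun L _ v => R L v ∨ S L v) :=
  (h.not.imp h').congr fun L _ v => by tauto

theorem iff {R S : ∀ (L : Type u) [LE L], (Γ → L) → Prop} (h : Def Γ R) (h' : Def Γ S) :
    Def Γ (fun L _ v => R L v ↔ S L v) :=
  ((h.imp h').and (h'.imp h)).congr fun L _ v => by tauto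

theorem all {R : ∀ (L : Type u) [LE L], (Γ → L) → L → Prop}
    (h : Def (Option Γ) (fun L _ v => R L (fun g => v (some g)) (v none))) :
    Def Γ (fun L _ v => ∀ x, R L v x) := by
  obtain ⟨φ, hφ⟩ := h
  let e : Option Γ → Γ ⊕ Unit := fun o => o.elim (Sum.inr ()) Sum.inl
  refine ⟨Formula.iAlls Unit (φ.relabel e), fun L _ v => ?_⟩
  rw [Rz_iAlls]
  have key : ∀ x : L, Rz (φ.relabel e) (fun a => Sum.elim v (fun _ : Unit => x) a) ↔ R L v x := by
    intro x
    rw [Rz_relabel]
    exact hφ L (fun o => Sum.elim v (fun _ : Unit => x) (e o))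
  constructor
  · intro h x
    exact (key x).mp (h fun _ => x)
  · intro h i
    have := (key (i ())).mpr (h (i ()))
    have hi : (fun _ : Unit => i ()) = i := by funext u; rfl
    rw [hi] at this
    exact this

theorem ex {R : ∀ (L : Type u) [LE L], (Γ → L) → L → Prop}
    (h : Def (Option Γ) (fun L _ v => R L (fun g => v (some g)) (v none))) :
    Def Γ (fun L _ v => ∃ x, R L v x) :=
  (Def.all (R := fun L _ v x => ¬ R L v x) h.not).not.congr fun L _ v => by
    push Not
    rfl

/-- relabelling of the variables -/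
theorem relabel {Δ : Type} {R : ∀ (L : Type u) [LE L], (Γ → L) → Prop} (h : Def Γ R) (f : Γ → Δ) :
    Def Δ (fun L _ v => R L (fun g => v (f g))) := by
  obtain ⟨φ, hφ⟩ := h
  exact ⟨φ.relabel f, fun L _ v => (Rz_relabel φ f v).trans (hφ L _)⟩

end Def

/-- Elementary equivalence of two ordered structures in the language of orders. -/
def OEquiv (M N : Type u) [LE M] [LE N] : Prop :=
  @ElementarilyEquivalent Language.order M N (Language.orderStructure M) (Language.orderStructure N)

/-- A sentence (definable in the empty context) has the same truth value in elementarily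
equivalent structures. -/
theorem Def.transfer {R : ∀ (L : Type u) [LE L], (Empty → L) → Prop} (h : Def Empty R)
    {M N : Type u} [LE M] [LE N] (hMN : OEquiv M N) (hM : R M Empty.elim) : R N Empty.elim := by
  obtain ⟨φ, hφ⟩ := h
  let _ := Language.orderStructure M
  let _ := Language.orderStructure N
  have e1 : (Empty.elim : Empty → M) = default := Subsingleton.elim _ _
  have e2 : (Empty.elim : Empty → N) = default := Subsingleton.elim _ _
  have h1 : M ⊨ φ := by
    have := (hφ M Empty.elim).mpr hM
    rw [e1] at this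
    exact this
  have h2 : N ⊨ φ := (ElementarilyEquivalent.realize_sentence (L := Language.order) hMN φ).mp h1
  refine (hφ N Empty.elim).mp ?_
  rw [e2]
  exact h2

end Pool.Agent.W_MP_2972c3_al
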