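import Pool.Agent.W_MP_2972c3_al.Constants

set_option autoImplicit false

/-! ### Retractions as elements of the lattice of clones -/

namespace Pool.Agent.W_MP_2972c3_al

universe u

section Order

variable {L : Type u} [LE L]

/-- `e` fixes the point `b` -/
def Fixd (e b : L) : Prop := ∀ c : L, Con c → UB c e b → c ≤ b

/-- `e` maps the point `a` to the point `b` (for a retraction `e`) -/
def Val (e a b : L) : Prop := UB b e a ∧ Fixd e b

/-- `e` is generated by a retraction -/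
def Retr (e : L) : Prop :=
  At e ∧ (∃ a b : L, Con a ∧ Con b ∧ ¬ a ≤ b ∧ UB b e a) ∧
    ∀ a b : L, Con a → Con b → UB b e a → ¬ a ≤ b → Fixd e b

end Order

namespace Clone

variable {A : Type u}

/-- the points of the lattice of clones -/
theorem forall_Con (h3 : ∀ a b : A, ∃ c, c ≠ a ∧ c ≠ b) (h2 : ∃ a b : A, a ≠ b)
    {P : Clone A → Prop} : (∀ x, Con x → P x) ↔ ∀ a, P (cst a) := by
  constructor
  · intro h a
    exact h _ ((Con_iff h3 h2 _).mpr ⟨a, rfl⟩)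
  · intro h x hx
    obtain ⟨a, rfl⟩ := (Con_iff h3 h2 _).mp hx
    exact h a

theorem Con_cst (h3 : ∀ a b : A, ∃ c, c ≠ a ∧ c ≠ b) (h2 : ∃ a b : A, a ≠ b) (a : A) :
    Con (cst a) := (Con_iff h3 h2 _).mpr ⟨a, rfl⟩

theorem iter_idem {ε : A → A} (hε : ∀ a, ε (ε a) = ε a) (k : ℕ) : ε^[k + 1] = ε := by
  induction k with
  | zero => rfl
  | succ k ih =>
    rw [Function.iterate_succ', ih]
    funext a
    exact hε a

theorem un_gen_idem {ε : A → A} (hε : ∀ a, ε (ε a) = ε a) {δ : A → A} :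
    (gen ε).un δ ↔ δ = id ∨ δ = ε := by
  rw [un_gen_iff]
  constructor
  · rintro ⟨k, rfl⟩
    cases k with
    | zero => exact Or.inl rfl
    | succ k => exact Or.inr (iter_idem hε k)
  · rintro (rfl | rfl)
    · exact ⟨0, rfl⟩
    · exact ⟨1, rfl⟩

theorem UB_idem {ε : A → A} (hε : ∀ a, ε (ε a) = ε a) (a b : A) :
    UB (cst b) (gen ε) (cst a) ↔ b = a ∨ b = ε a := by
  rw [UB_cst_iff]
  constructor
  · rintro ⟨γ, hγ, rfl⟩
    rcases (un_gen_idem hε).mp hγ with rfl | rfl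
    · exact Or.inl rfl
    · exact Or.inr rfl
  · rintro (rfl | rfl)
    · exact ⟨id, un_id _, rfl⟩
    · exact ⟨ε, un_gen ε, rfl⟩

theorem Fixd_idem (h3 : ∀ a b : A, ∃ c, c ≠ a ∧ c ≠ b) (h2 : ∃ a b : A, a ≠ b)
    {ε : A → A} (hε : ∀ a, ε (ε a) = ε a) (b : A) : Fixd (gen ε) (cst b) ↔ ε b = b := by
  unfold Fixd
  rw [forall_Con h3 h2]
  constructor
  · intro h
    exact cst_inj h3 (h (ε b) ((UB_idem hε b _).mpr (Or.inr rfl)))
  · intro h c hc
    rcases (UB_idem hε b c).mp hc with rfl | rfl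
    · exact le_rfl'
    · rw [h]; exact le_rfl'

theorem Val_idem (h3 : ∀ a b : A, ∃ c, c ≠ a ∧ c ≠ b) (h2 : ∃ a b : A, a ≠ b)
    {ε : A → A} (hε : ∀ a, ε (ε a) = ε a) (a b : A) : Val (gen ε) (cst a) (cst b) ↔ ε a = b := by
  unfold Val
  rw [UB_idem hε, Fixd_idem h3 h2 hε]
  constructor
  · rintro ⟨rfl | rfl, h⟩
    · exact h
    · rfl
  · rintro rfl
    exact ⟨Or.inr rfl, hε a⟩

theorem Retr_idem (h3 : ∀ a b : A, ∃ c, c ≠ a ∧ c ≠ b) (h2 : ∃ a b : A, a ≠ b)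
    {ε : A → A} (hid : ε ≠ id) (hε : ∀ a, ε (ε a) = ε a) : Retr (gen ε) := by
  refine ⟨At_gen_idem hid hε, ?_, ?_⟩
  · obtain ⟨a, ha⟩ : ∃ a, ε a ≠ a := by
      by_contra h
      push Not at h
      exact hid (funext h)
    refine ⟨cst a, cst (ε a), Con_cst h3 h2 _, Con_cst h3 h2 _, ?_, (UB_idem hε _ _).mpr (Or.inr rfl)⟩
    intro h
    exact ha (cst_inj h3 h).symm
  · intro a b ha hb h hab
    obtain ⟨α, rfl⟩ := (Con_iff h3 h2 _).mp ha
    obtain ⟨β, rfl⟩ := (Con_iff h3 h2 _).mp hb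
    rw [Fixd_idem h3 h2 hε]
    rcases (UB_idem hε _ _).mp h with rfl | rfl
    · exact absurd le_rfl' hab
    · exact hε α

theorem Retr_iff (h3 : ∀ a b : A, ∃ c, c ≠ a ∧ c ≠ b) (h2 : ∃ a b : A, a ≠ b) (e : Clone A) :
    Retr e ↔ ∃ ε : A → A, ε ≠ id ∧ (∀ a, ε (ε a) = ε a) ∧ e = gen ε := by
  constructor
  · rintro ⟨hat, ⟨a, b, ha, hb, hab, hub⟩, hall⟩
    obtain ⟨α, rfl⟩ := (Con_iff h3 h2 _).mp ha
    obtain ⟨β, rfl⟩ := (Con_iff h3 h2 _).mp hb
    have hne : α ≠ β := by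
      rintro rfl
      exact hab le_rfl'
    obtain ⟨γ, hγ, hγα⟩ := UB_cst_iff.mp hub
    have hγid : γ ≠ id := by
      rintro rfl
      exact hne hγα
    have he : e = gen γ := eq_gen_of_At hat hγ hγid
    refine ⟨γ, hγid, ?_, he⟩
    intro x
    by_cases hx : γ x = x
    · rw [hx]; exact hx
    · have h1 : UB (cst (γ x)) e (cst x) := UB_cst_iff.mpr ⟨γ, hγ, rfl⟩
      have h4 := hall (cst x) (cst (γ x)) (Con_cst h3 h2 _) (Con_cst h3 h2 _) h1 (fun h => hx (cst_inj h3 h).symm)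
      have h5 : UB (cst (γ (γ x))) e (cst (γ x)) := UB_cst_iff.mpr ⟨γ, hγ, rfl⟩
      exact cst_inj h3 (h4 _ (Con_cst h3 h2 _) h5)
  · rintro ⟨ε, hid, hε, rfl⟩
    exact Retr_idem h3 h2 hid hε

theorem gen_idem_inj {ε δ : A → A} (hid : ε ≠ id) (hε : ∀ a, ε (ε a) = ε a)
    (hδ : ∀ a, δ (δ a) = δ a) (h : gen ε ≤ gen δ) : ε = δ := by
  rcases (un_gen_idem hδ).mp (gen_le.mp h) with h1 | h1
  · exact absurd h1 hid
  · exact h1

/-- the clone of the constants in `S` -/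
def csts (S : Set A) : Clone A where
  ops n := {f | (∃ i, f = fun x => x i) ∨ ∃ a ∈ S, f = fun _ => a}
  proj_mem _ i := Or.inl ⟨i, rfl⟩
  comp_mem m n f g := by
    rintro (⟨i, rfl⟩ | ⟨a, ha, rfl⟩) hg
    · exact hg i
    · exact Or.inr ⟨a, ha, rfl⟩

theorem cst_le_csts (h3 : ∀ a b : A, ∃ c, c ≠ a ∧ c ≠ b) (S : Set A) (a : A) :
    cst a ≤ csts S ↔ a ∈ S := by
  rw [gen_le]
  constructor
  · rintro (⟨i, hi⟩ | ⟨b, hb, hab⟩)
    · exfalso
      obtain ⟨r, hr, _⟩ := h3 a a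
      exact hr (congrFun hi (fun _ => r)).symm
    · have : a = b := congrFun hab (fun _ => a)
      rw [this]; exact hb
  · intro h
    exact Or.inr ⟨a, h, rfl⟩

/-- the clone of a family of pairwise left-zero idempotent maps -/
def rets {ι : Type u} (ρ : ι → A → A) (hρ : ∀ s t a, ρ s (ρ t a) = ρ s a) (S : Set ι) : Clone A where
  ops n := {f | (∃ i, f = fun x => x i) ∨ ∃ s ∈ S, ∃ i : Fin (n + 1), f = fun x => ρ s (x i)}
  proj_mem _ i := Or.inl ⟨i, rfl⟩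
  comp_mem m n f g := by
    rintro (⟨i, rfl⟩ | ⟨s, hs, i, rfl⟩) hg
    · exact hg i
    · right
      rcases hg i with ⟨j, hj⟩ | ⟨t, ht, j, hj⟩
      · refine ⟨s, hs, j, ?_⟩
        funext x
        show ρ s (g i x) = _
        rw [hj]
      · refine ⟨s, hs, j, ?_⟩
        funext x
        show ρ s (g i x) = _
        rw [hj, hρ]

theorem gen_le_rets {ι : Type u} {ρ : ι → A → A} (hρ : ∀ s t a, ρ s (ρ t a) = ρ s a)
    (hinj : Function.Injective ρ) (hid : ∀ s, ρ s ≠ id) (S : Set ι) (s : ι) :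
    gen (ρ s) ≤ rets ρ hρ S ↔ s ∈ S := by
  rw [gen_le]
  constructor
  · rintro (⟨i, hi⟩ | ⟨t, ht, i, hi⟩)
    · exfalso
      apply hid s
      funext a
      exact congrFun hi (fun _ => a)
    · have : ρ s = ρ t := by
        funext a
        exact congrFun hi (fun _ => a)
      rw [hinj this]; exact ht
  · intro h
    exact Or.inr ⟨s, h, 0, rfl⟩

end Clone

end Pool.Agent.W_MP_2972c3_al
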