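import Pool.Agent.W_MP_2972c3_al.Closure

set_option autoImplicit false
set_option linter.unusedVariables false

/-! ### A small calculus of third-order definable predicates -/

namespace Pool.Agent.W_MP_2972c3_al

universe u

section Conv

variable {A : Type u}

/-- binary relations as sets of pairs and conversely -/
def toRel (X : Set (Fin 2 → A)) : A → A → Prop := fun a b => ![a, b] ∈ X

def ofRel (r : A → A → Prop) : Set (Fin 2 → A) := {t | r (t 0) (t 1)}

theorem toRel_ofRel (r : A → A → Prop) : toRel (ofRel r) = r := rfl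

theorem ofRel_toRel (X : Set (Fin 2 → A)) : ofRel (toRel X) = X := by
  ext t
  show ![t 0, t 1] ∈ X ↔ t ∈ X
  have : ![t 0, t 1] = t := by
    funext i
    fin_cases i <;> rfl
  rw [this]

def toFam (Y : Set (Set (Fin 2 → A))) : (A → A → Prop) → Prop := fun r => ofRel r ∈ Y

def ofFam (F : (A → A → Prop) → Prop) : Set (Set (Fin 2 → A)) := {X | F (toRel X)}

theorem toFam_ofFam (F : (A → A → Prop) → Prop) : toFam (ofFam F) = F := rfl

end Conv

/-- predicates of points, binary relations and families of binary relations -/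
abbrev Pred (P Q F : Type) := ∀ (A : Type u), (P → A) → (Q → A → A → Prop) →
  (F → (A → A → Prop) → Prop) → Prop

/-- definability by third-order formulas -/
def TDef (P Q F : Type) (R : Pred.{u} P Q F) : Prop :=
  ∀ (p : P → ℕ) (q : Q → ℕ) (f : F → ℕ), ∃ φ : Fml, ∀ (A : Type u) (s : Assignment A),
    Sat φ s ↔ R A (fun i => s.pt (p i)) (fun i => toRel (s.rel 2 (q i)))
      (fun i => toFam (s.fam 2 (f i)))

namespace TDef

variable {P Q F : Type}

theorem congr {R S : Pred.{u} P Q F} (h : TDef P Q F R)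
    (hRS : ∀ A v r f, R A v r f ↔ S A v r f) : TDef P Q F S := by
  intro p q f
  obtain ⟨φ, hφ⟩ := h p q f
  exact ⟨φ, fun A s => (hφ A s).trans (hRS _ _ _ _)⟩

theorem relabel {P' Q' F' : Type} {R : Pred.{u} P Q F} (h : TDef P Q F R) (g : P → P') (g' : Q → Q')
    (g'' : F → F') : TDef P' Q' F' (fun A v r f => R A (fun i => v (g i)) (fun i => r (g' i))
      (fun i => f (g'' i))) := by
  intro p q f
  exact h (fun i => p (g i)) (fun i => q (g' i)) (fun i => f (g'' i))

theorem eq (i j : P) : TDef.{u} P Q F (fun A v r f => v i = v j) := by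
  intro p q f
  exact ⟨.eq (p i) (p j), fun A s => Iff.rfl⟩

theorem rel (k : Q) (i j : P) : TDef.{u} P Q F (fun A v r f => r k (v i) (v j)) := by
  intro p q f
  refine ⟨.rel 2 (q k) ![p i, p j], fun A s => ?_⟩
  show (fun m : Fin 2 => s.pt (![p i, p j] m)) ∈ s.rel 2 (q k) ↔ ![s.pt (p i), s.pt (p j)] ∈ _
  have : (fun m : Fin 2 => s.pt (![p i, p j] m)) = ![s.pt (p i), s.pt (p j)] := by
    funext m
    fin_cases m <;> rfl
  rw [this]

theorem mem (l : F) (k : Q) : TDef.{u} P Q F (fun A v r f => f l (r k)) := by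
  intro p q f
  refine ⟨.mem 2 (q k) (f l), fun A s => ?_⟩
  show s.rel 2 (q k) ∈ s.fam 2 (f l) ↔ ofRel (toRel (s.rel 2 (q k))) ∈ s.fam 2 (f l)
  rw [ofRel_toRel]

theorem fls : TDef.{u} P Q F (fun A v r f => False) := by
  intro p q f
  exact ⟨.falsum, fun A s => Iff.rfl⟩

theorem imp {R S : Pred.{u} P Q F} (h : TDef P Q F R) (h' : TDef P Q F S) :
    TDef P Q F (fun A v r f => R A v r f → S A v r f) := by
  intro p q f
  obtain ⟨φ, hφ⟩ := h p q f
  obtain ⟨ψ, hψ⟩ := h' p q f
  exact ⟨.imp φ ψ, fun A s => imp_congr (hφ A s) (hψ A s)⟩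

theorem not {R : Pred.{u} P Q F} (h : TDef P Q F R) : TDef P Q F (fun A v r f => ¬ R A v r f) :=
  h.imp fls

theorem and {R S : Pred.{u} P Q F} (h : TDef P Q F R) (h' : TDef P Q F S) :
    TDef P Q F (fun A v r f => R A v r f ∧ S A v r f) :=
  (h.imp h'.not).not.congr fun A v r f => by tauto

theorem or {R S : Pred.{u} P Q F} (h : TDef P Q F R) (h' : TDef P Q F S) :
    TDef P Q F (fun A v r f => R A v r f ∨ S A v r f) :=
  (h.not.imp h').congr fun A v r f => by tauto

theorem iff {R S : Pred.{u} P Q F} (h : TDef P Q F R) (h' : TDef P Q F S) :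
    TDef P Q F (fun A v r f => R A v r f ↔ S A v r f) :=
  ((h.imp h').and (h'.imp h)).congr fun A v r f => by tauto

/-- a fresh name -/
theorem fresh {P : Type} [Finite P] (p : P → ℕ) : ∃ i, ∀ j, p j ≠ i := by
  obtain ⟨i, hi⟩ := (Set.finite_range p).infinite_compl.nonempty
  exact ⟨i, fun j hj => hi ⟨j, hj⟩⟩

theorem allP [Finite P] {R : ∀ (A : Type u), (P → A) → (Q → A → A → Prop) →
    (F → (A → A → Prop) → Prop) → A → Prop}
    (h : TDef (Option P) Q F (fun A v r f => R A (fun i => v (some i)) r f (v none))) :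
    TDef P Q F (fun A v r f => ∀ x : A, R A v r f x) := by
  intro p q f
  obtain ⟨i, hi⟩ := fresh p
  obtain ⟨φ, hφ⟩ := h (fun o => o.elim i p) q f
  refine ⟨.all₁ i φ, fun A s => forall_congr' fun a => ?_⟩
  rw [hφ]
  have h1 : (fun j => (s.setPt i a).pt (p j)) = fun j => s.pt (p j) := by
    funext j
    rw [Assignment.setPt_pt_ne _ _ (hi j)]
  have h2 : (s.setPt i a).pt i = a := Assignment.setPt_pt _ _ _
  show R A (fun j => (s.setPt i a).pt (p j)) _ _ ((s.setPt i a).pt i) ↔ _
  rw [h1, h2]
  exact Iff.rfl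

theorem exP [Finite P] {R : ∀ (A : Type u), (P → A) → (Q → A → A → Prop) →
    (F → (A → A → Prop) → Prop) → A → Prop}
    (h : TDef (Option P) Q F (fun A v r f => R A (fun i => v (some i)) r f (v none))) :
    TDef P Q F (fun A v r f => ∃ x : A, R A v r f x) :=
  (TDef.allP (R := fun A v r f x => ¬ R A v r f x) h.not).not.congr fun A v r f => by
    push Not
    rfl

theorem allQ [Finite Q] {R : ∀ (A : Type u), (P → A) → (Q → A → A → Prop) →
    (F → (A → A → Prop) → Prop) → (A → A → Prop) → Prop}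
    (h : TDef P (Option Q) F (fun A v r f => R A v (fun i => r (some i)) f (r none))) :
    TDef P Q F (fun A v r f => ∀ x : A → A → Prop, R A v r f x) := by
  intro p q f
  obtain ⟨i, hi⟩ := fresh q
  obtain ⟨φ, hφ⟩ := h p (fun o => o.elim i q) f
  have key : ∀ (A : Type u) (s : Assignment A) (X : Set (Fin 2 → A)), Sat φ (s.setRel 2 i X) ↔
      R A (fun j => s.pt (p j)) (fun j => toRel (s.rel 2 (q j))) (fun j => toFam (s.fam 2 (f j)))
        (toRel X) := by
    intro A s X
    rw [hφ]
    have h1 : (fun j => toRel ((s.setRel 2 i X).rel 2 (q j))) = fun j => toRel (s.rel 2 (q j)) := by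
      funext j
      rw [Assignment.setRel_rel_ne]
      rintro ⟨_, h⟩
      exact hi j h
    have h2 : (s.setRel 2 i X).rel 2 i = X := Assignment.setRel_rel _ _ _ _
    show R A _ (fun j => toRel ((s.setRel 2 i X).rel 2 (q j))) _ (toRel ((s.setRel 2 i X).rel 2 i)) ↔ _
    rw [h1, h2]
    exact Iff.rfl
  refine ⟨.all₂ 2 i φ, fun A s => ?_⟩
  constructor
  · intro h x
    have := (key A s (ofRel x)).mp (h _)
    exact this
  · intro h X
    exact (key A s X).mpr (h _)

theorem exQ [Finite Q] {R : ∀ (A : Type u), (P → A) → (Q → A → A → Prop) →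
    (F → (A → A → Prop) → Prop) → (A → A → Prop) → Prop}
    (h : TDef P (Option Q) F (fun A v r f => R A v (fun i => r (some i)) f (r none))) :
    TDef P Q F (fun A v r f => ∃ x : A → A → Prop, R A v r f x) :=
  (TDef.allQ (R := fun A v r f x => ¬ R A v r f x) h.not).not.congr fun A v r f => by
    push Not
    rfl

theorem allF [Finite F] {R : ∀ (A : Type u), (P → A) → (Q → A → A → Prop) →
    (F → (A → A → Prop) → Prop) → ((A → A → Prop) → Prop) → Prop}
    (h : TDef P Q (Option F) (fun A v r f => R A v r (fun i => f (some i)) (f none))) :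
    TDef P Q F (fun A v r f => ∀ x : (A → A → Prop) → Prop, R A v r f x) := by
  intro p q f
  obtain ⟨i, hi⟩ := fresh f
  obtain ⟨φ, hφ⟩ := h p q (fun o => o.elim i f)
  have key : ∀ (A : Type u) (s : Assignment A) (X : Set (Set (Fin 2 → A))),
      Sat φ (s.setFam 2 i X) ↔
      R A (fun j => s.pt (p j)) (fun j => toRel (s.rel 2 (q j))) (fun j => toFam (s.fam 2 (f j)))
        (toFam X) := by
    intro A s X
    rw [hφ]
    have h1 : (fun j => toFam ((s.setFam 2 i X).fam 2 (f j))) = fun j => toFam (s.fam 2 (f j)) := by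
      funext j
      rw [Assignment.setFam_fam_ne]
      rintro ⟨_, h⟩
      exact hi j h
    have h2 : (s.setFam 2 i X).fam 2 i = X := Assignment.setFam_fam _ _ _ _
    show R A _ _ (fun j => toFam ((s.setFam 2 i X).fam 2 (f j))) (toFam ((s.setFam 2 i X).fam 2 i)) ↔ _
    rw [h1, h2]
    exact Iff.rfl
  refine ⟨.all₃ 2 i φ, fun A s => ?_⟩
  constructor
  · intro h x
    exact (key A s (ofFam x)).mp (h _)
  · intro h X
    exact (key A s X).mpr (h _)

theorem exF [Finite F] {R : ∀ (A : Type u), (P → A) → (Q → A → A → Prop) →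
    (F → (A → A → Prop) → Prop) → ((A → A → Prop) → Prop) → Prop}
    (h : TDef P Q (Option F) (fun A v r f => R A v r (fun i => f (some i)) (f none))) :
    TDef P Q F (fun A v r f => ∃ x : (A → A → Prop) → Prop, R A v r f x) :=
  (TDef.allF (R := fun A v r f x => ¬ R A v r f x) h.not).not.congr fun A v r f => by
    push Not
    rfl

/-- transfer of sentences -/
theorem transfer {R : Pred.{u} Empty Empty Empty} (h : TDef Empty Empty Empty R) {A B : Type u}
    [Nonempty A] [Nonempty B] (hAB : ThirdOrderEquiv A B)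
    (hA : R A Empty.elim Empty.elim Empty.elim) : R B Empty.elim Empty.elim Empty.elim := by
  obtain ⟨φ, hφ⟩ := h Empty.elim Empty.elim Empty.elim
  have e : ∀ {β : Type u} (g g' : Empty → β), g = g' := fun g g' => by
    funext x; exact x.elim
  have key : ∀ (A : Type u) (s : Assignment A), Sat φ s ↔ R A Empty.elim Empty.elim Empty.elim := by
    intro A s
    rw [hφ]
    have h1 : (fun i : Empty => s.pt (Empty.elim i)) = Empty.elim := by funext x; exact x.elim
    have h2 : (fun i : Empty => toRel (s.rel 2 (Empty.elim i))) = Empty.elim := by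
      funext x; exact x.elim
    have h3 : (fun i : Empty => toFam (s.fam 2 (Empty.elim i))) = Empty.elim := by
      funext x; exact x.elim
    rw [h1, h2, h3]
  obtain ⟨b⟩ := (inferInstance : Nonempty B)
  exact (key B ⟨fun _ => b, fun _ _ => ∅, fun _ _ => ∅⟩).mp
    ((hAB φ).mp (fun s => (key A s).mpr hA) _)

end TDef

end Pool.Agent.W_MP_2972c3_al
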