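import Pool.Agent.W_MP_2972c3_al.DefLemmas

set_option autoImplicit false
set_option linter.unusedVariables false

/-! ### Translation of third-order formulas -/

namespace Pool.Agent.W_MP_2972c3_al

universe u

/-- context of the translation -/
inductive Vr : Type
  | e1 : Vr
  | e2 : Vr
  | e3 : Vr
  | d : Vr
  | pt (i : ℕ) : Vr
  | rel (n k : ℕ) : Vr
  | fam (n k : ℕ) : Vr
  deriving DecidableEq

/-- the translation -/
def Tr : Fml → ∀ (L : Type u) [LE L], (Vr → L) → Prop
  | .falsum, _, _, _ => False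
  | .eq i j, _, _, v => v (.pt i) ≤ v (.pt j)
  | .rel n k t, L, _, v => ∃ w : L, TC (v .e1) (v .e2) (v .e3) (v .d) n (fun i => v (.pt (t i))) w ∧
      w ≤ v (.rel n k)
  | .mem n k l, L, _, v => ∃ w : L, IsCode (v .e1) (v .e2) (v .e3) (v .d) n (v (.rel n k)) w ∧
      w ≤ v (.fam n l)
  | .imp φ ψ, L, _, v => Tr φ L v → Tr ψ L v
  | .all₁ i φ, L, _, v => ∀ a : L, Con a → Fixd (v .e1) a → Tr φ L (Function.update v (.pt i) a)
  | .all₂ n k φ, L, _, v => ∀ a : L, Tr φ L (Function.update v (.rel n k) a)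
  | .all₃ n k φ, L, _, v => ∀ a : L, Tr φ L (Function.update v (.fam n k) a)

theorem Def_Tr (φ : Fml) : Def.{u} Vr (fun L _ v => Tr φ L v) := by
  induction φ with
  | falsum => exact Def.fls
  | eq i j => exact Def.le _ _
  | rel n k t =>
    refine Def.ex (R := fun L _ (v : Vr → L) w => TC (v .e1) (v .e2) (v .e3) (v .d) n
      (fun i => v (.pt (t i))) w ∧ w ≤ v (.rel n k)) ?_
    exact (Def.tc n (some Vr.e1) (some Vr.e2) (some Vr.e3) (some Vr.d)
      (fun i => some (Vr.pt (t i))) none).and (Def.le _ _)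
  | mem n k l =>
    refine Def.ex (R := fun L _ (v : Vr → L) w => IsCode (v .e1) (v .e2) (v .e3) (v .d) n
      (v (.rel n k)) w ∧ w ≤ v (.fam n l)) ?_
    exact (Def.isCode _ _ _ _ _ _ _).and (Def.le _ _)
  | imp φ ψ ih ih' => exact ih.imp ih'
  | all₁ i φ ih =>
    refine (Def.allv (Vr.pt i) ((Def.con (Vr.pt i)).imp ((Def.fixd Vr.e1 (Vr.pt i)).imp ih))).congr
      fun L _ v => ?_
    simp [Tr]
  | all₂ n k φ ih => exact Def.allv (Vr.rel n k) ih
  | all₃ n k φ ih => exact Def.allv (Vr.fam n k) ih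

namespace Assignment

variable {A : Type u}

theorem setRel_rel (s : Assignment A) (n k : ℕ) (X : Set (Fin n → A)) : (s.setRel n k X).rel n k = X := by
  simp [setRel]

theorem setRel_rel_ne (s : Assignment A) {n k : ℕ} (X : Set (Fin n → A)) {n' k' : ℕ}
    (h : ¬ (n' = n ∧ k' = k)) : (s.setRel n k X).rel n' k' = s.rel n' k' := by
  unfold setRel
  by_cases hn : n' = n
  · subst hn
    have hk : k' ≠ k := fun hk => h ⟨rfl, hk⟩
    simp [hk]
  · simp [hn]

theorem setFam_fam (s : Assignment A) (n k : ℕ) (X : Set (Set (Fin n → A))) :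
    (s.setFam n k X).fam n k = X := by
  simp [setFam]

theorem setFam_fam_ne (s : Assignment A) {n k : ℕ} (X : Set (Set (Fin n → A))) {n' k' : ℕ}
    (h : ¬ (n' = n ∧ k' = k)) : (s.setFam n k X).fam n' k' = s.fam n' k' := by
  unfold setFam
  by_cases hn : n' = n
  · subst hn
    have hk : k' ≠ k := fun hk => h ⟨rfl, hk⟩
    simp [hk]
  · simp [hn]

theorem setPt_pt (s : Assignment A) (i : ℕ) (a : A) : (s.setPt i a).pt i = a := by
  simp [setPt]

theorem setPt_pt_ne (s : Assignment A) {i : ℕ} (a : A) {j : ℕ} (h : j ≠ i) :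
    (s.setPt i a).pt j = s.pt j := by
  simp [setPt, h]

end Assignment

namespace Sys

variable {A : Type u} (σ : Sys A)

open Clone

/-- the values `v` code the assignment `s` -/
structure Codes (v : Vr → Clone A) (s : Assignment σ.B) : Prop where
  e1 : v .e1 = gen σ.e1
  e2 : v .e2 = gen σ.e2
  e3 : v .e3 = gen σ.e3
  d : v .d = cst σ.d
  pt : ∀ i, v (.pt i) = cst (s.pt i).1
  rel : ∀ n k t, t ∈ s.rel n k ↔ cst (σ.tau n t).1 ≤ v (.rel n k)
  fam : ∀ n k X, X ∈ s.fam n k ↔ gen (σ.rho (σ.tau n '' X)) ≤ v (.fam n k)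

theorem Codes.setPt {v : Vr → Clone A} {s : Assignment σ.B} (h : σ.Codes v s) (i : ℕ) (b : σ.B) :
    σ.Codes (Function.update v (.pt i) (cst b.1)) (s.setPt i b) where
  e1 := by simpa using h.e1
  e2 := by simpa using h.e2
  e3 := by simpa using h.e3
  d := by simpa using h.d
  pt j := by
    by_cases hj : j = i
    · subst hj
      rw [Assignment.setPt_pt, Function.update_self]
    · rw [Assignment.setPt_pt_ne _ _ hj, Function.update_of_ne (by simpa using hj)]
      exact h.pt j
  rel n k t := by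
    rw [Function.update_of_ne (by simp)]
    exact h.rel n k t
  fam n k X := by
    rw [Function.update_of_ne (by simp)]
    exact h.fam n k X

theorem Codes.setRel {v : Vr → Clone A} {s : Assignment σ.B} (h : σ.Codes v s) (n k : ℕ)
    (X : Set (Fin n → σ.B)) (x : Clone A) (hx : ∀ t, t ∈ X ↔ cst (σ.tau n t).1 ≤ x) :
    σ.Codes (Function.update v (.rel n k) x) (s.setRel n k X) where
  e1 := by simpa using h.e1
  e2 := by simpa using h.e2
  e3 := by simpa using h.e3
  d := by simpa using h.d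
  pt j := by
    rw [Function.update_of_ne (by simp)]
    exact h.pt j
  rel n' k' t := by
    by_cases hj : n' = n ∧ k' = k
    · obtain ⟨rfl, rfl⟩ := hj
      rw [Assignment.setRel_rel, Function.update_self]
      exact hx t
    · rw [Assignment.setRel_rel_ne _ _ hj, Function.update_of_ne (by simpa using hj)]
      exact h.rel n' k' t
  fam n k X := by
    rw [Function.update_of_ne (by simp)]
    exact h.fam n k X

theorem Codes.setFam {v : Vr → Clone A} {s : Assignment σ.B} (h : σ.Codes v s) (n k : ℕ)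
    (Y : Set (Set (Fin n → σ.B))) (x : Clone A)
    (hx : ∀ X, X ∈ Y ↔ gen (σ.rho (σ.tau n '' X)) ≤ x) :
    σ.Codes (Function.update v (.fam n k) x) (s.setFam n k Y) where
  e1 := by simpa using h.e1
  e2 := by simpa using h.e2
  e3 := by simpa using h.e3
  d := by simpa using h.d
  pt j := by
    rw [Function.update_of_ne (by simp)]
    exact h.pt j
  rel n' k' t := by
    rw [Function.update_of_ne (by simp)]
    exact h.rel n' k' t
  fam n' k' X := by
    by_cases hj : n' = n ∧ k' = k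
    · obtain ⟨rfl, rfl⟩ := hj
      rw [Assignment.setFam_fam, Function.update_self]
      exact hx X
    · rw [Assignment.setFam_fam_ne _ _ hj, Function.update_of_ne (by simpa using hj)]
      exact h.fam n' k' X

/-- every assignment is coded -/
theorem exists_codes (s : Assignment σ.B) (h3 : ∀ a b : A, ∃ c, c ≠ a ∧ c ≠ b) :
    ∃ v : Vr → Clone A, σ.Codes v s := by
  refine ⟨fun x => match x with
    | .e1 => gen σ.e1
    | .e2 => gen σ.e2
    | .e3 => gen σ.e3
    | .d => cst σ.d
    | .pt i => cst (s.pt i).1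
    | .rel n k => csts {a | ∃ t ∈ s.rel n k, (σ.tau n t).1 = a}
    | .fam n k => rets σ.rho σ.rho_rho {S | ∃ X ∈ s.fam n k, σ.tau n '' X = S},
    rfl, rfl, rfl, rfl, fun _ => rfl, ?_, ?_⟩
  · intro n k t
    show _ ↔ cst (σ.tau n t).1 ≤ csts _
    rw [cst_le_csts h3]
    constructor
    · intro h
      exact ⟨t, h, rfl⟩
    · rintro ⟨t', ht', h⟩
      rw [σ.tau_inj n (Subtype.ext h)] at ht'
      exact ht'
  · intro n k X
    show _ ↔ gen (σ.rho (σ.tau n '' X)) ≤ rets σ.rho σ.rho_rho _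
    rw [gen_le_rets σ.rho_rho σ.rho_inj σ.rho_ne_id]
    constructor
    · intro h
      exact ⟨X, h, rfl⟩
    · rintro ⟨X', hX', h⟩
      rw [(Set.image_injective.mpr (σ.tau_inj n)) h] at hX'
      exact hX'

/-- the translation is correct -/
theorem Tr_iff (h3 : ∀ a b : A, ∃ c, c ≠ a ∧ c ≠ b) (h2 : ∃ a b : A, a ≠ b) (φ : Fml) :
    ∀ (v : Vr → Clone A) (s : Assignment σ.B), σ.Codes v s → (Tr φ (Clone A) v ↔ Sat φ s) := by
  induction φ with
  | falsum => intro v s h; exact Iff.rfl
  | eq i j =>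
    intro v s h
    show v (.pt i) ≤ v (.pt j) ↔ s.pt i = s.pt j
    rw [h.pt, h.pt]
    constructor
    · intro hh
      exact Subtype.ext (cst_inj h3 hh)
    · intro hh
      rw [hh]; exact le_rfl'
  | rel n k t =>
    intro v s h
    show (∃ w : Clone A, TC (v .e1) (v .e2) (v .e3) (v .d) n (fun i => v (.pt (t i))) w ∧
      w ≤ v (.rel n k)) ↔ (fun m : Fin n => s.pt (t m)) ∈ s.rel n k
    rw [h.rel, h.e1, h.e2, h.e3, h.d]
    have : (fun i => v (.pt (t i))) = fun i => cst (s.pt (t i)).1 := by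
      funext i
      exact h.pt _
    rw [this]
    constructor
    · rintro ⟨w, hw, hle⟩
      rw [σ.TC_iff h3 h2 n (fun i => s.pt (t i))] at hw
      subst hw
      exact hle
    · intro hle
      exact ⟨_, (σ.TC_iff h3 h2 n (fun i => s.pt (t i)) _).mpr rfl, hle⟩
  | mem n k l =>
    intro v s h
    show (∃ w : Clone A, IsCode (v .e1) (v .e2) (v .e3) (v .d) n (v (.rel n k)) w ∧
      w ≤ v (.fam n l)) ↔ s.rel n k ∈ s.fam n l
    rw [h.fam, h.e1, h.e2, h.e3, h.d]
    have hset : {t | cst (σ.tau n t).1 ≤ v (.rel n k)} = s.rel n k := by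
      ext t
      exact (h.rel n k t).symm
    constructor
    · rintro ⟨w, hw, hle⟩
      rw [σ.IsCode_iff h3 h2, hset] at hw
      subst hw
      exact hle
    · intro hle
      refine ⟨_, (σ.IsCode_iff h3 h2 n _ _).mpr rfl, ?_⟩
      rw [hset]
      exact hle
  | imp φ ψ ih ih' =>
    intro v s h
    exact imp_congr (ih v s h) (ih' v s h)
  | all₁ i φ ih =>
    intro v s h
    show (∀ a : Clone A, Con a → Fixd (v .e1) a → Tr φ _ (Function.update v (.pt i) a)) ↔
      ∀ a, Sat φ (s.setPt i a)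
    rw [h.e1]
    constructor
    · intro hh b
      exact (ih _ _ (h.setPt σ i b)).mp (hh _ (Con_cst h3 h2 _) ((Fixd_idem h3 h2 σ.i1 _).mpr b.2))
    · intro hh a ha1 ha2
      obtain ⟨α, rfl⟩ := (Con_iff h3 h2 _).mp ha1
      rw [Fixd_idem h3 h2 σ.i1] at ha2
      exact (ih _ _ (h.setPt σ i ⟨α, ha2⟩)).mpr (hh _)
  | all₂ n k φ ih =>
    intro v s h
    constructor
    · intro hh X
      refine (ih _ _ (h.setRel σ n k X (csts {a | ∃ t ∈ X, (σ.tau n t).1 = a}) ?_)).mp (hh _)
      intro t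
      rw [cst_le_csts h3]
      constructor
      · intro h
        exact ⟨t, h, rfl⟩
      · rintro ⟨t', ht', h⟩
        rw [σ.tau_inj n (Subtype.ext h)] at ht'
        exact ht'
    · intro hh x
      exact (ih _ _ (h.setRel σ n k {t | cst (σ.tau n t).1 ≤ x} x (fun t => Iff.rfl))).mpr (hh _)
  | all₃ n k φ ih =>
    intro v s h
    constructor
    · intro hh Y
      refine (ih _ _ (h.setFam σ n k Y (rets σ.rho σ.rho_rho {S | ∃ X ∈ Y, σ.tau n '' X = S})
        ?_)).mp (hh _)
      intro X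
      rw [gen_le_rets σ.rho_rho σ.rho_inj σ.rho_ne_id]
      constructor
      · intro h
        exact ⟨X, h, rfl⟩
      · rintro ⟨X', hX', h⟩
        rw [(Set.image_injective.mpr (σ.tau_inj n)) h] at hX'
        exact hX'
    · intro hh x
      exact (ih _ _ (h.setFam σ n k {X | gen (σ.rho (σ.tau n '' X)) ≤ x} x
        (fun t => Iff.rfl))).mpr (hh _)

end Sys

end Pool.Agent.W_MP_2972c3_al
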